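import Pool.Agent.Work.MP_574bbd_an.RK.Stmts

/-!
# MP_574bbd_an, block RK: second part (stronger forms of the theorems U and W), captain helper78

Part 1 (39 items) is proved, see `RK/All.lean` (`all_GC`, `all_TRF`, `pr_FPG`, `all_E6`, `all_ZER`, `all_WL`, `pr_WG`,
`pr_E7`, `pr_LAW`, ...): the items of part 1 may be used as hypotheses or by importing `RK/All.lean`.
-/

set_option autoImplicit false

namespace Pool.Agent.Work.MP_574bbd_an.RK

open MeasureTheory

/-- `G` is locally embeddable into `H` -/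
def Loc (G H : Type) [Group G] [Group H] : Prop :=
  ∀ E : Finset G, ∃ φ : G → H, (∀ g ∈ E, ∀ h ∈ E, φ (g * h) = φ g * φ h) ∧
    ∀ g ∈ E, ∀ h ∈ E, φ g = φ h → g = h

/-- `G` has a free probability measure preserving action (ergodic or not) with positive Rokhlin
entropy -/
def FreePos (G : Type) [Group G] : Prop :=
  ∃ (X : Type) (_ : MeasurableSpace X) (_ : StandardBorelSpace X) (μ : Measure X)
    (_ : IsProbabilityMeasure μ) (_ : MulAction G X),
    (∀ g : G, MeasurePreserving (fun x : X => g • x) μ μ) ∧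
    (∀ g : G, g ≠ 1 → μ {x : X | g • x = x} = 0) ∧
    ∃ ε : ℝ, 0 < ε ∧ LB G μ ε

/-- one positive lower bound for the Bernoulli shifts over all groups -/
def UnifA : Prop := ∃ ε : ℝ, 0 < ε ∧ ∀ (G : Type) [Group G], LB G (bm G coin) ε

/-- for some `ε` there is no code of entropy and error at most `ε` over a finitely presented
group -/
def NoCode : Prop :=
  ∃ ε : ℝ, 0 < ε ∧ ∀ (n : ℕ) (rels : Set (FreeGroup (Fin n))), rels.Finite →
    ∀ c : Cd (PresentedGroup rels) Bool, ¬ IsCd coin ε ε c

/-- PATL (EASY) codes and local embeddings. `E` = the finite set of all `sites c` and all `c.f j`; `φ` from `Loc`;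
`w' i = φ (c.w i)`, `f' j = φ (c.f j)`. `φ 1 = 1` (`1 ∈ E`, `φ (1 * 1) = φ 1 * φ 1`), so the sites of the new code are the `φ` of the sites of
`c` (`φ (w i * f j) = φ (w i) * φ (f j)`), and `φ` is injective on `E`. -/
def S_PATL : Prop := ∀ (G H L : Type) [Group G] [Group H], Loc G H → ∀ c : Cd G L,
  ∃ (w' : Fin c.p → H) (f' : Fin c.q → H), Pat (sites c) (sites (c.win w' f'))

/-- LOCU (EASY-MEDIUM) every group is locally embeddable into `U`. Let `e : Fin n → G` enumerate `E ∪ {1}`, and take the code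
`c : Cd G Unit` with `p = q = n`, `w = f = e`. FPG: `w'`, `f'` with the same coincidences of the sites `e i`, `e i * e j`, `1`. Let `e i₀ = 1`. Then
`w' i₀ = 1`, and `w' i₀ * f' j = w' j` (as `e i₀ * e j = e j`), so `f' j = w' j`. Define `ψ g` = the value of the new sites at a site with the
value `g` (well defined by `Pat`; `1` if there is none), then `ψ (e i) = w' i`, `ψ (e i * e j) = w' i * w' j`, injective on `E`; compose with the
injective homomorphism to `U`. (h : S_FPG) -/
def S_LOCU : Prop := ∀ (U : Type) [Group U], AllFp U → ∀ (G : Type) [Group G], Loc G U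

/-- REC (EASY-MEDIUM) from a code to a generating partition. `α₀ x = (enc c β x, if dec c β x = x.ev 1 then none else some (x.ev 1))`,
`β x = x.ev 1`, and `α = e ∘ α₀` for an injective `e : Fin c.k × Option L → ℕ`. Generating: `dec c β x` is a function of the `α (f j • x)`, so
`x.ev 1` is a function of these and `α x`, and `x.ev g = (g • x).ev 1` (compare I_WG.lean). Entropy: E1, the second component is
`≠ none` with probability `≤ δ`, so its entropy is `≤ κ`; E7. The level sets of `enc` are measurable (finitely many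
coordinates). (h1 : S_E1) (h2 : S_E7) -/
def S_REC : Prop := ∀ (G L : Type) [Group G] [Fintype L] [MeasurableSpace L]
  [MeasurableSingletonClass L] (ν : Measure L) [IsProbabilityMeasure ν] (h δ κ : ℝ) (c : Cd G L),
  IsCd ν h δ c →
  (∀ (X : Type) [MeasurableSpace X] (μ : Measure X) [IsProbabilityMeasure μ] (f : X → Option L)
    (k₀ : Option L), LM f → μ.real {x | f x ≠ k₀} ≤ δ → HF μ f ≤ κ) →
  ∃ α : Sh G L → ℕ, Measurable α ∧ Gen G (bm G ν) α ∧
    Summable (fun n : ℕ => Real.negMulLog ((bm G ν (α ⁻¹' {n})).toReal)) ∧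
    ∑' n : ℕ, Real.negMulLog ((bm G ν (α ⁻¹' {n})).toReal) ≤ h + κ

/-- MINL (EASY-MEDIUM) monotonicity. Let `α` be generating for `G` with entropy `h₀`, `κ > 0`, `δ₁` from E6 (`Option L`, `ε = κ`),
`δ = min κ δ₁`. GC: a code over `G` with `IsCd ν (h₀ + δ) δ`, PATL and TRF: over `H`, REC: a generating partition over `H` with entropy
`≤ h₀ + δ + κ`. So `ε ≤ h₀ + 2 κ` for all `κ > 0`. (h1 : S_GC) (h2 : S_PATL) (h3 : S_TRF) (h4 : S_REC) (h5 : S_E6) -/
def S_MINL : Prop := ∀ (G H L : Type) [Group G] [Group H] [Fintype L] [MeasurableSpace L]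
  [MeasurableSingletonClass L] (ν : Measure L) [IsProbabilityMeasure ν] (ε : ℝ), Loc G H →
  LB H (bm H ν) ε → LB G (bm G ν) ε

/-- BER (EASY) positive entropy implies positive entropy of the Bernoulli shift. Otherwise for every `ε > 0` there is a generating
partition of the Bernoulli shift with entropy `< ε`, and GC (`h = ε`, `δ = ε`) gives a code with `IsCd coin (2 ε) ε`; so codes with
`IsCd coin ε ε` exist for all `ε > 0`, and ZER (`κ` = half of the lower bound) contradicts `FreePos`. (Compare I_UU.lean.)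
(h1 : S_GC) (h2 : S_ZER) -/
def S_BER : Prop := ∀ (G : Type) [Group G] [Infinite G], FreePos G →
  ∃ ε : ℝ, 0 < ε ∧ LB G (bm G coin) ε

/-- NCD (EASY-MEDIUM) the criterion with codes. `→`: let `ε₀` be the number of `UnifA`, `δ₁` from E6 (`Option Bool`, `ε = ε₀/4`),
`ε = min δ₁ (ε₀/4)`. A code with `IsCd coin ε ε` gives by REC a generating partition with entropy `≤ ε₀/2 < ε₀`.
`←`: otherwise for every `ε > 0` there are `G` and a generating partition with entropy `< ε`, by GC a code with `IsCd coin (2 ε) ε`, by FPG and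
TRF over a finitely presented group (use `ε/2`). (h1 : S_REC) (h2 : S_E6) (h3 : S_GC) (h4 : S_FPG) (h5 : S_TRF) -/
def S_NCD : Prop := UnifA ↔ NoCode

/-- EXI (EASY-MEDIUM) a countable group that contains all finitely presented groups, e.g. the direct sum
`Multiplicative (Π₀ i, Additive (P i))` (or the coproduct `Monoid.CoprodI P`, or a subgroup of the product) of all
`P i = PresentedGroup (i.2 : Set (FreeGroup (Fin i.1)))`, `i : Σ n, Finset (FreeGroup (Fin n))`: countably many countable
groups (`FreeGroup (Fin n)` is countable: words; `PresentedGroup` is a quotient of it). -/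
def S_EXI : Prop := ∃ (U : Type) (_ : Group U), Countable U ∧ AllFp U

/-- THEOREM U' (EASY) (mine) -/
def S_U2 : Prop := ∀ (U : Type) [Group U] [Countable U], AllFp U →
  List.TFAE [Q1, Pos U, FreePos U, UnifA, NoCode]

open Classical in
/-- WHr (EASY-MEDIUM) (mine) as WH, with a lower bound `m ρ` for the shift over `N`. -/
def S_WHr : Prop := ∀ (G N L : Type) [Group G] [Group N] [Fintype L] [MeasurableSpace L]
  [MeasurableSingletonClass L] (ν : Measure L) [IsProbabilityMeasure ν] (m : ℕ) (cd : Cd G L)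
  (σ : G → Fin m → Fin m) (c : G → Fin m → N) (E : Finset G) (h δ κ ε ρ : ℝ),
  (∀ s, sites cd s ∈ E) → (∀ j, cd.f j ∈ E) → IsCd ν h δ cd → 0 < m → 0 ≤ h → 0 ≤ κ → 0 ≤ ε →
  (∀ (X : Type) [MeasurableSpace X] (μ : Measure X) [IsProbabilityMeasure μ] (f : X → Option L)
    (k₀ : Option L), LM f → μ.real {x | f x ≠ k₀} ≤ δ → HF μ f ≤ κ) →
  (1 - ε) * (m : ℝ) ≤ ((Finset.univ.filter fun v => Gd σ c E v).card : ℝ) →
  LB N (bm N (Measure.pi fun _ : Fin m => ν)) (m * ρ) →
  ρ ≤ h + κ + ε * (Real.log cd.k + Real.log (Fintype.card L + 1))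

open Classical in
/-- THEOREM W' (EASY-MEDIUM) (mine) -/
def S_Wr : Prop := ∀ (G L : Type) [Group G] [Fintype L] [MeasurableSpace L]
  [MeasurableSingletonClass L] (ν : Measure L) [IsProbabilityMeasure ν] (ρ : ℝ),
  (∀ (E : Finset G) (ε : ℝ), 0 < ε → ∃ (N : Type) (_ : Group N) (m : ℕ)
    (σ : G → Fin m → Fin m) (c : G → Fin m → N), 0 < m ∧
    (1 - ε) * (m : ℝ) ≤ ((Finset.univ.filter fun v => Gd σ c E v).card : ℝ) ∧
    LB N (bm N (Measure.pi fun _ : Fin m => ν)) (m * ρ)) →
  LB G (bm G ν) ρ

end Pool.Agent.Work.MP_574bbd_an.RK
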