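import Mathlib
import Pool.Agent.Work.MP_574bbd_an.RK.Stmts2

/-!
# MP_574bbd_an, block RK, item BER
-/

set_option autoImplicit false

namespace Pool.Agent.Work.MP_574bbd_an.RK

open MeasureTheory

theorem pr_BER (h1 : S_GC) (h2 : S_ZER) : S_BER := by
  intro G _ _ hpos
  by_contra hcon
  have hcode : ∀ ε : ℝ, 0 < ε → ∃ c : Cd G Bool, IsCd coin ε ε c := by
    intro ε hε
    have hLB : ¬ LB G (bm G coin) (ε / 2) := fun hh => hcon ⟨ε / 2, by linarith, hh⟩
    unfold LB at hLB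
    push Not at hLB
    obtain ⟨α, hα, hgen, hsum, hlt⟩ := hLB
    obtain ⟨c, hc⟩ := h1 G Bool coin α (ε / 2) hα hgen hsum hlt.le (ε / 2) (by linarith)
    exact ⟨c, hc.1.trans (by linarith), hc.2.trans (by linarith)⟩
  obtain ⟨X, _, _, μ, _, _, hmp, hfree, ε, hε, hLB⟩ := hpos
  obtain ⟨α, hα, hgen, hsum, hle⟩ := h2 G hcode X μ ⟨hmp, hfree⟩ (ε / 2) (by linarith)
  have h5 := hLB α hα hgen hsum
  linarith

end Pool.Agent.Work.MP_574bbd_an.RK
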