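import Mathlib
import Pool.Agent.Work.MP_574bbd_an.RK.Stmts2

/-!
# MP_574bbd_an, block RK, item EXI: a countable group containing all finitely presented groups
-/

set_option autoImplicit false

namespace Pool.Agent.Work.MP_574bbd_an.RK

open MeasureTheory

namespace IEXI

/-- finite presentations -/
abbrev I : Type := Σ n : ℕ, Finset (FreeGroup (Fin n))

/-- the group with the finite presentation -/
abbrev P (i : I) : Type := PresentedGroup (i.2 : Set (FreeGroup (Fin i.1)))

instance (i : I) : Countable (P i) := by
  have h : Function.Surjective (PresentedGroup.mk (i.2 : Set (FreeGroup (Fin i.1)))) :=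
    PresentedGroup.mk_surjective _
  exact h.countable

instance (i : I) : Countable (Additive (P i)) := inferInstanceAs (Countable (P i))

/-- the direct sum -/
abbrev U : Type := Multiplicative (Π₀ i : I, Additive (P i))

instance : Countable U := inferInstanceAs (Countable (Π₀ i : I, Additive (P i)))

open Classical in
/-- the inclusion -/
noncomputable def inc (i : I) : P i →* U where
  toFun g := Multiplicative.ofAdd (DFinsupp.single i (Additive.ofMul g))
  map_one' := by
    rw [ofMul_one, DFinsupp.single_zero, ofAdd_zero]
  map_mul' a b := by
    rw [ofMul_mul, DFinsupp.single_add, ofAdd_add]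

theorem inc_inj (i : I) : Function.Injective (inc i) := by
  classical
  intro a b h
  have h1 : DFinsupp.single (β := fun i : I => Additive (P i)) i (Additive.ofMul a) =
      DFinsupp.single i (Additive.ofMul b) := Multiplicative.ofAdd.injective h
  have h2 := DFinsupp.single_injective h1
  exact Additive.ofMul.injective h2

end IEXI

open IEXI in
theorem pr_EXI : S_EXI := by
  refine ⟨U, inferInstance, inferInstance, ?_⟩
  intro n rels hfin
  obtain ⟨s, rfl⟩ := hfin.exists_finset_coe
  exact ⟨inc ⟨n, s⟩, inc_inj ⟨n, s⟩⟩

end Pool.Agent.Work.MP_574bbd_an.RK
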