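import Mathlib
import Pool.Agent.Work.MP_574bbd_an.RK.Stmts2

/-! Item LOCU of the block RK: every group is locally embeddable into `U`. -/

set_option autoImplicit false

namespace Pool.Agent.Work.MP_574bbd_an.RK

open Classical in
theorem pr_LOCU (h : S_FPG) : S_LOCU := by
  intro U _ hU G _ E
  let E' : Finset G := insert 1 E
  let w : Fin E'.card → G := fun i => (E'.equivFin.symm i : G)
  have hw : ∀ g ∈ E', ∃ i, w i = g := by
    intro g hg
    refine ⟨E'.equivFin ⟨g, hg⟩, ?_⟩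
    show ((E'.equivFin.symm (E'.equivFin ⟨g, hg⟩) : E') : G) = g
    rw [Equiv.symm_apply_apply]
  let c : Cd G Unit := ⟨E'.card, E'.card, 1, w, w, fun _ => 0, fun _ => ()⟩
  obtain ⟨n, rels, w', f', hfin, hpat⟩ := h G Unit c
  obtain ⟨f, hf⟩ := hU n rels hfin
  let S := sites c
  let S' := sites (c.win w' f')
  have hp : ∀ i j, S i = S j ↔ S' i = S' j := hpat
  let ψ : G → PresentedGroup rels := fun g => if h : ∃ s, S s = g then S' h.choose else 1
  have hψ : ∀ s, ψ (S s) = S' s := by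
    intro s
    have hex : ∃ t, S t = S s := ⟨s, rfl⟩
    show (if h : ∃ t, S t = S s then S' h.choose else 1) = S' s
    rw [dif_pos hex]
    exact (hp _ _).1 hex.choose_spec
  obtain ⟨i₀, hi₀⟩ := hw 1 (Finset.mem_insert_self 1 E)
  have h1 : w' i₀ = 1 := by
    have h2 : S (Sum.inl i₀) = S (Sum.inr (Sum.inr ())) := hi₀
    exact (hp _ _).1 h2
  have h3 : ∀ j, f' j = w' j := by
    intro j
    have h2 : S (Sum.inr (Sum.inl (i₀, j))) = S (Sum.inl j) := by
      show w i₀ * w j = w j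
      rw [hi₀, one_mul]
    have h4 : w' i₀ * f' j = w' j := (hp _ _).1 h2
    rwa [h1, one_mul] at h4
  have hw' : ∀ i, ψ (w i) = w' i := fun i => hψ (Sum.inl i)
  have hmul : ∀ i j, ψ (w i * w j) = w' i * w' j := by
    intro i j
    have h2 : ψ (w i * w j) = w' i * f' j := hψ (Sum.inr (Sum.inl (i, j)))
    rw [h2, h3]
  refine ⟨fun g => f (ψ g), ?_, ?_⟩
  · intro g hg k hk
    obtain ⟨i, rfl⟩ := hw g (Finset.mem_insert_of_mem hg)
    obtain ⟨j, rfl⟩ := hw k (Finset.mem_insert_of_mem hk)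
    show f (ψ (w i * w j)) = f (ψ (w i)) * f (ψ (w j))
    rw [hmul, hw', hw', map_mul]
  · intro g hg k hk hgk
    obtain ⟨i, rfl⟩ := hw g (Finset.mem_insert_of_mem hg)
    obtain ⟨j, rfl⟩ := hw k (Finset.mem_insert_of_mem hk)
    have h2 : ψ (w i) = ψ (w j) := hf hgk
    rw [hw', hw'] at h2
    have h4 : S (Sum.inl i) = S (Sum.inl j) := (hp _ _).2 h2
    exact h4

end Pool.Agent.Work.MP_574bbd_an.RK
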