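import Mathlib
import Pool.Agent.Work.MP_574bbd_an.RK.Stmts2

/-!
# MP_574bbd_an, block RK, item MINL
-/

set_option autoImplicit false

namespace Pool.Agent.Work.MP_574bbd_an.RK

open MeasureTheory

theorem pr_MINL (h1 : S_GC) (h2 : S_PATL) (h3 : S_TRF) (h4 : S_REC) (h5 : S_E6) : S_MINL := by
  intro G H L _ _ _ _ _ ν _ ε hL hLB α hα hgen hsum
  obtain ⟨h₀, hh₀⟩ : ∃ h₀, h₀ = ∑' n : ℕ, Real.negMulLog ((bm G ν (α ⁻¹' {n})).toReal) :=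
    ⟨_, rfl⟩
  rw [← hh₀]
  refine le_of_forall_pos_le_add fun κ' hκ' => ?_
  obtain ⟨κ, hκ, hκκ⟩ : ∃ κ : ℝ, 0 < κ ∧ κ + κ = κ' := ⟨κ' / 2, by linarith, by ring⟩
  obtain ⟨δ₁, hδ₁, hE6⟩ := h5 (Option L) κ hκ
  have hδ : 0 < min κ δ₁ := lt_min hκ hδ₁
  obtain ⟨c, hc⟩ := h1 G L ν α h₀ hα hgen hsum hh₀.ge (min κ δ₁) hδ
  obtain ⟨w', f', hp⟩ := h2 G H L hL c
  have hc' := h3 G H L ν (h₀ + min κ δ₁) (min κ δ₁) c w' f' hp hc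
  obtain ⟨α', hα', hgen', hsum', hle'⟩ := h4 H L ν (h₀ + min κ δ₁) (min κ δ₁) κ _ hc'
    (fun X _ μ _ f k₀ hf hle => hE6 X μ f k₀ hf (hle.trans (min_le_right _ _)))
  have h6 := hLB α' hα' hgen' hsum'
  have : min κ δ₁ ≤ κ := min_le_left _ _
  linarith

end Pool.Agent.Work.MP_574bbd_an.RK
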