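import Mathlib
import Pool.Agent.Work.MP_574bbd_an.RK.Stmts2

/-!
# MP_574bbd_an, block RK, item NCD
-/

set_option autoImplicit false

namespace Pool.Agent.Work.MP_574bbd_an.RK

open MeasureTheory

theorem pr_NCD (h1 : S_REC) (h2 : S_E6) (h3 : S_GC) (h4 : S_FPG) (h5 : S_TRF) : S_NCD := by
  constructor
  · rintro ⟨ε₀, hε₀, hLB⟩
    obtain ⟨δ₁, hδ₁, hE6⟩ := h2 (Option Bool) (ε₀ / 4) (by linarith)
    refine ⟨min δ₁ (ε₀ / 4), lt_min hδ₁ (by linarith), fun n rels _ c hc => ?_⟩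
    obtain ⟨α', hα', hgen', hsum', hle'⟩ := h1 (PresentedGroup rels) Bool coin _ _ (ε₀ / 4) c hc
      (fun X _ μ _ f k₀ hf hle => hE6 X μ f k₀ hf (hle.trans (min_le_left _ _)))
    have h6 := hLB (PresentedGroup rels) α' hα' hgen' hsum'
    have : min δ₁ (ε₀ / 4) ≤ ε₀ / 4 := min_le_right _ _
    linarith
  · rintro ⟨ε, hε, hno⟩
    refine ⟨ε / 2, by linarith, fun G _ => ?_⟩
    by_contra hLB
    unfold LB at hLB
    push Not at hLB
    obtain ⟨α, hα, hgen, hsum, hlt⟩ := hLB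
    obtain ⟨c, hc⟩ := h3 G Bool coin α (ε / 2) hα hgen hsum hlt.le (ε / 2) (by linarith)
    obtain ⟨n, rels, w', f', hfin, hp⟩ := h4 G Bool c
    have hc' := h5 G (PresentedGroup rels) Bool coin _ _ c w' f' hp hc
    exact hno n rels hfin _ ⟨hc'.1.trans (by linarith), hc'.2.trans (by linarith)⟩

end Pool.Agent.Work.MP_574bbd_an.RK
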