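import Mathlib
import Pool.Agent.Work.MP_574bbd_an.RK.Stmts2

/-!
# MP_574bbd_an, block RK, item PATL
-/

set_option autoImplicit false

namespace Pool.Agent.Work.MP_574bbd_an.RK

open MeasureTheory

open Classical in
theorem pr_PATL : S_PATL := by
  intro G H L _ _ hL c
  obtain ⟨φ, hmul, hinj⟩ := hL (Finset.univ.image (sites c) ∪ Finset.univ.image c.f)
  have hs : ∀ s, sites c s ∈ Finset.univ.image (sites c) ∪ Finset.univ.image c.f := fun s =>
    Finset.mem_union_left _ (Finset.mem_image_of_mem _ (Finset.mem_univ s))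
  have hf : ∀ j, c.f j ∈ Finset.univ.image (sites c) ∪ Finset.univ.image c.f := fun j =>
    Finset.mem_union_right _ (Finset.mem_image_of_mem _ (Finset.mem_univ j))
  have h1 : φ 1 = 1 := by
    have h := hmul 1 (hs (Sum.inr (Sum.inr ()))) 1 (hs (Sum.inr (Sum.inr ())))
    rw [mul_one] at h
    exact (mul_eq_left.1 h.symm)
  refine ⟨fun i => φ (c.w i), fun j => φ (c.f j), ?_⟩
  have hsites : ∀ s, sites (c.win (fun i => φ (c.w i)) fun j => φ (c.f j)) s =
      φ (sites c s) := by
    rintro (i | ij | u)
    · rfl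
    · exact (hmul _ (hs (Sum.inl ij.1)) _ (hf ij.2)).symm
    · exact h1.symm
  intro s s'
  constructor
  · intro h
    exact (hsites s).trans ((congrArg φ h).trans (hsites s').symm)
  · intro h
    exact hinj _ (hs s) _ (hs s') ((hsites s).symm.trans (h.trans (hsites s')))

end Pool.Agent.Work.MP_574bbd_an.RK
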