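import Mathlib
import Pool.Agent.Work.MP_574bbd_an.RK.Stmts2

/-!
# MP_574bbd_an, block RK, item REC: from a code to a generating partition
-/

set_option autoImplicit false

namespace Pool.Agent.Work.MP_574bbd_an.RK

open MeasureTheory

namespace IREC

open Classical in
/-- the code and the corrections -/
noncomputable def BR {G L : Type} [Group G] (c : Cd G L) (x : Sh G L) : Fin c.k × Option L :=
  (enc c (fun x : Sh G L => x.ev 1) x,
    if dec c (fun x : Sh G L => x.ev 1) x = x.ev 1 then none else some (x.ev 1))

variable {G L : Type} [Group G]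

theorem ev_iff (c : Cd G L) (x : Sh G L) (l : L) :
    x.ev 1 = l ↔ (BR c x).2 = some l ∨
      ((BR c x).2 = none ∧ dec c (fun x : Sh G L => x.ev 1) x = l) := by
  classical
  by_cases h : dec c (fun x : Sh G L => x.ev 1) x = x.ev 1
  · have h2 : (BR c x).2 = none := by
      unfold BR
      simp only [if_pos h]
    rw [h2, h]
    simp
  · have h2 : (BR c x).2 = some (x.ev 1) := by
      unfold BR
      simp only [if_neg h]
    rw [h2]
    simp

/-- If all the events of the `BR (g • F y)` are measurable then `F` is measurable. -/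
theorem meas [Fintype L] [MeasurableSpace L] [MeasurableSingletonClass L] (c : Cd G L)
    {Y : Type} [MeasurableSpace Y] (F : Y → Sh G L)
    (h : ∀ (g : G) (P : Fin c.k × Option L → Prop), MeasurableSet {y : Y | P (BR c (g • F y))}) :
    Measurable F := by
  have henc : ∀ g : G, Measurable fun y => enc c (fun x : Sh G L => x.ev 1) (g • F y) := by
    intro g
    refine measurable_to_countable' fun i => ?_
    exact h g fun b => b.1 = i
  have hdec : ∀ g : G, Measurable fun y => dec c (fun x : Sh G L => x.ev 1) (g • F y) := by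
    intro g
    have h1 : Measurable fun (y : Y) (j : Fin c.q) =>
        enc c (fun x : Sh G L => x.ev 1) ((c.f j * g) • F y) :=
      measurable_pi_lambda _ fun j => henc _
    have h2 : Measurable c.D := measurable_of_finite _
    have h3 : (fun y => dec c (fun x : Sh G L => x.ev 1) (g • F y)) = fun y =>
        c.D fun j : Fin c.q => enc c (fun x : Sh G L => x.ev 1) ((c.f j * g) • F y) := by
      funext y
      unfold dec
      simp only [mul_smul]
    rw [h3]
    exact h2.comp h1
  have hev : ∀ g : G, Measurable fun y => (F y).ev g := by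
    intro g
    refine measurable_to_countable' fun l => ?_
    have h4 : (fun y => (F y).ev g) ⁻¹' {l} =
        {y | (BR c (g • F y)).2 = some l} ∪
          ({y | (BR c (g • F y)).2 = none} ∩
            (fun y => dec c (fun x : Sh G L => x.ev 1) (g • F y)) ⁻¹' {l}) := by
      ext y
      have h5 : (F y).ev g = (g • F y).ev 1 := by
        rw [ev_smul, one_mul]
      simp only [Set.mem_preimage, Set.mem_singleton_iff, Set.mem_union, Set.mem_inter_iff,
        Set.mem_setOf_eq]
      rw [h5]
      exact ev_iff c (g • F y) l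
    rw [h4]
    refine (h g fun b => b.2 = some l).union ?_
    refine (h g fun b => b.2 = none).inter ?_
    exact hdec g (measurableSet_singleton l)
  have h6 : Measurable fun (y : Y) (g : G) => (F y).ev g :=
    measurable_pi_lambda _ fun g => hev g
  exact h6

/-- the partition is generating -/
theorem gen [Fintype L] [MeasurableSpace L] [MeasurableSingletonClass L] (c : Cd G L)
    (μ : Measure (Sh G L)) (e : Fin c.k × Option L → ℕ) (he : Function.Injective e) :
    Gen G μ (fun x => e (BR c x)) := by
  intro B hB
  refine ⟨B, ?_, by simp⟩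
  have key := @meas G L _ _ _ _ c (Sh G L)
    (⨆ g : G, MeasurableSpace.comap (fun x : Sh G L => e (BR c (g • x))) ⊤) id ?_
  · exact key hB
  · intro g P
    have h1 : MeasurableSpace.comap (fun x : Sh G L => e (BR c (g • x))) ⊤ ≤
        ⨆ g : G, MeasurableSpace.comap (fun x : Sh G L => e (BR c (g • x))) ⊤ :=
      le_iSup (fun g : G => MeasurableSpace.comap (fun x : Sh G L => e (BR c (g • x))) ⊤) g
    refine h1 _ ⟨e '' {b | P b}, trivial, ?_⟩
    ext y
    simp only [Set.mem_preimage, Set.mem_image, Set.mem_setOf_eq, id]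
    constructor
    · rintro ⟨b, hb, hbe⟩
      rw [← he hbe]
      exact hb
    · intro hb
      exact ⟨_, hb, rfl⟩

/-- functions of finitely many coordinates have measurable level sets -/
theorem lm_of {X ι K L : Type} [MeasurableSpace X] [Finite ι] [Finite L] [MeasurableSpace L]
    [MeasurableSingletonClass L] (T : X → ι → L) (hT : ∀ i, Measurable (fun x => T x i))
    (F : (ι → L) → K) : LM (fun x => F (T x)) := by
  intro k
  have hm : Measurable T := measurable_pi_iff.mpr hT
  exact hm (Set.toFinite (F ⁻¹' {k})).measurableSet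

theorem meas_ev [MeasurableSpace L] (g : G) : Measurable (fun x : Sh G L => x.ev g) :=
  measurable_pi_apply g

theorem lm_enc [Finite L] [MeasurableSpace L] [MeasurableSingletonClass L] (c : Cd G L) :
    LM (fun x : Sh G L => enc c (fun x : Sh G L => x.ev 1) x) :=
  lm_of (fun (x : Sh G L) (i : Fin c.p) => x.ev (1 * c.w i)) (fun _ => meas_ev _) c.φ

open Classical in
theorem lm_cor [Finite L] [MeasurableSpace L] [MeasurableSingletonClass L] (c : Cd G L) :
    LM (fun x : Sh G L => (BR c x).2) := by
  refine lm_of (ι := (Fin c.q × Fin c.p) ⊕ Unit)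
    (fun (x : Sh G L) (s : (Fin c.q × Fin c.p) ⊕ Unit) =>
      match s with
      | Sum.inl ji => x.ev (1 * c.w ji.2 * c.f ji.1)
      | Sum.inr _ => x.ev 1) ?_
    (fun t => if c.D (fun j => c.φ fun i => t (Sum.inl (j, i))) = t (Sum.inr ()) then none
      else some (t (Sum.inr ())))
  rintro (ji | u)
  · exact meas_ev _
  · exact meas_ev _

end IREC

open IREC in
theorem pr_REC (h1 : S_E1) (h2 : S_E7) : S_REC := by
  classical
  intro G L _ _ _ _ ν _ h δ κ c hc hκ
  obtain ⟨e, he⟩ := exists_injective_nat (Fin c.k × Option L)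
  have hE : LM (fun x : Sh G L => enc c (fun x : Sh G L => x.ev 1) x) := lm_enc c
  have hC : LM (fun x : Sh G L => (BR c x).2) := lm_cor c
  have hB : LM (fun x : Sh G L => BR c x) := by
    intro k
    have heq : (fun x : Sh G L => BR c x) ⁻¹' {k} =
        ((fun x : Sh G L => enc c (fun x : Sh G L => x.ev 1) x) ⁻¹' {k.1}) ∩
          ((fun x : Sh G L => (BR c x).2) ⁻¹' {k.2}) := by
      ext y
      simp only [Set.mem_preimage, Set.mem_singleton_iff, Set.mem_inter_iff]
      rw [Prod.ext_iff]
      rfl
    rw [heq]
    exact (hE k.1).inter (hC k.2)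
  obtain ⟨m1, m2, m3⟩ := h2 (Sh G L) (Fin c.k × Option L) (bm G ν) (fun x => BR c x) e he hB
  refine ⟨fun x => e (BR c x), m1, gen c _ e he, m2, ?_⟩
  rw [m3]
  have hsub : HF (bm G ν) (fun x : Sh G L => BR c x) ≤
      HF (bm G ν) (fun x : Sh G L => enc c (fun x : Sh G L => x.ev 1) x) +
        HF (bm G ν) (fun x : Sh G L => (BR c x).2) :=
    h1 _ _ _ (bm G ν) _ _ hE hC
  have hset : {x : Sh G L | (BR c x).2 ≠ none} =
      {x : Sh G L | dec c (fun x : Sh G L => x.ev 1) x ≠ x.ev 1} := by
    ext x
    simp only [Set.mem_setOf_eq, ne_eq]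
    unfold BR
    by_cases hd : dec c (fun x : Sh G L => x.ev 1) x = x.ev 1
    · simp [hd]
    · simp [hd]
  have hk := hκ (Sh G L) (bm G ν) (fun x : Sh G L => (BR c x).2) none hC (by
    rw [hset]
    exact hc.2)
  have := hc.1
  linarith

end Pool.Agent.Work.MP_574bbd_an.RK
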