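import Pool.Agent.Work.MP_574bbd_an.RK.Defs

/-!
# MP_574bbd_an, block RK: statements with complete proofs (captain helper78)

THEOREM U. For a countable group `U` that contains all finitely presented groups: every countably
infinite group has a free ergodic action with positive Rokhlin entropy iff `U` has one iff there is
one positive lower bound for the entropies of the generating partitions of the Bernoulli shifts
`{0,1}^G` over all countably infinite groups `G`.

THEOREM W. A group which is approximable by wreath products `N ≀ Sym(m)`, all Bernoulli shifts over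
`N` having full Rokhlin entropy, has the same property.

Item `X`: statement `S_X`, file `RK/I_X.lean`, theorem `pr_X : S_X` with hypotheses among the other
`S_..` (earlier items are hypotheses, never wait). `LM f` means that the level sets of `f` are
measurable; for `f : X → K` with `K` finite it is the same as measurability for the sigma-algebra `⊤`
of `K`. `(g • x).ev h = x.ev (h * g)` (`ev_smul`, `rfl`). `bm G ν` is
`Measure.infinitePi (fun _ : G => ν)`, and `Sh G L` is `G → L` (unfold by `show` or `change`).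
-/

set_option autoImplicit false

namespace Pool.Agent.Work.MP_574bbd_an.RK

open MeasureTheory

/-! ## 1. Entropy of maps with finitely many values -/

/-- E1 (EASY-MEDIUM) subadditivity. Let `p_(kl)`, `p_k`, `q_l` be the three distributions (`p_k = ∑_l p_(kl)` etc.: the
level sets of the pair are disjoint, `measureReal_biUnion_finset` or `measureReal_iUnion`). If `p_(kl) > 0` then `p_k, q_l > 0` and
`-p_(kl) log p_(kl) + p_(kl) log p_k + p_(kl) log q_l = - p_(kl) log (p_(kl)/(p_k q_l)) ≤ p_k q_l - p_(kl)`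
(`Real.log_le_sub_one_of_pos` for `p_k q_l/p_(kl)`); if `p_(kl) = 0` the left side is `0 ≤ p_k q_l`. Sum over `k, l`:
`HF (f, g) - HF f - HF g ≤ 1 - 1 = 0`. -/
def S_E1 : Prop := ∀ (X K K' : Type) [MeasurableSpace X] [Fintype K] [Fintype K'] (μ : Measure X)
  [IsProbabilityMeasure μ] (f : X → K) (g : X → K'), LM f → LM g →
  HF μ (fun x => (f x, g x)) ≤ HF μ f + HF μ g

/-- E2 (EASY) functions of `f`. For `a, b ≥ 0`, `negMulLog (a + b) ≤ negMulLog a + negMulLog b` (if both are positive:
`-(a+b) log(a+b) ≤ -a log a - b log b` because `log` increases); the same for finite sums (induction); the measure of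
`F ∘ f = k'` is the sum of the measures of `f = k`, `F k = k'`. The second part: `F` injective, then the level sets of `F ∘ f` are those of
`f` or empty (`negMulLog 0 = 0`). -/
def S_E2 : Prop := ∀ (X K K' : Type) [MeasurableSpace X] [Fintype K] [Fintype K'] (μ : Measure X)
  [IsProbabilityMeasure μ] (f : X → K) (F : K → K'), LM f →
  LM (fun x => F (f x)) ∧ HF μ (fun x => F (f x)) ≤ HF μ f ∧
  (Function.Injective F → HF μ (fun x => F (f x)) = HF μ f)

/-- E3 (EASY-MEDIUM) finite families. Induction on `m` with E1 and E2 (injective part), for the bijection of the dependent functions on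
`Fin (m + 1)` with the pairs (value at `0`, rest) (`Fin.consEquiv` or `Fin.insertNthEquiv`). -/
def S_E3 : Prop := ∀ (X : Type) [MeasurableSpace X] (μ : Measure X) [IsProbabilityMeasure μ]
  (m : ℕ) (K : Fin m → Type) [∀ i, Fintype (K i)] (f : ∀ i, X → K i), (∀ i, LM (f i)) →
  LM (fun x i => f i x) ∧ HF μ (fun x i => f i x) ≤ ∑ i, HF μ (f i)

/-- E4 (EASY) bounds. `negMulLog ≥ 0` on `[0, 1]` (`Real.negMulLog_nonneg`). Upper bound with `n = |K|`: for `p > 0`,
`- p log p - p log n = p log (1/(n p)) ≤ 1/n - p`, for `p = 0` trivially; sum. (`K` is not empty as `μ` is a probability measure.) -/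
def S_E4 : Prop := ∀ (X K : Type) [MeasurableSpace X] [Fintype K] (μ : Measure X)
  [IsProbabilityMeasure μ] (f : X → K), LM f →
  0 ≤ HF μ f ∧ HF μ f ≤ Real.log (Fintype.card K)

/-- E5 (EASY) continuity. `negMulLog` is uniformly continuous on `[0, 1]` (compact, `Real.continuous_negMulLog`,
`IsCompact.uniformContinuousOn_of_continuous`); take `δ` for `ε/(|K| + 1)` and add. -/
def S_E5 : Prop := ∀ (K : Type) [Fintype K] (ε : ℝ), 0 < ε → ∃ δ : ℝ, 0 < δ ∧
  ∀ (X X' : Type) [MeasurableSpace X] [MeasurableSpace X'] (μ : Measure X) (μ' : Measure X')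
  [IsProbabilityMeasure μ] [IsProbabilityMeasure μ'] (f : X → K) (f' : X' → K),
  (∀ k, |μ.real (f ⁻¹' {k}) - μ'.real (f' ⁻¹' {k})| ≤ δ) → HF μ f ≤ HF μ' f' + ε

/-- E6 (EASY) nearly constant maps. `E5` with the same space and `f'` constant `= k₀` (`HF` of a constant is `0`):
`|μ (f = k₀) - 1| = μ (f ≠ k₀) ≤ δ` and `μ (f = k) ≤ μ (f ≠ k₀) ≤ δ` for `k ≠ k₀`. (h : S_E5) -/
def S_E6 : Prop := ∀ (K : Type) [Fintype K] (ε : ℝ), 0 < ε → ∃ δ : ℝ, 0 < δ ∧
  ∀ (X : Type) [MeasurableSpace X] (μ : Measure X) [IsProbabilityMeasure μ] (f : X → K) (k₀ : K),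
  LM f → μ.real {x | f x ≠ k₀} ≤ δ → HF μ f ≤ ε

/-- E7 (EASY) maps to `ℕ`. The level sets of `e ∘ f` are those of `f`, at the points `e k`, and empty otherwise: a sum with finite
support (`tsum_eq_sum`, `Finset.sum_image` for `e` injective; `(μ s).toReal = μ.real s`). -/
def S_E7 : Prop := ∀ (X K : Type) [MeasurableSpace X] [Fintype K] (μ : Measure X)
  [IsProbabilityMeasure μ] (f : X → K) (e : K → ℕ), Function.Injective e → LM f →
  Measurable (fun x => e (f x)) ∧
  Summable (fun n : ℕ => Real.negMulLog ((μ ((fun x => e (f x)) ⁻¹' {n})).toReal)) ∧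
  ∑' n : ℕ, Real.negMulLog ((μ ((fun x => e (f x)) ⁻¹' {n})).toReal) = HF μ f

/-- E8 (EASY-MEDIUM) truncation. `HF (tr K ∘ α) = ∑_(n < K) negMulLog p_n + negMulLog (∑_(n ≥ K) p_n)`, `p_n = μ (α = n)`.
`negMulLog` of a finite sum of numbers `≥ 0` is at most the sum of the `negMulLog` (see E2); with `negMulLog` continuous and
`∑_(K ≤ n < N) p_n → ∑_(n ≥ K) p_n = μ (α ≥ K)` this gives `negMulLog (μ (α ≥ K)) ≤ ∑'_(n ≥ K) negMulLog p_n`
(all terms `≥ 0`, the series converges). -/
def S_E8 : Prop := ∀ (X : Type) [MeasurableSpace X] (μ : Measure X) [IsProbabilityMeasure μ]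
  (α : X → ℕ) (K : ℕ), Measurable α →
  Summable (fun n : ℕ => Real.negMulLog ((μ (α ⁻¹' {n})).toReal)) →
  LM (fun x => tr K (α x)) ∧
  HF μ (fun x => tr K (α x)) ≤ ∑' n : ℕ, Real.negMulLog ((μ (α ⁻¹' {n})).toReal)

/-- E9 (EASY) the largest atom. Let `k₀` have the largest probability `p` (`> 0`). `HF = ∑ p_k log (1/p_k) ≥ log (1/p) ≥ 1 - p =
μ (f ≠ k₀)` (`p_k ≤ p`, `∑ p_k = 1`, `-log p ≥ 1 - p`). -/
def S_E9 : Prop := ∀ (X K : Type) [MeasurableSpace X] [Fintype K] (μ : Measure X)
  [IsProbabilityMeasure μ] (f : X → K), LM f → ∃ k₀, μ.real {x | f x ≠ k₀} ≤ HF μ f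

/-! ## 2. Approximation -/

/-- A1 (MEDIUM) sets of the sigma-algebra generated by countably valued maps are approximated by finite truncated windows.
Let `C` be the collection of all sets `A`, measurable in `X`, with this property. (i) `A = β i ⁻¹' T`: `q = 1`, `f = i`, `D y = true` iff
`y < K` and `y ∈ T`: the difference is contained in `{β i ≥ K}`, whose measure tends to `0`. (ii) Complements: the same with `!D`. (iii) For a
larger `K'` and a larger window the same set can be written (`tr K` is a function of `tr K'` for `K ≤ K'`: `min (min n K') K = min n K`;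
windows: `Fin q ⊕ Fin q' ≃ Fin (q + q')`, `Fin.append`), so `C` is closed under finite unions
(errors add). (iv) Countable unions: `μ (⋃ A_n \ ⋃_(n < N) A_n) → 0`, then (iii). So `C` is a
sigma-algebra containing all `comap (β i) ⊤` (define a `MeasurableSpace` with these sets, `iSup_le`). -/
def S_A1 : Prop := ∀ (X ι : Type) [MeasurableSpace X] (μ : Measure X) [IsProbabilityMeasure μ]
  (β : ι → X → ℕ), (∀ i, Measurable (β i)) → ∀ A : Set X,
  MeasurableSet[⨆ i, MeasurableSpace.comap (β i) ⊤] A → ∀ ε : ℝ, 0 < ε →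
  ∃ (q K : ℕ) (f : Fin q → ι) (D : (Fin q → Fin (K + 1)) → Bool),
    μ.real (symmDiff A {x | D (fun j => tr K (β (f j) x)) = true}) ≤ ε

/-- A2 (MEDIUM) maps on a product with finite alphabet are approximated by functions of a finite window. Let `e : L → ℕ` be
injective. The product sigma-algebra is `⨆_s comap (fun x => e (x s)) ⊤` (all subsets of `L` are measurable), so by A1
(`β s x = e (x s)`, error `ε/|K|`) every level set `f ⁻¹' {k}` is approximated by a set `{x | D_k (window) = true}`, where the truncated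
values are functions of the `x s`. Take the union of the windows (`Σ k, Fin (q k)` is equivalent to a `Fin p`), and
`φ u = some k` with `D_k = true` if there is exactly one such `k`, arbitrary otherwise. If `f x ≠ φ (window of x)` then `x` is in one of
the symmetric differences (if in none, exactly the `k = f x` has `D_k = true`). -/
def S_A2 : Prop := ∀ (S L K : Type) [Fintype L] [MeasurableSpace L] [MeasurableSingletonClass L]
  [Fintype K] [Nonempty K] (μ : Measure (S → L)) [IsProbabilityMeasure μ] (f : (S → L) → K), LM f →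
  ∀ ε : ℝ, 0 < ε → ∃ (p : ℕ) (w : Fin p → S) (φ : (Fin p → L) → K),
    μ.real {x | f x ≠ φ (fun i => x (w i))} ≤ ε

/-! ## 3. Bernoulli shifts -/

/-- LAW (MEDIUM) the joint law of finitely many coordinates depends only on the coincidences. All subsets of `ι → L` are
finite unions of points, so it suffices to take `Φ = {u}`. If `u i ≠ u j` for some `i, j` with `s i = s j` then both sets are empty
(`Pat`). Otherwise `u i = v (s i) = v' (s' i)` and the sets are the boxes `{x | ∀ t ∈ T, x t = v t}`, `T` the image of `s`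
(`Finset.image`), and the same for `s'`; by `Measure.infinitePi_pi` (`Set.pi`) the measures are `∏_(t ∈ T) ν {v t}` and
`∏_(t ∈ T') ν {v' t}`, and `s i ↦ s' i` is a bijection of `T` and `T'` (`Finset.prod_bij`). -/
def S_LAW : Prop := ∀ (ι S S' L : Type) [Finite ι] [Fintype L] [MeasurableSpace L]
  [MeasurableSingletonClass L] (ν : Measure L) [IsProbabilityMeasure ν] (s : ι → S) (s' : ι → S'),
  Pat s s' → ∀ Φ : Set (ι → L),
  (Measure.infinitePi fun _ : S => ν).real {x : S → L | (fun i => x (s i)) ∈ Φ} =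
    (Measure.infinitePi fun _ : S' => ν).real {x : S' → L | (fun i => x (s' i)) ∈ Φ}

/-- LAW2 (EASY-MEDIUM) the same for the shift over `N` with the base `Fin m → L`. The map `(N → Fin m → L) → (N × Fin m → L)`,
`y ↦ ((n, v) ↦ y n v)`, maps `infinitePi (fun _ => Measure.pi fun _ => ν)` to `infinitePi fun _ => ν`
(`Measure.infinitePi_eq_pi`, `Measure.infinitePi_map_curry_symm` (or `infinitePi_map_piCurry_symm`), or directly `eq_infinitePi`); then
LAW for `S = N × Fin m`. (h : S_LAW) -/
def S_LAW2 : Prop := ∀ (ι N S' L : Type) (m : ℕ) [Finite ι] [Group N] [Fintype L]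
  [MeasurableSpace L] [MeasurableSingletonClass L] (ν : Measure L) [IsProbabilityMeasure ν]
  (s : ι → N × Fin m) (s' : ι → S'), Pat s s' → ∀ Φ : Set (ι → L),
  (bm N (Measure.pi fun _ : Fin m => ν)).real
      {y : Sh N (Fin m → L) | (fun i => y.ev (s i).1 (s i).2) ∈ Φ} =
    (Measure.infinitePi fun _ : S' => ν).real {x : S' → L | (fun i => x (s' i)) ∈ Φ}

/-- MP (EASY) the shift preserves the Bernoulli measure: `Measure.infinitePi_map_piCongrLeft` for the bijection
`Equiv.mulRight g`, or `eq_infinitePi`. -/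
def S_MP : Prop := ∀ (G L : Type) [Group G] [MeasurableSpace L] (ν : Measure L)
  [IsProbabilityMeasure ν] (g : G), MeasurePreserving (fun x : Sh G L => g • x) (bm G ν) (bm G ν)

/-- FR (MEDIUM) the shift `{0,1}^G` is free. Let `g ≠ 1`. For every `n` there are `h_1, ..., h_n` such that the `2 n` elements
`h_i`, `h_i * g` are different (`G` is infinite; choose `h_i` outside a finite set). `g • x = x` implies `x (h_i) = x (h_i * g)` for all
`i`, an event of probability `2^(-n)`: it is the union over `u : Fin n → Bool` of the boxes with `x (h_i) = x (h_i * g) = u i`,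
each of measure `4^(-n)` (`Measure.infinitePi_pi`, `coin {b} = 1/2`). Let `n → ∞`. -/
def S_FR : Prop := ∀ (G : Type) [Group G] [Infinite G] (g : G), g ≠ 1 →
  bm G coin {x : Sh G Bool | g • x = x} = 0

/-- EG (MEDIUM) Bernoulli shifts are ergodic. Let `s` be invariant, `ε > 0`. A2 with `K = Bool` and the indicator function of
`s` gives a set `C = {x | φ (x ∘ w) = true}` with `μ (s Δ C) ≤ ε`. `G` is infinite: choose `g` such that the finite sets `{w i}` and
`{w i * g}` are disjoint. `C` and `g⁻¹C = {x | g • x ∈ C}` are independent: `μ (C ∩ g⁻¹C) = μ(C)²` (functions of disjoint sets of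
coordinates: `(g • x) (w i) = x (w i * g)`; e.g. with boxes: both sides are sums over pairs of values `u, u'` of the two windows of the measure
of the box, a product; or `iIndepFun_infinitePi`). As `s = s ∩ g⁻¹s` and `μ (g⁻¹s Δ g⁻¹C) = μ (s Δ C)` (S_MP),
`|μ s - μ(C)²| ≤ 2ε` and `|μ s - μ C| ≤ ε`, so `|μ s - μ(s)²| ≤ 4ε` for all `ε`: `μ s = μ(s)²`. (h : S_A2) (h' : S_MP) -/
def S_EG : Prop := ∀ (G L : Type) [Group G] [Infinite G] [Fintype L] [MeasurableSpace L]
  [MeasurableSingletonClass L] (ν : Measure L) [IsProbabilityMeasure ν] (s : Set (Sh G L)),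
  MeasurableSet s → (∀ g : G, (fun x : Sh G L => g • x) ⁻¹' s = s) →
  bm G ν s = 0 ∨ bm G ν s = 1

/-- PIH (EASY-MEDIUM) entropy of a power. `Measure.pi_singleton`: the atoms are `∏_v ν {u v}`, `negMulLog` of a product is
`∑_v (∏_(v' ≠ v) ..) negMulLog (ν {u v})`; sum over `u` (`Finset.prod_univ_sum`, total mass `1`). Or induction on `m`
with `negMulLog (a b) = a negMulLog b + b negMulLog a` (`Real.negMulLog_mul`). -/
def S_PIH : Prop := ∀ (L : Type) [Fintype L] [MeasurableSpace L] [MeasurableSingletonClass L]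
  (ν : Measure L) [IsProbabilityMeasure ν] (m : ℕ),
  HF (Measure.pi fun _ : Fin m => ν) (fun u : Fin m → L => u) = m * HF ν (fun l : L => l)

/-! ## 4. Codes from generating partitions -/

/-- GC1 (MEDIUM) decoder. For every letter `l` the set `B_l = {x | x.ev 1 = l}` is measurable, `Gen` gives `A_l` with `μ (A_l Δ B_l) = 0`,
and A1 (`ι = G`, `β g x = α (g • x)`, measurable by S_MP; error `δ/|L|`) gives `q_l, K_l, f_l, D_l`. Enlarge to one `K` (the maximum,
`tr K_l` is a function of `tr K`) and one window (`Σ l, Fin (q_l)` is equivalent to a `Fin q`). `D u = ` the `l` with `D_l = true` if there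
is exactly one, arbitrary otherwise (`L` is not empty). If the decoded letter is not `x.ev 1` then `x` is in one of the symmetric
differences of `B_l` and `{D_l = true}`. (h : S_A1) (h' : S_MP) -/
def S_GC1 : Prop := ∀ (G L : Type) [Group G] [Fintype L] [MeasurableSpace L]
  [MeasurableSingletonClass L] (ν : Measure L) [IsProbabilityMeasure ν] (α : Sh G L → ℕ),
  Measurable α → Gen G (bm G ν) α → ∀ δ : ℝ, 0 < δ →
  ∃ (q K : ℕ) (f : Fin q → G) (D : (Fin q → Fin (K + 1)) → L),
    (bm G ν).real {x : Sh G L | D (fun j => tr K (α (f j • x))) ≠ x.ev 1} ≤ δ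

/-- GC (MEDIUM) the code. GC1 with `δ/2`: `q, K, f, D`. Let `η` be `δ` of E5 for `Fin (K + 1)` and `ε = δ`. A2 for
`x ↦ tr K (α x)` with the error `γ = min η (δ/(2 (q + 1)))`: `p, w, φ`. The code `(p, q, K + 1, w, f, φ, D)`: `enc x = φ (x ∘ w)` (`(w i • x).ev 1 =
x.ev (w i)`) differs from `tr K (α x)` on a set of measure `≤ γ`, so `HF enc ≤ HF (tr K ∘ α) + δ ≤ h + δ` (E5, E8), and `enc (f j • x)` differs from
`tr K (α (f j • x))` on a set of measure `≤ γ` (S_MP); so the decoded letter is wrong with probability `≤ δ/2 + q γ ≤ δ`.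
(h1 : S_GC1) (h2 : S_A2) (h3 : S_E5) (h4 : S_E8) (h5 : S_MP) -/
def S_GC : Prop := ∀ (G L : Type) [Group G] [Fintype L] [MeasurableSpace L]
  [MeasurableSingletonClass L] (ν : Measure L) [IsProbabilityMeasure ν] (α : Sh G L → ℕ) (h : ℝ),
  Measurable α → Gen G (bm G ν) α →
  Summable (fun n : ℕ => Real.negMulLog ((bm G ν (α ⁻¹' {n})).toReal)) →
  ∑' n : ℕ, Real.negMulLog ((bm G ν (α ⁻¹' {n})).toReal) ≤ h → ∀ δ : ℝ, 0 < δ →
  ∃ c : Cd G L, IsCd ν (h + δ) δ c

/-! ## 5. Transfer of codes -/

/-- TRF (EASY-MEDIUM) codes depend only on the coincidences of the sites. `enc c` and the event `dec c ≠ x.ev 1` are conditions on the values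
of `x` at the `sites c`: `(w i • x).ev 1 = x.ev (w i)`, `(w i • (f j • x)).ev 1 = x.ev (w i * f j)`. LAW for
`s = sites c`, `s' = sites (c.win w' f')` (the same index type) and the suitable sets `Φ`. (h : S_LAW) -/
def S_TRF : Prop := ∀ (G G' L : Type) [Group G] [Group G'] [Fintype L] [MeasurableSpace L]
  [MeasurableSingletonClass L] (ν : Measure L) [IsProbabilityMeasure ν] (h δ : ℝ) (c : Cd G L)
  (w' : Fin c.p → G') (f' : Fin c.q → G'), Pat (sites c) (sites (c.win w' f')) → IsCd ν h δ c →
  IsCd ν h δ (c.win w' f')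

/-- FPG (EASY-MEDIUM) a finitely presented group with the same coincidences. Generators `x_i` (`i < p`), `y_j` (`j < q`)
(`Fin (p + q)`, `finSumFinEquiv`), with a word `W s` for every site `s` (`x_i`, `x_i y_j`, `1`), and the relators `W s * (W s')⁻¹` for all pairs of
sites with `sites c s = sites c s'`: a finite set. Let `w' i`, `f' j` be the images of the generators: coincidences in `G` hold in the
presented group. The homomorphism to `G` with `x_i ↦ c.w i`, `y_j ↦ c.f j` (`PresentedGroup.toGroup`) gives the converse. -/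
def S_FPG : Prop := ∀ (G L : Type) [Group G] (c : Cd G L), ∃ (n : ℕ)
  (rels : Set (FreeGroup (Fin n))) (w' : Fin c.p → PresentedGroup rels)
  (f' : Fin c.q → PresentedGroup rels), rels.Finite ∧ Pat (sites c) (sites (c.win w' f'))

/-- COD (EASY) codes go to `U`. FPG, the injective homomorphism of `AllFp` (it preserves the coincidences of sites; compose the
two `Pat`), TRF. (h1 : S_TRF) (h2 : S_FPG) -/
def S_COD : Prop := ∀ (U : Type) [Group U], AllFp U → ∀ (G L : Type) [Group G] [Fintype L]
  [MeasurableSpace L] [MeasurableSingletonClass L] (ν : Measure L) [IsProbabilityMeasure ν]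
  (h δ : ℝ) (c : Cd G L), IsCd ν h δ c → ∃ c' : Cd U L, IsCd ν h δ c'

/-- INF (EASY) `U` is infinite: it contains the infinite cyclic group `PresentedGroup ∅` on one generator (`FreeGroup (Fin 1)`, or map to
`Multiplicative ℤ`). -/
def S_INF : Prop := ∀ (U : Type) [Group U], AllFp U → Infinite U

/-! ## 6. Random labellings -/

/-- NAT (EASY-MEDIUM) no atoms. If `μ {x} = a > 0` then `g • x ≠ x` for `g ≠ 1` (otherwise `{x}` is in a null set), so `g ↦ g • x` is
injective, and `μ {g • x} = μ {x} = a` (`{x}` is the preimage of `{g • x}`): infinitely many disjoint sets of measure `a`,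
a contradiction to `μ X = 1`. -/
def S_NAT : Prop := ∀ (G X : Type) [Group G] [Infinite G] [MeasurableSpace X]
  [MeasurableSingletonClass X] [MulAction G X] (μ : Measure X) [IsProbabilityMeasure μ],
  FMP G μ → ∀ x : X, μ {x} = 0

/-- SEP (MEDIUM) a separating partition. Let `ψ : X → (ℕ → Bool)` be measurable and injective
(`MeasurableSpace.measurable_injection_nat_bool_of_countablySeparated`), `P_n x` = the first `n` digits of `ψ x`, a number
`< 2^n = M`. The sets in the statement for `P_n` are measurable and decrease with `n`; the intersection over `n` of the first is the set of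
the `x` with `e i • x = e j • x` for some `i ≠ j`, i.e. `(e j)⁻¹ e i • x = x`: measure `0` (`FMP`, `e` injective). The intersection of the second
is the set of the `z` with `z.2 = (e j)⁻¹ • e i • z.1` for some `i, j`: its sections are finite, so it is null
(`Measure.measure_prod_null`, no atoms). Continuity from above (`tendsto_measure_iInter_atTop`). (h : S_NAT) -/
def S_SEP : Prop := ∀ (G X : Type) [Group G] [Infinite G] [MeasurableSpace X] [StandardBorelSpace X]
  [MulAction G X] (μ : Measure X) [IsProbabilityMeasure μ], FMP G μ → ∀ (r : ℕ) (e : Fin r → G),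
  Function.Injective e → ∀ η : ℝ, 0 < η → ∃ (M : ℕ) (P : X → Fin M), LM P ∧
    μ.real {x | ∃ i j, i ≠ j ∧ P (e i • x) = P (e j • x)} ≤ η ∧
    (μ.prod μ).real {z : X × X | ∃ i j, P (e i • z.1) = P (e j • z.2)} ≤ η

open Classical in
/-- CNT (EASY) counting. `b ↦` (its restriction to the `M - r` points not in the range of `p`) is a bijection from the set on the left
onto all functions on these points. (Or induction on `r`; or `Fintype.card_pi` as a product set: `b x ∈ {t i}` for `x = p i`, everything
otherwise, `Fintype.card_piFinset`.) -/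
def S_CNT : Prop := ∀ (M r : ℕ) (p : Fin r → Fin M) (t : Fin r → Bool), Function.Injective p →
  (Finset.univ.filter fun b : Fin M → Bool => ∀ i, b (p i) = t i).card * 2 ^ r = 2 ^ M

/-- VAR (MEDIUM) second moment. `S b = μ.real {x | ∀ i, b (P i x) = T i x}`. All functions below are simple.
`∑_b S b = ∫ #{b | ∀ i, b (P i x) = T i x} dμ(x)`, and for `x` not bad (the `P i x` different) the integrand is `2^M/2^r` (CNT), so
`∑_b S b ≥ 2^M ((1/2)^r - μ bad)`. `∑_b (S b)² = ∫∫ #{b | the conditions for x and for x'}`: if neither `x` nor `x'` is bad and there is no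
collision, the `2 r` points are different and the integrand is `2^M/4^r`, otherwise it is `≤ 2^M`; so
`∑_b (S b)² ≤ 2^M ((1/4)^r + 2 μ bad + (μ×μ) col)` (`(S b)² = (μ.prod μ) (the product set)`). Hence
`∑_b (S b - (1/2)^r)² ≤ 2^M (2 bad + col + 2 (1/2)^r bad) ≤ 2^M (4 bad + col)`. (h : S_CNT) -/
def S_VAR : Prop := ∀ (X : Type) [MeasurableSpace X] (μ : Measure X) [IsProbabilityMeasure μ]
  (M r : ℕ) (P : Fin r → X → Fin M) (T : Fin r → X → Bool), (∀ i, LM (P i)) → (∀ i, LM (T i)) →
  ∑ b : Fin M → Bool, (μ.real {x | ∀ i, b (P i x) = T i x} - (1 / 2) ^ r) ^ 2 ≤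
    2 ^ M * (4 * μ.real {x | ∃ i j, i ≠ j ∧ P i x = P j x} +
      (μ.prod μ).real {z : X × X | ∃ i j, P i z.1 = P j z.2})

/-- LAB (MEDIUM) a labelling. SEP with `η = γ²/(10 * 2^r + 10)`: `M`, `P`. VAR with `P i x = P (e i • x)` for the `2 * 2^r` families
`T i x = u i` and `T i x = xor (u i) (ξ (e i • x))`, `u : Fin r → Bool`: the sum over all `b` and all families of the squares is at most
`2^M * 2 * 2^r * 5 η ≤ 2^M γ²`, so for some `b` the sum over the families is `≤ γ²`, and every term is `≤ γ` in
absolute value. `β = b ∘ P`: `b (P (e i • x)) = xor (u i) (ξ (e i • x))` iff `xor (β (e i • x)) (ξ (e i • x)) = u i`.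
(h1 : S_SEP) (h2 : S_VAR) -/
def S_LAB : Prop := ∀ (G X : Type) [Group G] [Infinite G] [MeasurableSpace X] [StandardBorelSpace X]
  [MulAction G X] (μ : Measure X) [IsProbabilityMeasure μ], FMP G μ → ∀ (r : ℕ) (e : Fin r → G),
  Function.Injective e → ∀ ξ : X → Bool, LM ξ → ∀ γ : ℝ, 0 < γ → ∃ β : X → Bool, LM β ∧
    Near μ e γ β ∧ Near μ e γ (fun x => xor (β x) (ξ x))

/-! ## 7. Zero entropy for all actions -/

/-- APP (MEDIUM) a code on a nearly independent labelling. Let `e : Fin r → G` enumerate the range of `sites c` without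
repetition (`Finset.equivFin`). For every set `Φ` of functions on the sites, the event that the labels `β (site • x)` are in `Φ` is a disjoint union
of events `∀ i, β (e i • x) = u i`, `u` in a set of at most `2^r` functions; the same holds for the Bernoulli shift and `x.ev (site)`, where every such
event has probability exactly `(1/2)^r` (`Measure.infinitePi_pi`, `coin {b} = 1/2`). So the two probabilities differ by at most
`2^r γ`. Apply this to the events `enc = k` and `dec ≠ β` (`β (w i • (f j • x)) = β ((w i * f j) • x)`), with `γ` so small that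
`2^r γ ≤ κ` and `2^r γ ≤ δ` of E5 for `Fin c.k`, `ε = κ`. (h : S_E5) -/
def S_APP : Prop := ∀ (G : Type) [Group G] (c : Cd G Bool) (h δ : ℝ), IsCd coin h δ c →
  ∀ κ : ℝ, 0 < κ → ∃ (γ : ℝ) (r : ℕ) (e : Fin r → G), 0 < γ ∧ Function.Injective e ∧
  ∀ (X : Type) [MeasurableSpace X] [MulAction G X] (μ : Measure X) [IsProbabilityMeasure μ],
  (∀ g : G, Measurable fun x : X => g • x) → ∀ β : X → Bool, LM β → Near μ e γ β →
  HF μ (enc c β) ≤ h + κ ∧ μ.real {x | dec c β x ≠ β x} ≤ δ + κ

/-- ONE (MEDIUM) one set. Let `δ₀` be the `δ` of E6 for `K = Bool`, `ε = κ/8`. Take a code `c` with `h = δ = min (κ/8) (δ₀/2)`, APP with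
`κ' = min (κ/8) (δ₀/2)`, LAB: `β`, `ζ = xor β ξ`. `θ₀ x = (enc c β x, enc c ζ x, xor (dec c β x) (β x), xor (dec c ζ x) (ζ x))`. By E1 its
entropy is at most the sum of the four: `≤ 2 (κ/8 + κ/8) + 2 κ/8 ≤ κ`. `θ` = `θ₀` followed by a bijection with `Fin k` (E2). Decoder with the
window `c.f` and the additional element `1`: from the values of `θ` at the `f j • x` we get `dec c β x`, `dec c ζ x`, and from the flags at `x`
`β x`, `ζ x`, so `ξ x = xor (β x) (ζ x)`. (h1 : S_APP) (h2 : S_LAB) (h3 : S_E1) (h4 : S_E2) (h5 : S_E6) -/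
def S_ONE : Prop := ∀ (G : Type) [Group G] [Infinite G],
  (∀ ε : ℝ, 0 < ε → ∃ c : Cd G Bool, IsCd coin ε ε c) →
  ∀ (X : Type) [MeasurableSpace X] [StandardBorelSpace X] [MulAction G X] (μ : Measure X)
  [IsProbabilityMeasure μ], FMP G μ → ∀ ξ : X → Bool, LM ξ → ∀ κ : ℝ, 0 < κ →
  ∃ (k : ℕ) (θ : X → Fin k), LM θ ∧ HF μ θ ≤ κ ∧
    ∃ (q : ℕ) (f : Fin q → G) (D : (Fin q → Fin k) → Bool),
      ∀ x, D (fun j => θ (f j • x)) = ξ x

/-- JOI (MEDIUM-HARD) countable join. E9: `a n : Fin (k n)` with `μ {θ n ≠ a n} ≤ κ/2^(n+1)`. By Borel-Cantelli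
(`measure_setOf_frequently_eq_zero` or `ae_eventually_notMem`) almost every `x` has only finitely many `n` with `θ n x ≠ a n`. Let
`τ x : Finset (Σ n, Fin (k n))` be the set of the pairs `(n, θ n x)` with `θ n x ≠ a n` if it is finite, `∅` otherwise, and
`α x = Encodable.encode (τ x)`. The level sets are measurable (countable intersections). `F n` of the code of `T` is the `b` with
`(n, b) ∈ T` if there is exactly one, `a n` otherwise; so `F n (α x) = θ n x` almost everywhere. Entropy: let `𝒯` be a finite set of `T` that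
occur (of the form `τ x`, with all `n < N₀`). For `N ≥ N₀` the events `{θ n = (value of T at n, or a n) for all n < N}`, `T ∈ 𝒯`, are different
level sets of `Θ_N = (θ n)_(n < N)`, so the sum of `negMulLog` of their measures is `≤ HF Θ_N ≤ ∑_(n<N) HF (θ n) ≤ κ` (E3); for `N → ∞` they
decrease to `{τ = T}` up to a null set, and `negMulLog` is continuous: `∑_(T ∈ 𝒯) negMulLog (μ {τ = T}) ≤ κ`. All terms are `≥ 0`, so
the series over all `n : ℕ` converges and is `≤ κ` (`summable_of_sum_le`, `Real.tsum_le_of_sum_le`). (h1 : S_E9) (h2 : S_E3) -/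
def S_JOI : Prop := ∀ (X : Type) [MeasurableSpace X] (μ : Measure X) [IsProbabilityMeasure μ]
  (k : ℕ → ℕ) (θ : ∀ n, X → Fin (k n)) (κ : ℝ), 0 < κ → (∀ n, LM (θ n)) →
  (∀ n, HF μ (θ n) ≤ κ / 2 ^ (n + 1)) → ∃ α : X → ℕ, Measurable α ∧
    Summable (fun n : ℕ => Real.negMulLog ((μ (α ⁻¹' {n})).toReal)) ∧
    ∑' n : ℕ, Real.negMulLog ((μ (α ⁻¹' {n})).toReal) ≤ κ ∧
    ∀ n, ∃ F : ℕ → Fin (k n), ∀ᵐ x ∂μ, F (α x) = θ n x

/-- GEN (EASY-MEDIUM) criterion for generating partitions. The collection of the measurable `B` for which there is `A` in the sup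
sigma-algebra with `μ (A Δ B) = 0` is a sigma-algebra (complements, countable unions: `⋃ A_n Δ ⋃ B_n ⊆ ⋃ (A_n Δ B_n)`), and it contains
the generating sequence `B n` by hypothesis: `A n = {x | D n (j ↦ α (f n j • x)) = true}` is measurable in the sup (a function of finitely many
maps `x ↦ α (g • x)`). (`MeasurableSpace.generateFrom_induction` or `generateFrom_le`.) -/
def S_GEN : Prop := ∀ (G X : Type) [Group G] [m : MeasurableSpace X] [MulAction G X]
  (μ : Measure X) [IsProbabilityMeasure μ] (α : X → ℕ) (B : ℕ → Set X),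
  (∀ g : G, Measurable fun x : X => g • x) → Measurable α →
  m = MeasurableSpace.generateFrom (Set.range B) →
  (∀ n, ∃ (q : ℕ) (f : Fin q → G) (D : (Fin q → ℕ) → Bool),
    ∀ᵐ x ∂μ, (D (fun j => α (f j • x)) = true ↔ x ∈ B n)) → Gen G μ α

/-- ZER (MEDIUM) all free actions have generating partitions of small entropy. `B n` = `MeasurableSpace.natGeneratingSequence X n`
(`StandardBorelSpace` implies countably generated), `ξ n` its indicator function, ONE with `κ/2^(n+1)`: `k n, θ n, q n, f n, D n`. JOI: `α`,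
`F n`. For almost all `x` and all `j`: `F n (α (f n j • x)) = θ n (f n j • x)` (measure preserving), so
`D n (j ↦ F n (α (f n j • x))) = ξ n x`; GEN. (h1 : S_ONE) (h2 : S_JOI) (h3 : S_GEN) -/
def S_ZER : Prop := ∀ (G : Type) [Group G] [Infinite G],
  (∀ ε : ℝ, 0 < ε → ∃ c : Cd G Bool, IsCd coin ε ε c) →
  ∀ (X : Type) [MeasurableSpace X] [StandardBorelSpace X] [MulAction G X] (μ : Measure X)
  [IsProbabilityMeasure μ], FMP G μ → ∀ κ : ℝ, 0 < κ → ∃ α : X → ℕ, Measurable α ∧ Gen G μ α ∧
    Summable (fun n : ℕ => Real.negMulLog ((μ (α ⁻¹' {n})).toReal)) ∧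
    ∑' n : ℕ, Real.negMulLog ((μ (α ⁻¹' {n})).toReal) ≤ κ

/-- PB (EASY) a lower bound for the Bernoulli shift gives `Pos`: `X = Sh G Bool` (a standard Borel space as a countable product),
`μ = bm G coin`; MP, FR, EG. (h1 : S_MP) (h2 : S_FR) (h3 : S_EG) -/
def S_PB : Prop := ∀ (G : Type) [Group G] [Countable G] [Infinite G] (ε : ℝ), 0 < ε →
  LB G (bm G coin) ε → Pos G

/-- UU (EASY-MEDIUM) `Pos U` implies `Unif`. Otherwise for every `ε > 0` there are a countably infinite `G` and a generating
partition of the Bernoulli shift with entropy `< ε`; GC (`h = ε`, `δ = ε`) and COD: a code for `U` with `IsCd coin (2 ε) ε`, so for all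
`ε > 0` there is a code with `IsCd coin ε ε` (`IsCd` is monotone in both numbers). `U` is infinite (INF). ZER for the action of `Pos U` and
`κ = ε₀/2` contradicts its lower bound `ε₀`. (h1 : S_GC) (h2 : S_COD) (h3 : S_INF) (h4 : S_ZER) -/
def S_UU : Prop := ∀ (U : Type) [Group U], AllFp U → Pos U → Unif

/-- THEOREM U (EASY) from PB, UU, INF. -/
def S_U : Prop := ∀ (U : Type) [Group U] [Countable U], AllFp U → List.TFAE [Q1, Pos U, Unif]

/-! ## 8. Wreath approximations -/

/-- WG (EASY-MEDIUM) the partition `BW` is generating. Let `n j` run through the elements `c (cd.f j) v` (all `j`, `v`) and `1`. From the values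
`BW (n j • y)` we know `encW (c (f j) v • y) (σ (f j) v)`, hence `decW y v` for all `v`, and from the second components at `y`
(the element `1`) we know `y.ev 1 v`: it is `decW y v` for `none` and `l` for `some l`. So `y.ev 1` is a function of the `BW (n j • y)`, and
`y.ev g = (g • y).ev 1` is a function of the `BW ((n j * g) • y)`. So all coordinates, and all measurable sets, are measurable in the
sup sigma-algebra of `e ∘ BW` (`e` injective), i.e. `A = B`. -/
def S_WG : Prop := ∀ (G N L : Type) [Group G] [Group N] [Fintype L] [MeasurableSpace L]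
  [MeasurableSingletonClass L] (m : ℕ) (cd : Cd G L) (σ : G → Fin m → Fin m)
  (c : G → Fin m → N) (μ : Measure (Sh N (Fin m → L)))
  (e : (Fin m → Fin cd.k × Option L) → ℕ), Function.Injective e →
  Gen N μ (fun y => e (BW cd σ c y))

/-- WL (MEDIUM) the law at a good point. Let `E` contain all `cd.w i`, `cd.f j`, `cd.w i * cd.f j` and `1`, and let `v` be good. Then
`decW y v` is computed from the values of `y` at the points `(c (w i) (σ (f j) v) * c (f j) v, σ (w i) (σ (f j) v)) =
(c (w i * f j) v, σ (w i * f j) v)`. So with the family `s = (c (sites cd ·) v, σ (sites cd ·) v)` of points of `N × Fin m`, the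
values `encW y v`, `decW y v`, `y.ev 1 v` are the same functions of `y` at `s` as `enc`, `dec`, `x.ev 1` of `x` at `sites cd`
(at the unit element `c 1 v = 1`, `σ 1 v = v`), and `Pat s (sites cd)` holds by the separation. LAW2 for the level sets of `encW` and for the
event `decW ≠ y.ev 1 v`. (h : S_LAW2) -/
def S_WL : Prop := ∀ (G N L : Type) [Group G] [Group N] [Fintype L] [MeasurableSpace L]
  [MeasurableSingletonClass L] (ν : Measure L) [IsProbabilityMeasure ν] (m : ℕ) (cd : Cd G L)
  (σ : G → Fin m → Fin m) (c : G → Fin m → N) (E : Finset G) (v : Fin m) (h δ : ℝ),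
  (∀ s, sites cd s ∈ E) → (∀ j, cd.f j ∈ E) → Gd σ c E v → IsCd ν h δ cd →
  HF (bm N (Measure.pi fun _ : Fin m => ν)) (fun y => encW cd σ c y v) ≤ h ∧
  (bm N (Measure.pi fun _ : Fin m => ν)).real
    {y : Sh N (Fin m → L) | (BW cd σ c y v).2 ≠ none} ≤ δ

open Classical in
/-- WH (MEDIUM) the entropy of `BW`. By E3 `HF BW ≤ ∑_v HF (BW · v) ≤ ∑_v (HF (encW · v) + HF (second component))` (E1). For good
`v` (WL) the terms are `≤ h` and `≤ κ` (hypothesis on `δ`); for the others `≤ log k` and `≤ log (|L| + 1)` (E4), and there are at most `ε m` of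
them (`h, κ ≥ 0` may be assumed for the count: `HF ≥ 0` gives `h ≥ 0` if there is a good point; write the sum as good part plus bad
part). All level sets are measurable (`encW`, `decW` depend on finitely many coordinates). Finally `Full N` for the base
`Fin m → L` and the partition `e ∘ BW` (WG, E7) and PIH: `m HF ν ≤ HF BW`.
(h1 : S_E3) (h2 : S_E1) (h3 : S_WL) (h4 : S_E4) (h5 : S_WG) (h6 : S_E7) (h7 : S_PIH) -/
def S_WH : Prop := ∀ (G N L : Type) [Group G] [Group N] [Fintype L] [MeasurableSpace L]
  [MeasurableSingletonClass L] (ν : Measure L) [IsProbabilityMeasure ν] (m : ℕ) (cd : Cd G L)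
  (σ : G → Fin m → Fin m) (c : G → Fin m → N) (E : Finset G) (h δ κ ε : ℝ),
  (∀ s, sites cd s ∈ E) → (∀ j, cd.f j ∈ E) → IsCd ν h δ cd → 0 < m → 0 ≤ h → 0 ≤ κ → 0 ≤ ε →
  (∀ (X : Type) [MeasurableSpace X] (μ : Measure X) [IsProbabilityMeasure μ] (f : X → Option L)
    (k₀ : Option L), LM f → μ.real {x | f x ≠ k₀} ≤ δ → HF μ f ≤ κ) →
  (1 - ε) * (m : ℝ) ≤ ((Finset.univ.filter fun v => Gd σ c E v).card : ℝ) → Full N →
  HF ν (fun l : L => l) ≤ h + κ + ε * (Real.log cd.k + Real.log (Fintype.card L + 1))

/-- THEOREM W (EASY-MEDIUM). Let `α` be generating for the Bernoulli shift over `G` with entropy `h₀`. For `κ > 0` let `δ₁` be the `δ` of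
E6 for `Option L`, `ε = κ`. GC with `δ = min κ δ₁`: a code with `IsCd ν (h₀ + δ) δ`. For every `ε > 0` `Wra G` (with the finite set of all sites
and all `cd.f j`) and WH give `HF ν ≤ h₀ + δ + κ + ε (log k + log (|L| + 1))`. Let `ε → 0`, then `κ → 0`. (`h₀ ≥ 0`, all terms `≥ 0`.)
(h1 : S_GC) (h2 : S_WH) (h3 : S_E6) -/
def S_W : Prop := ∀ (G : Type) [Group G], Wra G → Full G

end Pool.Agent.Work.MP_574bbd_an.RK
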