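import Mathlib
import Pool.Agent.Work.MP_574bbd_an.RK.Stmts

/-!
# Block RK, item WH: the entropy of the partition of a wreath approximation
-/

set_option autoImplicit false

namespace Pool.Agent.Work.MP_574bbd_an.RK

open MeasureTheory

namespace IWH

/-- functions of finitely many coordinates have measurable level sets -/
theorem lm_of {X ι K L : Type} [MeasurableSpace X] [Finite ι] [Finite L] [MeasurableSpace L]
    [MeasurableSingletonClass L] (T : X → ι → L) (hT : ∀ i, Measurable (fun x => T x i))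
    (F : (ι → L) → K) : LM (fun x => F (T x)) := by
  intro k
  have hm : Measurable T := measurable_pi_iff.mpr hT
  exact hm (Set.toFinite (F ⁻¹' {k})).measurableSet

/-- evaluation is measurable -/
theorem meas_ev {N L : Type} [MeasurableSpace L] {m : ℕ} (n : N) (v : Fin m) :
    Measurable (fun y : Sh N (Fin m → L) => y.ev n v) := by
  have h1 : Measurable (fun y : N → Fin m → L => y n) := measurable_pi_apply n
  exact (measurable_pi_apply v).comp h1

/-- the level sets of the encoder -/
theorem lm_enc {G N L : Type} [Group G] [Group N] [Finite L] [MeasurableSpace L]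
    [MeasurableSingletonClass L] {m : ℕ} (cd : Cd G L) (σ : G → Fin m → Fin m)
    (c : G → Fin m → N) (v : Fin m) :
    LM (fun y : Sh N (Fin m → L) => encW cd σ c y v) :=
  lm_of (fun (y : Sh N (Fin m → L)) (i : Fin cd.p) => y.ev (c (cd.w i) v) (σ (cd.w i) v))
    (fun _ => meas_ev _ _) cd.φ

open Classical in
/-- the level sets of the corrections -/
theorem lm_cor {G N L : Type} [Group G] [Group N] [Finite L] [MeasurableSpace L]
    [MeasurableSingletonClass L] {m : ℕ} (cd : Cd G L) (σ : G → Fin m → Fin m)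
    (c : G → Fin m → N) (v : Fin m) :
    LM (fun y : Sh N (Fin m → L) => (BW cd σ c y v).2) := by
  refine lm_of (ι := (Fin cd.q × Fin cd.p) ⊕ Unit)
    (fun (y : Sh N (Fin m → L)) (s : (Fin cd.q × Fin cd.p) ⊕ Unit) =>
      match s with
      | Sum.inl ji => y.ev (c (cd.w ji.2) (σ (cd.f ji.1) v) * c (cd.f ji.1) v)
          (σ (cd.w ji.2) (σ (cd.f ji.1) v))
      | Sum.inr _ => y.ev 1 v) ?_
    (fun t => if cd.D (fun j => cd.φ fun i => t (Sum.inl (j, i))) = t (Sum.inr ()) then none
      else some (t (Sum.inr ())))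
  rintro (ji | u)
  · exact meas_ev _ _
  · exact meas_ev _ _

end IWH

/-- **WH**: the entropy of `BW` -/
theorem pr_WH (h1 : S_E3) (h2 : S_E1) (h3 : S_WL) (h4 : S_E4) (h5 : S_WG) (h6 : S_E7)
    (h7 : S_PIH) : S_WH := by
  classical
  intro G N L _ _ _ _ _ ν _ m cd σ c E h δ κ ε hs hf hcd hm hh hκ hε hent hgood hfull
  set μ : Measure (Sh N (Fin m → L)) := bm N (Measure.pi fun _ : Fin m => ν) with hμ
  have hlmE : ∀ v, LM (fun y : Sh N (Fin m → L) => encW cd σ c y v) := IWH.lm_enc cd σ c
  have hlmC : ∀ v, LM (fun y : Sh N (Fin m → L) => (BW cd σ c y v).2) := IWH.lm_cor cd σ c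
  have hlmB : ∀ v, LM (fun y : Sh N (Fin m → L) => BW cd σ c y v) := by
    intro v k
    have heq : (fun y : Sh N (Fin m → L) => BW cd σ c y v) ⁻¹' {k} =
        ((fun y : Sh N (Fin m → L) => encW cd σ c y v) ⁻¹' {k.1}) ∩
          ((fun y : Sh N (Fin m → L) => (BW cd σ c y v).2) ⁻¹' {k.2}) := by
      ext y
      simp only [Set.mem_preimage, Set.mem_singleton_iff, Set.mem_inter_iff]
      rw [Prod.ext_iff]
      rfl
    rw [heq]
    exact (hlmE v k.1).inter (hlmC v k.2)
  obtain ⟨hLMB, hsum⟩ := h1 (Sh N (Fin m → L)) μ m (fun _ => Fin cd.k × Option L)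
    (fun v y => BW cd σ c y v) hlmB
  -- the terms
  set A : ℝ := Real.log cd.k + Real.log (Fintype.card L + 1) with hA
  have hterm : ∀ v, HF μ (fun y : Sh N (Fin m → L) => BW cd σ c y v) ≤
      HF μ (fun y : Sh N (Fin m → L) => encW cd σ c y v) +
        HF μ (fun y : Sh N (Fin m → L) => (BW cd σ c y v).2) := fun v =>
    h2 _ _ _ μ (fun y : Sh N (Fin m → L) => encW cd σ c y v)
      (fun y : Sh N (Fin m → L) => (BW cd σ c y v).2) (hlmE v) (hlmC v)
  have hgd : ∀ v, Gd σ c E v → HF μ (fun y : Sh N (Fin m → L) => BW cd σ c y v) ≤ h + κ := by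
    intro v hv
    obtain ⟨ha, hb⟩ := h3 G N L ν m cd σ c E v h δ hs hf hv hcd
    have hk := hent (Sh N (Fin m → L)) μ (fun y : Sh N (Fin m → L) => (BW cd σ c y v).2) none
      (hlmC v) hb
    exact (hterm v).trans (add_le_add ha hk)
  have hbd : ∀ v, HF μ (fun y : Sh N (Fin m → L) => BW cd σ c y v) ≤ A := by
    intro v
    have ha := (h4 _ _ μ (fun y : Sh N (Fin m → L) => encW cd σ c y v) (hlmE v)).2
    have hb := (h4 _ _ μ (fun y : Sh N (Fin m → L) => (BW cd σ c y v).2) (hlmC v)).2
    rw [Fintype.card_fin] at ha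
    rw [Fintype.card_option] at hb
    push_cast at hb
    exact (hterm v).trans (add_le_add ha hb)
  have hA0 : 0 ≤ A := by
    have v : Fin m := ⟨0, hm⟩
    have ha := h4 _ _ μ (fun y : Sh N (Fin m → L) => encW cd σ c y v) (hlmE v)
    have hb := h4 _ _ μ (fun y : Sh N (Fin m → L) => (BW cd σ c y v).2) (hlmC v)
    rw [Fintype.card_fin] at ha
    rw [Fintype.card_option] at hb
    push_cast at hb
    have ha' := ha.1.trans ha.2
    have hb' := hb.1.trans hb.2
    rw [hA]
    linarith
  -- the sum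
  have hS : ∑ v : Fin m, HF μ (fun y : Sh N (Fin m → L) => BW cd σ c y v) ≤
      m * (h + κ) + ε * m * A := by
    rw [← Finset.sum_filter_add_sum_filter_not Finset.univ (fun v => Gd σ c E v)]
    have hg : ∑ v ∈ Finset.univ.filter (fun v => Gd σ c E v),
        HF μ (fun y : Sh N (Fin m → L) => BW cd σ c y v) ≤
        ((Finset.univ.filter (fun v => Gd σ c E v)).card : ℝ) * (h + κ) := by
      calc ∑ v ∈ Finset.univ.filter (fun v => Gd σ c E v),
            HF μ (fun y : Sh N (Fin m → L) => BW cd σ c y v)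
          ≤ ∑ _v ∈ Finset.univ.filter (fun v => Gd σ c E v), (h + κ) :=
            Finset.sum_le_sum fun v hv => hgd v (Finset.mem_filter.mp hv).2
        _ = _ := by rw [Finset.sum_const, nsmul_eq_mul]
    have hb : ∑ v ∈ Finset.univ.filter (fun v => ¬ Gd σ c E v),
        HF μ (fun y : Sh N (Fin m → L) => BW cd σ c y v) ≤
        ((Finset.univ.filter (fun v => ¬ Gd σ c E v)).card : ℝ) * A := by
      calc ∑ v ∈ Finset.univ.filter (fun v => ¬ Gd σ c E v),
            HF μ (fun y : Sh N (Fin m → L) => BW cd σ c y v)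
          ≤ ∑ _v ∈ Finset.univ.filter (fun v => ¬ Gd σ c E v), A :=
            Finset.sum_le_sum fun v _ => hbd v
        _ = _ := by rw [Finset.sum_const, nsmul_eq_mul]
    have hcard : ((Finset.univ.filter (fun v => Gd σ c E v)).card : ℝ) +
        ((Finset.univ.filter (fun v => ¬ Gd σ c E v)).card : ℝ) = m := by
      have := Finset.card_filter_add_card_filter_not (s := (Finset.univ : Finset (Fin m)))
        (fun v => Gd σ c E v)
      rw [Finset.card_univ, Fintype.card_fin] at this
      exact_mod_cast this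
    have hle : ((Finset.univ.filter (fun v => Gd σ c E v)).card : ℝ) ≤ m := by
      have h0 : (0 : ℝ) ≤ ((Finset.univ.filter (fun v => ¬ Gd σ c E v)).card : ℝ) :=
        Nat.cast_nonneg _
      linarith
    have hbc : ((Finset.univ.filter (fun v => ¬ Gd σ c E v)).card : ℝ) ≤ ε * m := by
      have hg' : (1 - ε) * (m : ℝ) ≤ ((Finset.univ.filter (fun v => Gd σ c E v)).card : ℝ) :=
        hgood
      linarith
    have e1 := mul_le_mul_of_nonneg_right hle (add_nonneg hh hκ)
    have e2 := mul_le_mul_of_nonneg_right hbc hA0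
    linarith
  -- full entropy over `N`
  obtain ⟨e, he⟩ := exists_injective_nat (Fin m → Fin cd.k × Option L)
  obtain ⟨m1, m2, m3⟩ := h6 (Sh N (Fin m → L)) (Fin m → Fin cd.k × Option L) μ
    (fun y => BW cd σ c y) e he hLMB
  have hgen := h5 G N L m cd σ c μ e he
  have hF := hfull (Fin m → L) (Measure.pi fun _ : Fin m => ν) (fun y => e (BW cd σ c y)) m1 hgen
    m2
  rw [m3, h7 L ν m] at hF
  have hfin : (m : ℝ) * HF ν (fun l : L => l) ≤ m * (h + κ) + ε * m * A :=
    hF.trans (hsum.trans hS)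
  have hmpos : (0 : ℝ) < m := by exact_mod_cast hm
  have hdiv : (m : ℝ) * HF ν (fun l : L => l) ≤ m * (h + κ + ε * A) := by
    calc (m : ℝ) * HF ν (fun l : L => l) ≤ m * (h + κ) + ε * m * A := hfin
      _ = m * (h + κ + ε * A) := by ring
  exact le_of_mul_le_mul_left hdiv hmpos

end Pool.Agent.Work.MP_574bbd_an.RK
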