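import Mathlib
import Pool.Agent.Work.MP_574bbd_an.RK.Stmts2
import Pool.Agent.Work.MP_574bbd_an.RK.I_WH

/-!
# Block RK, item WHr: as WH, with a lower bound for the shift over the approximating group
-/

set_option autoImplicit false

namespace Pool.Agent.Work.MP_574bbd_an.RK

open MeasureTheory

/-- **WHr**: the entropy of `BW` -/
theorem pr_WHr (h1 : S_E3) (h2 : S_E1) (h3 : S_WL) (h4 : S_E4) (h5 : S_WG) (h6 : S_E7) :
    S_WHr := by
  classical
  intro G N L _ _ _ _ _ ν _ m cd σ c E h δ κ ε ρ hs hf hcd hm hh hκ hε hent hgood hfull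
  set μ : Measure (Sh N (Fin m → L)) := bm N (Measure.pi fun _ : Fin m => ν) with hμ
  have hlmE : ∀ v, LM (fun y : Sh N (Fin m → L) => encW cd σ c y v) := IWH.lm_enc cd σ c
  have hlmC : ∀ v, LM (fun y : Sh N (Fin m → L) => (BW cd σ c y v).2) := IWH.lm_cor cd σ c
  have hlmB : ∀ v, LM (fun y : Sh N (Fin m → L) => BW cd σ c y v) := by
    intro v k
    have heq : (fun y : Sh N (Fin m → L) => BW cd σ c y v) ⁻¹' {k} =
        ((fun y : Sh N (Fin m → L) => encW cd σ c y v) ⁻¹' {k.1}) ∩
          ((fun y : Sh N (Fin m → L) => (BW cd σ c y v).2) ⁻¹' {k.2}) := by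
      ext y
      simp only [Set.mem_preimage, Set.mem_singleton_iff, Set.mem_inter_iff]
      rw [Prod.ext_iff]
      rfl
    rw [heq]
    exact (hlmE v k.1).inter (hlmC v k.2)
  obtain ⟨hLMB, hsum⟩ := h1 (Sh N (Fin m → L)) μ m (fun _ => Fin cd.k × Option L)
    (fun v y => BW cd σ c y v) hlmB
  -- the terms
  set A : ℝ := Real.log cd.k + Real.log (Fintype.card L + 1) with hA
  have hterm : ∀ v, HF μ (fun y : Sh N (Fin m → L) => BW cd σ c y v) ≤
      HF μ (fun y : Sh N (Fin m → L) => encW cd σ c y v) +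
        HF μ (fun y : Sh N (Fin m → L) => (BW cd σ c y v).2) := fun v =>
    h2 _ _ _ μ (fun y : Sh N (Fin m → L) => encW cd σ c y v)
      (fun y : Sh N (Fin m → L) => (BW cd σ c y v).2) (hlmE v) (hlmC v)
  have hgd : ∀ v, Gd σ c E v → HF μ (fun y : Sh N (Fin m → L) => BW cd σ c y v) ≤ h + κ := by
    intro v hv
    obtain ⟨ha, hb⟩ := h3 G N L ν m cd σ c E v h δ hs hf hv hcd
    have hk := hent (Sh N (Fin m → L)) μ (fun y : Sh N (Fin m → L) => (BW cd σ c y v).2) none
      (hlmC v) hb
    exact (hterm v).trans (add_le_add ha hk)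
  have hbd : ∀ v, HF μ (fun y : Sh N (Fin m → L) => BW cd σ c y v) ≤ A := by
    intro v
    have ha := (h4 _ _ μ (fun y : Sh N (Fin m → L) => encW cd σ c y v) (hlmE v)).2
    have hb := (h4 _ _ μ (fun y : Sh N (Fin m → L) => (BW cd σ c y v).2) (hlmC v)).2
    rw [Fintype.card_fin] at ha
    rw [Fintype.card_option] at hb
    push_cast at hb
    exact (hterm v).trans (add_le_add ha hb)
  have hA0 : 0 ≤ A := by
    have v : Fin m := ⟨0, hm⟩
    have ha := h4 _ _ μ (fun y : Sh N (Fin m → L) => encW cd σ c y v) (hlmE v)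
    have hb := h4 _ _ μ (fun y : Sh N (Fin m → L) => (BW cd σ c y v).2) (hlmC v)
    rw [Fintype.card_fin] at ha
    rw [Fintype.card_option] at hb
    push_cast at hb
    have ha' := ha.1.trans ha.2
    have hb' := hb.1.trans hb.2
    rw [hA]
    linarith
  -- the sum
  have hS : ∑ v : Fin m, HF μ (fun y : Sh N (Fin m → L) => BW cd σ c y v) ≤
      m * (h + κ) + ε * m * A := by
    rw [← Finset.sum_filter_add_sum_filter_not Finset.univ (fun v => Gd σ c E v)]
    have hg : ∑ v ∈ Finset.univ.filter (fun v => Gd σ c E v),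
        HF μ (fun y : Sh N (Fin m → L) => BW cd σ c y v) ≤
        ((Finset.univ.filter (fun v => Gd σ c E v)).card : ℝ) * (h + κ) := by
      calc ∑ v ∈ Finset.univ.filter (fun v => Gd σ c E v),
            HF μ (fun y : Sh N (Fin m → L) => BW cd σ c y v)
          ≤ ∑ _v ∈ Finset.univ.filter (fun v => Gd σ c E v), (h + κ) :=
            Finset.sum_le_sum fun v hv => hgd v (Finset.mem_filter.mp hv).2
        _ = _ := by rw [Finset.sum_const, nsmul_eq_mul]
    have hb : ∑ v ∈ Finset.univ.filter (fun v => ¬ Gd σ c E v),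
        HF μ (fun y : Sh N (Fin m → L) => BW cd σ c y v) ≤
        ((Finset.univ.filter (fun v => ¬ Gd σ c E v)).card : ℝ) * A := by
      calc ∑ v ∈ Finset.univ.filter (fun v => ¬ Gd σ c E v),
            HF μ (fun y : Sh N (Fin m → L) => BW cd σ c y v)
          ≤ ∑ _v ∈ Finset.univ.filter (fun v => ¬ Gd σ c E v), A :=
            Finset.sum_le_sum fun v _ => hbd v
        _ = _ := by rw [Finset.sum_const, nsmul_eq_mul]
    have hcard : ((Finset.univ.filter (fun v => Gd σ c E v)).card : ℝ) +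
        ((Finset.univ.filter (fun v => ¬ Gd σ c E v)).card : ℝ) = m := by
      have := Finset.card_filter_add_card_filter_not (s := (Finset.univ : Finset (Fin m)))
        (fun v => Gd σ c E v)
      rw [Finset.card_univ, Fintype.card_fin] at this
      exact_mod_cast this
    have hle : ((Finset.univ.filter (fun v => Gd σ c E v)).card : ℝ) ≤ m := by
      have h0 : (0 : ℝ) ≤ ((Finset.univ.filter (fun v => ¬ Gd σ c E v)).card : ℝ) :=
        Nat.cast_nonneg _
      linarith
    have hbc : ((Finset.univ.filter (fun v => ¬ Gd σ c E v)).card : ℝ) ≤ ε * m := by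
      have hg' : (1 - ε) * (m : ℝ) ≤ ((Finset.univ.filter (fun v => Gd σ c E v)).card : ℝ) :=
        hgood
      linarith
    have e1 := mul_le_mul_of_nonneg_right hle (add_nonneg hh hκ)
    have e2 := mul_le_mul_of_nonneg_right hbc hA0
    linarith
  -- full entropy over `N`
  obtain ⟨e, he⟩ := exists_injective_nat (Fin m → Fin cd.k × Option L)
  obtain ⟨m1, m2, m3⟩ := h6 (Sh N (Fin m → L)) (Fin m → Fin cd.k × Option L) μ
    (fun y => BW cd σ c y) e he hLMB
  have hgen := h5 G N L m cd σ c μ e he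
  have hF := hfull (fun y => e (BW cd σ c y)) m1 hgen m2
  rw [m3] at hF
  have hfin : (m : ℝ) * ρ ≤ m * (h + κ) + ε * m * A := hF.trans (hsum.trans hS)
  have hmpos : (0 : ℝ) < m := by exact_mod_cast hm
  have hdiv : (m : ℝ) * ρ ≤ m * (h + κ + ε * A) := by
    calc (m : ℝ) * ρ ≤ m * (h + κ) + ε * m * A := hfin
      _ = m * (h + κ + ε * A) := by ring
  exact le_of_mul_le_mul_left hdiv hmpos

end Pool.Agent.Work.MP_574bbd_an.RK
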