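import Mathlib
import Pool.Agent.Work.MP_574bbd_an.RK.Stmts2
import Pool.Agent.Work.MP_574bbd_an.RK.I_W

/-!
# MP_574bbd_an, block RK, item Wr: theorem W'
-/

set_option autoImplicit false

namespace Pool.Agent.Work.MP_574bbd_an.RK

open MeasureTheory

open IW in
theorem pr_Wr (h1 : S_GC) (h2 : S_WHr) (h3 : S_E6) : S_Wr := by
  classical
  intro G L _ _ _ _ ν _ ρ hW α hα hgen hsum
  obtain ⟨h₀, hh₀⟩ : ∃ h₀, h₀ = ∑' n : ℕ, Real.negMulLog ((bm G ν (α ⁻¹' {n})).toReal) :=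
    ⟨_, rfl⟩
  have hpos : 0 ≤ h₀ := by
    rw [hh₀]
    exact tsum_nonneg fun n => nml_nonneg _ _
  rw [← hh₀]
  refine le_of_forall_pos_le_add fun κ' hκ' => ?_
  obtain ⟨κ, hκ, hκκ⟩ : ∃ κ : ℝ, 0 < κ ∧ κ + κ = κ' := ⟨κ' / 2, by linarith, by ring⟩
  obtain ⟨δ₁, hδ₁, hE6⟩ := h3 (Option L) κ hκ
  have hδ : 0 < min κ δ₁ := lt_min hκ hδ₁
  obtain ⟨c, hc⟩ := h1 G L ν α h₀ hα hgen hsum hh₀.ge (min κ δ₁) hδ
  obtain ⟨B, hB⟩ : ∃ B, B = Real.log c.k + Real.log (Fintype.card L + 1) := ⟨_, rfl⟩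
  have hB0 : 0 ≤ B := by
    rw [hB]
    refine add_nonneg (Real.log_natCast_nonneg _) (Real.log_nonneg ?_)
    have : (0 : ℝ) ≤ Fintype.card L := Nat.cast_nonneg _
    linarith
  have key : ρ ≤ h₀ + min κ δ₁ + κ := by
    refine le_of_forall_pos_le_add fun ε hε => ?_
    obtain ⟨η, hη, hηB⟩ : ∃ η : ℝ, 0 < η ∧ η * B ≤ ε := by
      refine ⟨ε / (B + 1), by positivity, ?_⟩
      rw [div_mul_eq_mul_div, div_le_iff₀ (by linarith)]
      have : ε * B ≤ ε * (B + 1) := mul_le_mul_of_nonneg_left (by linarith) hε.le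
      exact this
    obtain ⟨N, hN1, m, σ, cc, hm, hgood, hfull⟩ := hW
      (Finset.univ.image (sites c) ∪ Finset.univ.image c.f) η hη
    have h4 := h2 G N L ν m c σ cc (Finset.univ.image (sites c) ∪ Finset.univ.image c.f)
      (h₀ + min κ δ₁) (min κ δ₁) κ η ρ
      (fun s => Finset.mem_union_left _ (Finset.mem_image_of_mem _ (Finset.mem_univ s)))
      (fun j => Finset.mem_union_right _ (Finset.mem_image_of_mem _ (Finset.mem_univ j)))
      hc hm (by linarith) hκ.le hη.le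
      (fun X _ μ _ f k₀ hf hle => hE6 X μ f k₀ hf (hle.trans (min_le_right _ _))) hgood hfull
    rw [← hB] at h4
    linarith
  have : min κ δ₁ ≤ κ := min_le_left _ _
  linarith

end Pool.Agent.Work.MP_574bbd_an.RK
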