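import Pool.Agent.Work.MP_574bbd_an.RK.All
import Pool.Agent.Work.MP_574bbd_an.RK.I_WHr
import Pool.Agent.Work.MP_574bbd_an.RK.I_Wr
import Pool.Agent.Work.MP_574bbd_an.RK.I_BER
import Pool.Agent.Work.MP_574bbd_an.RK.I_PATL
import Pool.Agent.Work.MP_574bbd_an.RK.I_MINL
import Pool.Agent.Work.MP_574bbd_an.RK.I_NCD
import Pool.Agent.Work.MP_574bbd_an.RK.I_REC
import Pool.Agent.Work.MP_574bbd_an.RK.I_EXI
import Pool.Agent.Work.MP_574bbd_an.RK.I_LOCU

/-!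
# MP_574bbd_an, block RK: theorems U' and W'
-/

set_option autoImplicit false

namespace Pool.Agent.Work.MP_574bbd_an.RK

open MeasureTheory

theorem all_REC : S_REC := pr_REC pr_E1 pr_E7
theorem all_MINL : S_MINL := pr_MINL all_GC pr_PATL all_TRF all_REC all_E6
theorem all_BER : S_BER := pr_BER all_GC all_ZER
theorem all_NCD : S_NCD := pr_NCD all_REC all_E6 all_GC pr_FPG all_TRF
theorem all_LOCU : S_LOCU := pr_LOCU pr_FPG
theorem all_WHr : S_WHr := pr_WHr all_E3 pr_E1 all_WL pr_E4 pr_WG pr_E7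

/-- THEOREM W' -/
theorem all_Wr : S_Wr := pr_Wr all_GC all_WHr all_E6

/-- THEOREM U' -/
theorem all_U2 : S_U2 := by
  intro U _ _ hU
  haveI := pr_INF U hU
  tfae_have 1 → 2 := fun h => h U
  tfae_have 2 → 3 := by
    rintro ⟨X, i1, i2, μ, i3, i4, h1, h2, -, h3⟩
    exact ⟨X, i1, i2, μ, i3, i4, h1, h2, h3⟩
  tfae_have 3 → 4 := by
    intro h
    obtain ⟨ε, hε, hLB⟩ := all_BER U h
    exact ⟨ε, hε, fun G _ => all_MINL G U Bool coin ε (all_LOCU U hU G) hLB⟩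
  tfae_have 4 → 1 := by
    rintro ⟨ε, hε, h⟩ G _ _ _
    exact all_PB G ε hε (h G)
  tfae_have 4 ↔ 5 := all_NCD
  tfae_finish

end Pool.Agent.Work.MP_574bbd_an.RK
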