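import Mathlib
import Pool.Agent.Work.MP_574bbd_an.RK.Stmts

/-!
# MP_574bbd_an, block RK, item A2: maps on a product are approximated by finite windows
-/

set_option autoImplicit false

namespace Pool.Agent.Work.MP_574bbd_an.RK

open MeasureTheory

namespace IA2

/-- the product sigma-algebra is generated by the coded coordinates -/
theorem pi_le {S L : Type} [mL : MeasurableSpace L] (e : L → ℕ) (he : Function.Injective e) :
    (MeasurableSpace.pi : MeasurableSpace (S → L)) ≤
      ⨆ s : S, MeasurableSpace.comap (fun x : S → L => e (x s)) ⊤ := by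
  refine iSup_le fun s => ?_
  refine le_trans ?_ (le_iSup (fun s : S => MeasurableSpace.comap (fun x : S → L => e (x s)) ⊤) s)
  rintro A ⟨B, -, rfl⟩
  refine ⟨e '' B, trivial, ?_⟩
  ext x
  constructor
  · rintro ⟨y, hy, hxy⟩
    have h1 : y = x s := he hxy
    rw [h1] at hy
    exact hy
  · intro hx
    exact ⟨x s, hx, rfl⟩

theorem exists_code (L : Type) [Fintype L] : ∃ e : L → ℕ, Function.Injective e := by
  classical
  exact ⟨fun l => (Fintype.equivFin L l : ℕ),
    Fin.val_injective.comp (Fintype.equivFin L).injective⟩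

end IA2

theorem pr_A2 (h : S_A1) : S_A2 := by
  intro S L K _ _ _ _ _ μ _ f hf ε hε
  classical
  obtain ⟨e, he⟩ := IA2.exists_code L
  have hn : 0 < (Fintype.card K : ℝ) := Nat.cast_pos.2 Fintype.card_pos
  have hεn : 0 < ε / Fintype.card K := div_pos hε hn
  have hβ : ∀ s : S, Measurable fun x : S → L => e (x s) := fun s =>
    (Measurable.of_discrete (f := e)).comp (measurable_pi_apply s)
  have h1 : ∀ k : K, ∃ (q N : ℕ) (g : Fin q → S) (D : (Fin q → Fin (N + 1)) → Bool),
      μ.real (symmDiff (f ⁻¹' {k}) {x | D (fun j => tr N (e (x (g j)))) = true}) ≤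
        ε / Fintype.card K := by
    intro k
    exact h (S → L) S μ (fun s x => e (x s)) hβ (f ⁻¹' {k}) (IA2.pi_le e he _ (hf k)) _ hεn
  choose q N g D hD using h1
  obtain ⟨p, ⟨E⟩⟩ : ∃ p, Nonempty ((Σ k : K, Fin (q k)) ≃ Fin p) :=
    ⟨_, ⟨Fintype.equivFin _⟩⟩
  obtain ⟨P, hP⟩ : ∃ P : (Fin p → L) → K → Bool,
      P = fun u k => D k (fun j => tr (N k) (e (u (E ⟨k, j⟩)))) := ⟨_, rfl⟩
  refine ⟨p, fun i => g (E.symm i).1 (E.symm i).2, fun u =>
    if hk : ∃ k, P u k = true ∧ ∀ k', P u k' = true → k' = k then hk.choose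
    else Classical.arbitrary K, ?_⟩
  have hsub : {x : S → L | f x ≠ (fun u : Fin p → L =>
      if hk : ∃ k, P u k = true ∧ ∀ k', P u k' = true → k' = k then hk.choose
      else Classical.arbitrary K) (fun i => x (g (E.symm i).1 (E.symm i).2))} ⊆
      ⋃ k ∈ (Finset.univ : Finset K), symmDiff (f ⁻¹' {k})
        {x | D k (fun j => tr (N k) (e (x (g k j)))) = true} := by
    intro x hx
    by_contra hcon
    apply hx
    have h2 : ∀ k, (D k (fun j => tr (N k) (e (x (g k j)))) = true ↔ f x = k) := by
      intro k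
      have h3 : x ∉ symmDiff (f ⁻¹' {k})
          {x | D k (fun j => tr (N k) (e (x (g k j)))) = true} := by
        intro h4
        exact hcon (Set.mem_biUnion (Finset.mem_coe.2 (Finset.mem_univ k)) h4)
      rw [Set.mem_symmDiff] at h3
      constructor
      · intro h5
        by_contra h6
        exact h3 (Or.inr ⟨h5, h6⟩)
      · intro h5
        by_contra h6
        exact h3 (Or.inl ⟨h5, h6⟩)
    have h4 : ∀ k, P (fun i => x (g (E.symm i).1 (E.symm i).2)) k =
        D k (fun j => tr (N k) (e (x (g k j)))) := by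
      intro k
      rw [hP]
      show D k (fun j => tr (N k) (e (x (g (E.symm (E ⟨k, j⟩)).1 (E.symm (E ⟨k, j⟩)).2)))) = _
      congr 1
      funext j
      rw [E.symm_apply_apply]
    have h5 : ∀ k, P (fun i => x (g (E.symm i).1 (E.symm i).2)) k = true ↔ f x = k := by
      intro k
      rw [h4 k]
      exact h2 k
    have hex : ∃ k, P (fun i => x (g (E.symm i).1 (E.symm i).2)) k = true ∧
        ∀ k', P (fun i => x (g (E.symm i).1 (E.symm i).2)) k' = true → k' = k :=
      ⟨f x, (h5 _).2 rfl, fun k' hk' => ((h5 k').1 hk').symm⟩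
    show f x = if hk : ∃ k, P (fun i => x (g (E.symm i).1 (E.symm i).2)) k = true ∧
        ∀ k', P (fun i => x (g (E.symm i).1 (E.symm i).2)) k' = true → k' = k then hk.choose
        else Classical.arbitrary K
    rw [dif_pos hex]
    exact (h5 _).1 hex.choose_spec.1
  refine (measureReal_mono hsub (measure_ne_top μ _)).trans ?_
  refine (measureReal_biUnion_finset_le _ _).trans ?_
  refine (Finset.sum_le_sum fun k _ => hD k).trans (le_of_eq ?_)
  rw [Finset.sum_const, Finset.card_univ, nsmul_eq_mul]
  field_simp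

end Pool.Agent.Work.MP_574bbd_an.RK
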