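import Mathlib
import Pool.Agent.Work.MP_574bbd_an.RK.Stmts

/-!
# Block RK, item APP: a code on a nearly independent labelling
-/

set_option autoImplicit false

namespace Pool.Agent.Work.MP_574bbd_an.RK

open MeasureTheory

namespace IAPP

/-- cylinders are measurable -/
theorem meas_cyl {G : Type} [Group G] {X : Type} [MeasurableSpace X] [MulAction G X]
    (hm : ∀ g : G, Measurable fun x : X => g • x) (β : X → Bool) (hβ : LM β) {r : ℕ}
    (e : Fin r → G) (u : Fin r → Bool) : MeasurableSet {x : X | ∀ i, β (e i • x) = u i} := by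
  have h : {x : X | ∀ i, β (e i • x) = u i} =
      ⋂ i, (fun x : X => e i • x) ⁻¹' (β ⁻¹' {u i}) := by
    ext x
    simp
  rw [h]
  exact MeasurableSet.iInter fun i => hm (e i) (hβ (u i))

open Classical in
/-- the probability of an event which depends on finitely many labels -/
theorem real_event {G : Type} [Group G] {X : Type} [MeasurableSpace X] [MulAction G X]
    (hm : ∀ g : G, Measurable fun x : X => g • x) (β : X → Bool) (hβ : LM β) {r : ℕ}
    (e : Fin r → G) (μ : Measure X) [IsProbabilityMeasure μ] (Φ : (Fin r → Bool) → Prop) :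
    μ.real {x : X | Φ fun i => β (e i • x)} =
      ∑ u ∈ Finset.univ.filter (fun u => Φ u), μ.real {x : X | ∀ i, β (e i • x) = u i} := by
  have h1 : {x : X | Φ fun i => β (e i • x)} =
      ⋃ u ∈ Finset.univ.filter (fun u => Φ u), {x : X | ∀ i, β (e i • x) = u i} := by
    ext x
    simp only [Set.mem_ofPred_eq, Set.mem_iUnion, Finset.mem_filter, Finset.mem_univ, true_and,
      exists_prop]
    constructor
    · intro h
      exact ⟨_, h, fun i => rfl⟩
    · rintro ⟨u, hu, hx⟩
      have h2 : (fun i => β (e i • x)) = u := funext hx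
      rw [h2]
      exact hu
  rw [h1, measureReal_biUnion_finset]
  · intro u _ v _ huv
    rw [Function.onFun, Set.disjoint_left]
    intro x hx hx'
    exact huv (funext fun i => (hx i).symm.trans (hx' i))
  · intro u _
    exact meas_cyl hm β hβ e u

/-- the fair coin -/
theorem coin_singleton (b : Bool) : coin {b} = 2⁻¹ := by
  unfold coin
  rw [PMF.toMeasure_apply_singleton _ _ (measurableSet_singleton b),
    PMF.uniformOfFintype_apply]
  simp

/-- cylinders of the Bernoulli shift -/
theorem coin_cyl {G : Type} [Group G] {r : ℕ} (e : Fin r → G) (he : Function.Injective e)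
    (u : Fin r → Bool) :
    (bm G coin).real {x : Sh G Bool | ∀ i, (e i • x).ev 1 = u i} = (1 / 2) ^ r := by
  classical
  have h1 : {x : Sh G Bool | ∀ i, (e i • x).ev 1 = u i} =
      (Set.pi (↑(Finset.univ.image e)) fun g => {b : Bool | ∀ i, e i = g → b = u i} :
        Set (G → Bool)) := by
    ext x
    constructor
    · intro hx g hg i hi
      have h2 : x.ev (1 * e i) = u i := hx i
      rw [one_mul, hi] at h2
      exact h2
    · intro hx i
      have h2 : x.ev (e i) = u i := hx (e i) (by simp) i rfl
      show x.ev (1 * e i) = u i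
      rw [one_mul]
      exact h2
  have h3 : bm G coin {x : Sh G Bool | ∀ i, (e i • x).ev 1 = u i} = (2⁻¹ : ENNReal) ^ r := by
    rw [h1]
    show Measure.infinitePi (fun _ : G => coin) _ = _
    rw [Measure.infinitePi_pi _ (fun g _ => MeasurableSet.of_discrete),
      Finset.prod_image (fun i _ j _ h => he h)]
    have h4 : ∀ i, coin {b : Bool | ∀ j, e j = e i → b = u j} = 2⁻¹ := by
      intro i
      have h5 : {b : Bool | ∀ j, e j = e i → b = u j} = {u i} := by
        ext b
        constructor
        · intro hb
          exact hb i rfl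
        · intro hb j hj
          rw [he hj]
          exact hb
      rw [h5, coin_singleton]
    rw [Finset.prod_congr rfl (fun i _ => h4 i), Finset.prod_const, Finset.card_univ,
      Fintype.card_fin]
  unfold Measure.real
  rw [h3]
  simp

/-- the smul of the shift is measurable -/
theorem meas_smul {G : Type} [Group G] (g : G) :
    Measurable fun x : Sh G Bool => g • x := by
  have h : Measurable fun (x : G → Bool) (k : G) => x (k * g) :=
    measurable_pi_iff.2 fun k => measurable_pi_apply _
  exact h

/-- the label at the unit element -/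
theorem lm_ev {G : Type} [Group G] : LM fun x : Sh G Bool => x.ev 1 := by
  intro b
  have h : Measurable fun (x : G → Bool) => x 1 := measurable_pi_apply _
  exact h (measurableSet_singleton b)

open Classical in
/-- comparison of the two probabilities -/
theorem compare {G : Type} [Group G] {X : Type} [MeasurableSpace X] [MulAction G X]
    (hm : ∀ g : G, Measurable fun x : X => g • x) (β : X → Bool) (hβ : LM β) {r : ℕ}
    (e : Fin r → G) (he : Function.Injective e) (μ : Measure X) [IsProbabilityMeasure μ]
    (γ : ℝ) (hγ : 0 ≤ γ) (hN : Near μ e γ β) (Φ : (Fin r → Bool) → Prop) :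
    |μ.real {x : X | Φ fun i => β (e i • x)} -
      (bm G coin).real {x : Sh G Bool | Φ fun i => (e i • x).ev 1}| ≤ 2 ^ r * γ := by
  have h1 := real_event hm β hβ e μ Φ
  have h2 := real_event (fun g => meas_smul g) (fun x : Sh G Bool => x.ev 1) lm_ev e
    (bm G coin) Φ
  rw [h1, h2, ← Finset.sum_sub_distrib]
  calc |∑ u ∈ Finset.univ.filter (fun u => Φ u), (μ.real {x : X | ∀ i, β (e i • x) = u i} -
        (bm G coin).real {x : Sh G Bool | ∀ i, (e i • x).ev 1 = u i})|
      ≤ ∑ u ∈ Finset.univ.filter (fun u => Φ u), |μ.real {x : X | ∀ i, β (e i • x) = u i} -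
        (bm G coin).real {x : Sh G Bool | ∀ i, (e i • x).ev 1 = u i}| :=
        Finset.abs_sum_le_sum_abs _ _
    _ ≤ ∑ u ∈ Finset.univ.filter (fun u => Φ u), γ := by
        refine Finset.sum_le_sum fun u _ => ?_
        rw [coin_cyl e he u]
        exact hN u
    _ ≤ ∑ _u : Fin r → Bool, γ :=
        Finset.sum_le_sum_of_subset_of_nonneg (Finset.filter_subset _ _) fun _ _ _ => hγ
    _ = 2 ^ r * γ := by
        rw [Finset.sum_const, Finset.card_univ]
        simp

end IAPP

/-- APP: a code on a nearly independent labelling. -/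
theorem pr_APP (h : S_E5) : S_APP := by
  classical
  intro G _ c hh δ hcd κ hκ
  obtain ⟨δ5, hδ5, H5⟩ := h (Fin c.k) κ hκ
  set R : Finset G := Finset.univ.image (sites c) with hR
  let e : Fin R.card → G := fun i => (R.equivFin.symm i : G)
  have he : Function.Injective e := fun i j hij => R.equivFin.symm.injective (Subtype.ext hij)
  have hex : ∀ s, ∃ i, e i = sites c s := by
    intro s
    have hs : sites c s ∈ R := by
      rw [hR]
      exact Finset.mem_image_of_mem _ (Finset.mem_univ s)
    refine ⟨R.equivFin ⟨sites c s, hs⟩, ?_⟩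
    show ((R.equivFin.symm (R.equivFin ⟨sites c s, hs⟩) : R) : G) = sites c s
    rw [Equiv.symm_apply_apply]
  choose idx hidx using hex
  have h2r : (0 : ℝ) < 2 ^ R.card := by positivity
  have hmin : 0 < min κ δ5 := lt_min hκ hδ5
  have hγ0 : 0 < min κ δ5 / 2 ^ R.card := by positivity
  have hγ : 2 ^ R.card * (min κ δ5 / 2 ^ R.card) = min κ δ5 := by
    field_simp
  refine ⟨min κ δ5 / 2 ^ R.card, R.card, e, hγ0, he, ?_⟩
  intro X _ _ μ _ hm β hβ hN
  -- the encoder and the decoder in terms of the labels
  let EN : (Fin R.card → Bool) → Fin c.k := fun u => c.φ fun i => u (idx (Sum.inl i))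
  let DE : (Fin R.card → Bool) → Bool := fun u =>
    c.D fun j => c.φ fun i => u (idx (Sum.inr (Sum.inl (i, j))))
  have henc : ∀ (Y : Type) [MulAction G Y] (b : Y → Bool) (x : Y),
      enc c b x = EN fun i => b (e i • x) := by
    intro Y _ b x
    show c.φ (fun i => b (c.w i • x)) = c.φ fun i => b (e (idx (Sum.inl i)) • x)
    congr 1
    funext i
    rw [hidx]
    rfl
  have hdec : ∀ (Y : Type) [MulAction G Y] (b : Y → Bool) (x : Y),
      dec c b x = DE fun i => b (e i • x) := by
    intro Y _ b x
    show c.D (fun j => c.φ fun i => b (c.w i • c.f j • x)) =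
      c.D fun j => c.φ fun i => b (e (idx (Sum.inr (Sum.inl (i, j)))) • x)
    congr 1
    funext j
    congr 1
    funext i
    rw [hidx, smul_smul]
    rfl
  have hone : ∀ (Y : Type) [MulAction G Y] (b : Y → Bool) (x : Y),
      b x = (fun i => b (e i • x)) (idx (Sum.inr (Sum.inr ()))) := by
    intro Y _ b x
    show b x = b (e (idx (Sum.inr (Sum.inr ()))) • x)
    rw [hidx]
    show b x = b ((1 : G) • x)
    rw [one_smul]
  constructor
  · have h1 := H5 X (Sh G Bool) μ (bm G coin) (enc c β) (enc c fun x : Sh G Bool => x.ev 1) (by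
      intro k
      have h2 := IAPP.compare hm β hβ e he μ _ hγ0.le hN (fun u => EN u = k)
      rw [hγ] at h2
      have e1 : enc c β ⁻¹' {k} = {x : X | EN (fun i => β (e i • x)) = k} := by
        ext x
        show enc c β x = k ↔ EN (fun i => β (e i • x)) = k
        rw [henc X β x]
      have e2 : (enc c fun x : Sh G Bool => x.ev 1) ⁻¹' {k} =
          {x : Sh G Bool | EN (fun i => (e i • x).ev 1) = k} := by
        ext x
        show enc c (fun x : Sh G Bool => x.ev 1) x = k ↔ EN (fun i => (e i • x).ev 1) = k
        rw [henc (Sh G Bool) (fun x : Sh G Bool => x.ev 1) x]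
      rw [e1, e2]
      exact h2.trans (min_le_right _ _))
    exact h1.trans (add_le_add hcd.1 le_rfl)
  · have h2 := IAPP.compare hm β hβ e he μ _ hγ0.le hN
      (fun u => DE u ≠ u (idx (Sum.inr (Sum.inr ()))))
    rw [hγ] at h2
    have e1 : {x : X | dec c β x ≠ β x} =
        {x : X | DE (fun i => β (e i • x)) ≠
          (fun i => β (e i • x)) (idx (Sum.inr (Sum.inr ())))} := by
      ext x
      show dec c β x ≠ β x ↔ DE (fun i => β (e i • x)) ≠
        (fun i => β (e i • x)) (idx (Sum.inr (Sum.inr ())))
      rw [hdec X β x, ← hone X β x]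
    have e2 : {x : Sh G Bool | dec c (fun x : Sh G Bool => x.ev 1) x ≠ x.ev 1} =
        {x : Sh G Bool | DE (fun i => (e i • x).ev 1) ≠
          (fun i => (e i • x).ev 1) (idx (Sum.inr (Sum.inr ())))} := by
      ext x
      show dec c (fun x : Sh G Bool => x.ev 1) x ≠ x.ev 1 ↔ DE (fun i => (e i • x).ev 1) ≠
        (fun i => (e i • x).ev 1) (idx (Sum.inr (Sum.inr ())))
      rw [hdec (Sh G Bool) (fun x : Sh G Bool => x.ev 1) x,
        ← hone (Sh G Bool) (fun x : Sh G Bool => x.ev 1) x]
    have h3 := hcd.2
    rw [e2] at h3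
    rw [e1]
    have h4 := (abs_le.1 h2).2
    have h5 := min_le_left κ δ5
    linarith

end Pool.Agent.Work.MP_574bbd_an.RK
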