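import Mathlib
import Pool.Agent.Work.MP_574bbd_an.RK.Stmts

/-!
# MP_574bbd_an, block RK, item CNT: counting
-/

set_option autoImplicit false

namespace Pool.Agent.Work.MP_574bbd_an.RK

open MeasureTheory

namespace ICNT

open Classical in
/-- the allowed values at `x` -/
noncomputable def S {M r : ℕ} (p : Fin r → Fin M) (t : Fin r → Bool) (x : Fin M) : Finset Bool :=
  if h : ∃ i, p i = x then {t h.choose} else Finset.univ

theorem mem_S {M r : ℕ} (p : Fin r → Fin M) (t : Fin r → Bool) (hp : Function.Injective p)
    (b : Fin M → Bool) : (∀ i, b (p i) = t i) ↔ ∀ x, b x ∈ S p t x := by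
  constructor
  · intro h x
    unfold S
    by_cases hx : ∃ i, p i = x
    · rw [dif_pos hx, Finset.mem_singleton]
      have h1 := h hx.choose
      rw [hx.choose_spec] at h1
      exact h1
    · rw [dif_neg hx]
      exact Finset.mem_univ _
  · intro h i
    have h1 := h (p i)
    unfold S at h1
    have hx : ∃ j, p j = p i := ⟨i, rfl⟩
    rw [dif_pos hx, Finset.mem_singleton] at h1
    rw [h1, hp hx.choose_spec]

theorem card_S {M r : ℕ} (p : Fin r → Fin M) (t : Fin r → Bool) (x : Fin M)
    [Decidable (∃ i, p i = x)] : (S p t x).card = if ∃ i, p i = x then 1 else 2 := by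
  unfold S
  by_cases hx : ∃ i, p i = x
  · rw [dif_pos hx, if_pos hx, Finset.card_singleton]
  · rw [dif_neg hx, if_neg hx, Finset.card_univ, Fintype.card_bool]

end ICNT

/-- CNT. -/
theorem pr_CNT : S_CNT := by
  classical
  intro M r p t hp
  have h1 : (Finset.univ.filter fun b : Fin M → Bool => ∀ i, b (p i) = t i) =
      Fintype.piFinset (ICNT.S p t) := by
    ext b
    rw [Finset.mem_filter, Fintype.mem_piFinset, ← ICNT.mem_S p t hp b]
    exact ⟨fun h => h.2, fun h => ⟨Finset.mem_univ _, h⟩⟩
  have h2 : (Fintype.piFinset (ICNT.S p t)).card = 2 ^ (M - r) := by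
    rw [Fintype.card_piFinset]
    rw [Finset.prod_congr rfl fun x _ => ICNT.card_S p t x]
    rw [Finset.prod_ite, Finset.prod_const_one, one_mul, Finset.prod_const]
    congr 1
    have h3 : (Finset.univ.filter fun x : Fin M => ∃ i, p i = x).card = r := by
      have h4 : (Finset.univ.filter fun x : Fin M => ∃ i, p i = x) = Finset.univ.image p := by
        ext x
        simp
      rw [h4, Finset.card_image_of_injective _ hp, Finset.card_univ, Fintype.card_fin]
    have h5 := Finset.card_filter_add_card_filter_not (s := (Finset.univ : Finset (Fin M)))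
      (fun x => ∃ i, p i = x)
    rw [h3, Finset.card_univ, Fintype.card_fin] at h5
    omega
  have h6 : r ≤ M := by
    have := Fintype.card_le_of_injective p hp
    rwa [Fintype.card_fin, Fintype.card_fin] at this
  have h7 : (Finset.univ.filter fun b : Fin M → Bool => ∀ i, b (p i) = t i).card = 2 ^ (M - r) := by
    rw [h1, h2]
  refine Eq.trans (congrArg (fun n => n * 2 ^ r) ?_) (by
    rw [← pow_add, Nat.sub_add_cancel h6] : 2 ^ (M - r) * 2 ^ r = 2 ^ M)
  exact h7

end Pool.Agent.Work.MP_574bbd_an.RK
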