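import Mathlib
import Pool.Agent.Work.MP_574bbd_an.RK.Stmts

/-!
# MP_574bbd_an, block RK, item COD: codes go to a group which contains all finitely presented
groups (helper2)
-/

set_option autoImplicit false

namespace Pool.Agent.Work.MP_574bbd_an.RK

open MeasureTheory

namespace ICOD

theorem sites_map {G H U L : Type} [Group G] [Group H] [Group U] (c : Cd G L)
    (w' : Fin c.p → H) (f' : Fin c.q → H) (φ : H →* U)
    (s : Fin c.p ⊕ (Fin c.p × Fin c.q) ⊕ Unit) :
    sites (c.win (fun i => φ (w' i)) (fun j => φ (f' j))) s = φ (sites (c.win w' f') s) := by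
  rcases s with i | ⟨i, j⟩ | u
  · rfl
  · show φ (w' i) * φ (f' j) = φ (w' i * f' j)
    rw [map_mul]
  · show (1 : U) = φ 1
    rw [map_one]

end ICOD

theorem pr_COD (h1 : S_TRF) (h2 : S_FPG) : S_COD := by
  intro U _ hU G L _ _ _ _ ν _ h δ c hc
  obtain ⟨n, rels, w', f', hfin, hP⟩ := h2 G L c
  obtain ⟨φ, hφ⟩ := hU n rels hfin
  refine ⟨c.win (fun i => φ (w' i)) (fun j => φ (f' j)), h1 G U L ν h δ c _ _ ?_ hc⟩
  intro i j
  rw [ICOD.sites_map c w' f' φ i, ICOD.sites_map c w' f' φ j]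
  exact (hP i j).trans hφ.eq_iff.symm

end Pool.Agent.Work.MP_574bbd_an.RK
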