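import Mathlib
import Pool.Agent.Work.MP_574bbd_an.RK.Stmts

/-!
# MP_574bbd_an, block RK, item E1: subadditivity of the entropy of maps with finitely many values
-/

set_option autoImplicit false

namespace Pool.Agent.Work.MP_574bbd_an.RK

open MeasureTheory

namespace IE1

/-- the level sets of `g` decompose every measurable set -/
theorem sum_level {X K : Type} [MeasurableSpace X] [Fintype K] (μ : Measure X)
    [IsProbabilityMeasure μ] (g : X → K) (hg : LM g) (A : Set X) (hA : MeasurableSet A) :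
    ∑ l, μ.real (A ∩ g ⁻¹' {l}) = μ.real A := by
  rw [← measureReal_iUnion_fintype]
  · congr 1
    ext x
    simp only [Set.mem_iUnion, Set.mem_inter_iff, Set.mem_preimage, Set.mem_singleton_iff]
    exact ⟨fun ⟨_, h, _⟩ => h, fun h => ⟨g x, h, rfl⟩⟩
  · intro l l' hl
    refine Set.disjoint_left.2 fun x hx hx' => hl ?_
    exact (hx.2 : g x = l).symm.trans hx'.2
  · exact fun l => hA.inter (hg l)

/-- one term -/
theorem term (p P Q : ℝ) (hp : 0 ≤ p) (hpP : p ≤ P) (hpQ : p ≤ Q) :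
    Real.negMulLog p ≤ P * Q - p - p * Real.log P - p * Real.log Q := by
  rcases hp.eq_or_lt with h0 | h0
  · rw [← h0, Real.negMulLog_zero]
    have h1 : 0 ≤ P * Q := mul_nonneg (hp.trans hpP) (hp.trans hpQ)
    linarith
  · have hP : 0 < P := h0.trans_le hpP
    have hQ : 0 < Q := h0.trans_le hpQ
    have h1 := Real.log_le_sub_one_of_pos (div_pos (mul_pos hP hQ) h0)
    rw [Real.log_div (mul_pos hP hQ).ne' h0.ne', Real.log_mul hP.ne' hQ.ne'] at h1
    have h2 := mul_le_mul_of_nonneg_left h1 hp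
    have h3 : p * (P * Q / p - 1) = P * Q - p := by
      field_simp
    rw [h3] at h2
    unfold Real.negMulLog
    linarith

end IE1

open IE1 in
theorem pr_E1 : S_E1 := by
  intro X K K' _ _ _ μ _ f g hf hg
  have hP : ∀ k, ∑ l, μ.real (f ⁻¹' {k} ∩ g ⁻¹' {l}) = μ.real (f ⁻¹' {k}) :=
    fun k => sum_level μ g hg _ (hf k)
  have hQ : ∀ l, ∑ k, μ.real (f ⁻¹' {k} ∩ g ⁻¹' {l}) = μ.real (g ⁻¹' {l}) := by
    intro l
    rw [← sum_level μ f hf _ (hg l)]
    exact Finset.sum_congr rfl fun k _ => by rw [Set.inter_comm]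
  have hfT : ∑ k, μ.real (f ⁻¹' {k}) = 1 := by
    have h := sum_level μ f hf Set.univ MeasurableSet.univ
    simpa using h
  have hgT : ∑ l, μ.real (g ⁻¹' {l}) = 1 := by
    have h := sum_level μ g hg Set.univ MeasurableSet.univ
    simpa using h
  have hpre : ∀ k l, (fun x => (f x, g x)) ⁻¹' {(k, l)} = f ⁻¹' {k} ∩ g ⁻¹' {l} := by
    intro k l
    ext x
    simp only [Set.mem_inter_iff, Set.mem_preimage, Set.mem_singleton_iff, Prod.mk.injEq]
  unfold HF
  rw [Fintype.sum_prod_type]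
  have h1 : ∀ k l, Real.negMulLog (μ.real ((fun x => (f x, g x)) ⁻¹' {(k, l)})) ≤
      μ.real (f ⁻¹' {k}) * μ.real (g ⁻¹' {l}) - μ.real (f ⁻¹' {k} ∩ g ⁻¹' {l}) -
        μ.real (f ⁻¹' {k} ∩ g ⁻¹' {l}) * Real.log (μ.real (f ⁻¹' {k})) -
        μ.real (f ⁻¹' {k} ∩ g ⁻¹' {l}) * Real.log (μ.real (g ⁻¹' {l})) := by
    intro k l
    rw [hpre]
    exact term _ _ _ measureReal_nonneg (measureReal_mono Set.inter_subset_left)
      (measureReal_mono Set.inter_subset_right)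
  refine (Finset.sum_le_sum fun k _ => Finset.sum_le_sum fun l _ => h1 k l).trans ?_
  simp only [Finset.sum_sub_distrib]
  have h2 : ∑ k, ∑ l, μ.real (f ⁻¹' {k}) * μ.real (g ⁻¹' {l}) = 1 := by
    rw [← Finset.sum_mul_sum, hfT, hgT, one_mul]
  have h3 : ∑ k, ∑ l, μ.real (f ⁻¹' {k} ∩ g ⁻¹' {l}) = 1 := by
    rw [← hfT]
    exact Finset.sum_congr rfl fun k _ => hP k
  have h4 : ∑ k, ∑ l, μ.real (f ⁻¹' {k} ∩ g ⁻¹' {l}) * Real.log (μ.real (f ⁻¹' {k})) =
      - ∑ k, Real.negMulLog (μ.real (f ⁻¹' {k})) := by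
    rw [← Finset.sum_neg_distrib]
    refine Finset.sum_congr rfl fun k _ => ?_
    rw [← Finset.sum_mul, hP, Real.negMulLog]
    ring
  have h5 : ∑ k, ∑ l, μ.real (f ⁻¹' {k} ∩ g ⁻¹' {l}) * Real.log (μ.real (g ⁻¹' {l})) =
      - ∑ l, Real.negMulLog (μ.real (g ⁻¹' {l})) := by
    rw [Finset.sum_comm, ← Finset.sum_neg_distrib]
    refine Finset.sum_congr rfl fun l _ => ?_
    rw [← Finset.sum_mul, hQ, Real.negMulLog]
    ring
  rw [h2, h3, h4, h5]
  linarith

end Pool.Agent.Work.MP_574bbd_an.RK
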