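import Mathlib
import Pool.Agent.Work.MP_574bbd_an.RK.Stmts

/-!
# MP_574bbd_an, block RK, item E2: functions of a map with finitely many values
-/

set_option autoImplicit false

namespace Pool.Agent.Work.MP_574bbd_an.RK

open MeasureTheory

namespace IE2

/-- subadditivity of `negMulLog` -/
theorem nml_add (a b : ℝ) (ha : 0 ≤ a) (hb : 0 ≤ b) :
    Real.negMulLog (a + b) ≤ Real.negMulLog a + Real.negMulLog b := by
  rcases ha.eq_or_lt with h0 | h0
  · rw [← h0, Real.negMulLog_zero, zero_add, zero_add]
  rcases hb.eq_or_lt with h1 | h1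
  · rw [← h1, Real.negMulLog_zero, add_zero, add_zero]
  have h2 : Real.log a ≤ Real.log (a + b) := Real.log_le_log h0 (by linarith)
  have h3 : Real.log b ≤ Real.log (a + b) := Real.log_le_log h1 (by linarith)
  have h4 := mul_le_mul_of_nonneg_left h2 ha
  have h5 := mul_le_mul_of_nonneg_left h3 hb
  unfold Real.negMulLog
  linarith

/-- the same for finite sums -/
theorem nml_sum {K : Type} (s : Finset K) (p : K → ℝ) (hp : ∀ n, 0 ≤ p n) :
    Real.negMulLog (∑ n ∈ s, p n) ≤ ∑ n ∈ s, Real.negMulLog (p n) := by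
  classical
  induction s using Finset.induction with
  | empty => simp
  | insert a s ha ih =>
    rw [Finset.sum_insert ha, Finset.sum_insert ha]
    exact (nml_add _ _ (hp a) (Finset.sum_nonneg fun n _ => hp n)).trans
      (add_le_add le_rfl ih)

open Classical in
/-- the level sets of `F ∘ f` -/
theorem pre {X K K' : Type} [Fintype K] (f : X → K) (F : K → K') (k' : K') :
    (fun x => F (f x)) ⁻¹' {k'} = ⋃ k ∈ Finset.univ.filter (fun k => F k = k'), f ⁻¹' {k} := by
  ext x
  simp only [Set.mem_preimage, Set.mem_singleton_iff, Finset.mem_filter, Finset.mem_univ,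
    true_and, Set.mem_iUnion, exists_prop]
  exact ⟨fun h => ⟨f x, h, rfl⟩, fun ⟨k, h, h'⟩ => h' ▸ h⟩

open Classical in
/-- their measures -/
theorem meas {X K K' : Type} [MeasurableSpace X] [Fintype K] (μ : Measure X)
    [IsProbabilityMeasure μ] (f : X → K) (F : K → K') (hf : LM f) (k' : K') :
    μ.real ((fun x => F (f x)) ⁻¹' {k'}) =
      ∑ k ∈ Finset.univ.filter (fun k => F k = k'), μ.real (f ⁻¹' {k}) := by
  rw [pre, measureReal_biUnion_finset]
  · intro k _ l _ hkl
    refine Set.disjoint_left.2 fun x hx hx' => hkl ?_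
    exact (hx : f x = k).symm.trans hx'
  · exact fun k _ => hf k

end IE2

open IE2 in
theorem pr_E2 : S_E2 := by
  classical
  intro X K K' _ _ _ μ _ f F hf
  refine ⟨fun k' => ?_, ?_, fun hF => ?_⟩
  · rw [pre]
    exact Finset.measurableSet_biUnion _ fun k _ => hf k
  · unfold HF
    rw [← Finset.sum_fiberwise Finset.univ F]
    refine Finset.sum_le_sum fun k' _ => ?_
    rw [meas μ f F hf k']
    exact nml_sum _ _ fun k => measureReal_nonneg
  · unfold HF
    rw [← Finset.sum_fiberwise Finset.univ F (fun k => Real.negMulLog (μ.real (f ⁻¹' {k})))]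
    refine Finset.sum_congr rfl fun k' _ => ?_
    rw [meas μ f F hf k']
    have h1 : (Finset.univ.filter (fun k => F k = k')).card ≤ 1 := by
      rw [Finset.card_le_one]
      intro a ha b hb
      exact hF ((Finset.mem_filter.1 ha).2.trans (Finset.mem_filter.1 hb).2.symm)
    rcases Nat.le_one_iff_eq_zero_or_eq_one.1 h1 with h | h
    · rw [Finset.card_eq_zero.1 h]
      simp
    · obtain ⟨k, hk⟩ := Finset.card_eq_one.1 h
      rw [hk]
      simp

end Pool.Agent.Work.MP_574bbd_an.RK
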