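import Mathlib
import Pool.Agent.Work.MP_574bbd_an.RK.Stmts

/-!
# Block RK, item E3: the entropy of finite families
-/

set_option autoImplicit false

namespace Pool.Agent.Work.MP_574bbd_an.RK

open MeasureTheory

namespace IE3

theorem lm_pair {X K K' : Type} [MeasurableSpace X] (f : X → K) (g : X → K') (hf : LM f)
    (hg : LM g) : LM (fun x => (f x, g x)) := by
  intro k
  have h : (fun x => (f x, g x)) ⁻¹' {k} = (f ⁻¹' {k.1}) ∩ (g ⁻¹' {k.2}) := by
    ext x
    simp [Prod.ext_iff]
  rw [h]
  exact (hf k.1).inter (hg k.2)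

end IE3

theorem pr_E3 (h1 : S_E1) (h2 : S_E2) : S_E3 := by
  intro X _ μ _ m
  induction m with
  | zero =>
    intro K _ f hf
    have huniv : ∀ k : (∀ i : Fin 0, K i), (fun (x : X) (i : Fin 0) => f i x) ⁻¹' {k} =
        Set.univ := by
      intro k
      apply Set.eq_univ_of_forall
      intro x
      exact Subsingleton.elim _ _
    refine ⟨?_, ?_⟩
    · intro k
      rw [huniv k]
      exact MeasurableSet.univ
    · unfold HF
      rw [Finset.sum_eq_zero]
      · simp
      · intro k _
        rw [huniv k, probReal_univ, Real.negMulLog_one]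
  | succ m ih =>
    intro K _ f hf
    obtain ⟨i1, i2⟩ := ih (fun i => K i.succ) (fun i => f i.succ) (fun i => hf i.succ)
    have hg : LM (fun x => (f 0 x, fun i : Fin m => f i.succ x)) := IE3.lm_pair _ _ (hf 0) i1
    have e1 := h1 X (K 0) (∀ i : Fin m, K i.succ) μ (f 0) (fun x i => f i.succ x) (hf 0) i1
    obtain ⟨e2, e3, -⟩ := h2 X (K 0 × (∀ i : Fin m, K i.succ)) (∀ i, K i) μ
      (fun x => (f 0 x, fun i : Fin m => f i.succ x)) (fun p => Fin.cons p.1 p.2) hg
    have hF : (fun x : X => (Fin.cons (f 0 x) (fun i : Fin m => f i.succ x) : ∀ i, K i)) =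
        fun x i => f i x := by
      funext x
      exact Fin.cons_self_tail (fun i => f i x)
    have e2' : LM (fun x : X => (Fin.cons (f 0 x) (fun i : Fin m => f i.succ x) : ∀ i, K i)) := e2
    have e3' : HF μ (fun x : X => (Fin.cons (f 0 x) (fun i : Fin m => f i.succ x) : ∀ i, K i)) ≤
      HF μ (fun x => (f 0 x, fun i : Fin m => f i.succ x)) := e3
    rw [hF] at e2' e3'
    refine ⟨e2', ?_⟩
    rw [Fin.sum_univ_succ]
    linarith

end Pool.Agent.Work.MP_574bbd_an.RK
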