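import Mathlib
import Pool.Agent.Work.MP_574bbd_an.RK.Stmts

/-!
# Block RK, item E4: bounds for the entropy of a map with finitely many values

Author: helper57.
-/

set_option autoImplicit false

namespace Pool.Agent.Work.MP_574bbd_an.RK

open MeasureTheory

namespace IE4

theorem sum_one {X K : Type} [MeasurableSpace X] [Fintype K] (μ : Measure X)
    [IsProbabilityMeasure μ] (f : X → K) (hf : LM f) : ∑ k, μ.real (f ⁻¹' {k}) = 1 := by
  rw [sum_measureReal_preimage_singleton (μ := μ) Finset.univ (fun k _ => hf k)]
  simp

theorem one_le {n p : ℝ} (hn : 0 < n) (hp : 0 ≤ p) :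
    Real.negMulLog p ≤ p * Real.log n + (1 / n - p) := by
  rcases hp.eq_or_lt with h | h
  · rw [← h, Real.negMulLog_zero]
    have : 0 < 1 / n := by positivity
    linarith
  · have h1 := Real.log_le_sub_one_of_pos (show 0 < 1 / (n * p) by positivity)
    rw [one_div, Real.log_inv, Real.log_mul hn.ne' h.ne'] at h1
    have h2 := mul_le_mul_of_nonneg_left h1 h.le
    have h3 : p * ((n * p)⁻¹ - 1) = 1 / n - p := by
      field_simp
    rw [h3] at h2
    unfold Real.negMulLog
    linarith

end IE4

theorem pr_E4 : S_E4 := by
  intro X K _ _ μ _ f hf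
  have h1 := IE4.sum_one μ f hf
  constructor
  · exact Finset.sum_nonneg fun k _ => Real.negMulLog_nonneg measureReal_nonneg
      measureReal_le_one
  · have hn : (0 : ℝ) < Fintype.card K := by
      have : Nonempty K := by
        by_contra h
        rw [not_nonempty_iff] at h
        rw [Finset.univ_eq_empty, Finset.sum_empty] at h1
        exact zero_ne_one h1
      exact_mod_cast Fintype.card_pos
    calc HF μ f ≤ ∑ k, (μ.real (f ⁻¹' {k}) * Real.log (Fintype.card K) +
          (1 / (Fintype.card K : ℝ) - μ.real (f ⁻¹' {k}))) :=
          Finset.sum_le_sum fun k _ => IE4.one_le hn measureReal_nonneg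
      _ = Real.log (Fintype.card K) := by
          rw [Finset.sum_add_distrib, Finset.sum_sub_distrib, ← Finset.sum_mul, h1,
            Finset.sum_const, Finset.card_univ, nsmul_eq_mul]
          field_simp
          ring

end Pool.Agent.Work.MP_574bbd_an.RK
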