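import Mathlib
import Pool.Agent.Work.MP_574bbd_an.RK.Stmts

/-!
# Item E5 of block RK: continuity of the entropy of maps with finitely many values
-/

set_option autoImplicit false

namespace Pool.Agent.Work.MP_574bbd_an.RK

open MeasureTheory

namespace IE5

theorem unif (ε : ℝ) (hε : 0 < ε) : ∃ δ : ℝ, 0 < δ ∧ ∀ x y : ℝ, 0 ≤ x → x ≤ 1 → 0 ≤ y → y ≤ 1 →
    |x - y| ≤ δ → Real.negMulLog x ≤ Real.negMulLog y + ε := by
  have h1 : UniformContinuousOn Real.negMulLog (Set.Icc 0 1) :=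
    isCompact_Icc.uniformContinuousOn_of_continuous Real.continuous_negMulLog.continuousOn
  rw [Metric.uniformContinuousOn_iff] at h1
  obtain ⟨δ, hδ, h2⟩ := h1 ε hε
  refine ⟨δ / 2, half_pos hδ, fun x y hx0 hx1 hy0 hy1 hxy => ?_⟩
  have h3 := h2 x ⟨hx0, hx1⟩ y ⟨hy0, hy1⟩ (by
    rw [Real.dist_eq]
    linarith)
  rw [Real.dist_eq] at h3
  have h4 := (abs_lt.mp h3).2
  linarith

end IE5

theorem pr_E5 : S_E5 := by
  intro K _ ε hε
  have hc : (0 : ℝ) < (Fintype.card K : ℝ) + 1 := by positivity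
  obtain ⟨δ, hδ, h1⟩ := IE5.unif (ε / ((Fintype.card K : ℝ) + 1)) (div_pos hε hc)
  refine ⟨δ, hδ, ?_⟩
  intro X X' _ _ μ μ' _ _ f f' h2
  have h3 : HF μ f ≤ ∑ k : K, (Real.negMulLog (μ'.real (f' ⁻¹' {k})) +
      ε / ((Fintype.card K : ℝ) + 1)) := by
    unfold HF
    refine Finset.sum_le_sum fun k _ => ?_
    exact h1 _ _ measureReal_nonneg measureReal_le_one measureReal_nonneg measureReal_le_one (h2 k)
  refine h3.trans ?_
  rw [Finset.sum_add_distrib, Finset.sum_const, Finset.card_univ, nsmul_eq_mul]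
  have h4 : (Fintype.card K : ℝ) * (ε / ((Fintype.card K : ℝ) + 1)) ≤ ε := by
    rw [← mul_div_assoc, div_le_iff₀ hc]
    nlinarith
  unfold HF
  linarith

end Pool.Agent.Work.MP_574bbd_an.RK
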