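import Mathlib
import Pool.Agent.Work.MP_574bbd_an.RK.Stmts

/-!
# MP_574bbd_an, block RK, item E7: maps to the natural numbers
-/

set_option autoImplicit false

namespace Pool.Agent.Work.MP_574bbd_an.RK

open MeasureTheory

namespace IE7

theorem pre_eq {X K : Type} (f : X → K) (e : K → ℕ) (he : Function.Injective e) (k : K) :
    (fun x => e (f x)) ⁻¹' {e k} = f ⁻¹' {k} := by
  ext x
  simp only [Set.mem_preimage, Set.mem_singleton_iff]
  exact he.eq_iff

theorem pre_empty {X K : Type} (f : X → K) (e : K → ℕ) (n : ℕ) (hn : n ∉ Set.range e) :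
    (fun x => e (f x)) ⁻¹' {n} = ∅ := by
  ext x
  simp only [Set.mem_preimage, Set.mem_singleton_iff, Set.mem_empty_iff_false, iff_false]
  intro h
  exact hn ⟨f x, h⟩

theorem hasSum' {X K : Type} [MeasurableSpace X] [Fintype K] (μ : Measure X) (f : X → K)
    (e : K → ℕ) (he : Function.Injective e) :
    HasSum (fun n : ℕ => Real.negMulLog ((μ ((fun x => e (f x)) ⁻¹' {n})).toReal)) (HF μ f) := by
  refine (he.hasSum_iff (f := fun n : ℕ =>
    Real.negMulLog ((μ ((fun x => e (f x)) ⁻¹' {n})).toReal)) ?_).1 ?_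
  · intro n hn
    simp only [pre_empty f e n hn, measure_empty, ENNReal.toReal_zero, Real.negMulLog_zero]
  · have h1 : ((fun n : ℕ => Real.negMulLog ((μ ((fun x => e (f x)) ⁻¹' {n})).toReal)) ∘ e) =
        fun k => Real.negMulLog (μ.real (f ⁻¹' {k})) := by
      funext k
      simp only [Function.comp_apply, pre_eq f e he k]
      rfl
    rw [h1]
    exact hasSum_fintype _

end IE7

theorem pr_E7 : S_E7 := by
  intro X K _ _ μ _ f e he hf
  have h := IE7.hasSum' μ f e he
  refine ⟨measurable_to_countable' fun n => ?_, h.summable, h.tsum_eq⟩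
  by_cases hn : n ∈ Set.range e
  · obtain ⟨k, rfl⟩ := hn
    rw [IE7.pre_eq f e he k]
    exact hf k
  · rw [IE7.pre_empty f e n hn]
    exact MeasurableSet.empty

end Pool.Agent.Work.MP_574bbd_an.RK
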