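import Mathlib
import Pool.Agent.Work.MP_574bbd_an.RK.Stmts

/-!
# MP_574bbd_an, block RK, item E8: truncation of a countable partition
-/

set_option autoImplicit false

namespace Pool.Agent.Work.MP_574bbd_an.RK

open MeasureTheory

namespace IE8

/-- subadditivity of `negMulLog` -/
theorem nml_add (a b : ℝ) (ha : 0 ≤ a) (hb : 0 ≤ b) :
    Real.negMulLog (a + b) ≤ Real.negMulLog a + Real.negMulLog b := by
  rcases ha.eq_or_lt with h0 | h0
  · rw [← h0, Real.negMulLog_zero, zero_add, zero_add]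
  rcases hb.eq_or_lt with h1 | h1
  · rw [← h1, Real.negMulLog_zero, add_zero, add_zero]
  have h2 : Real.log a ≤ Real.log (a + b) := Real.log_le_log h0 (by linarith)
  have h3 : Real.log b ≤ Real.log (a + b) := Real.log_le_log h1 (by linarith)
  have h4 := mul_le_mul_of_nonneg_left h2 ha
  have h5 := mul_le_mul_of_nonneg_left h3 hb
  unfold Real.negMulLog
  linarith

/-- the same for finite sums -/
theorem nml_sum (p : ℕ → ℝ) (hp : ∀ n, 0 ≤ p n) (N : ℕ) :
    Real.negMulLog (∑ n ∈ Finset.range N, p n) ≤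
      ∑ n ∈ Finset.range N, Real.negMulLog (p n) := by
  induction N with
  | zero => simp
  | succ N ih =>
    rw [Finset.sum_range_succ, Finset.sum_range_succ]
    exact (nml_add _ _ (Finset.sum_nonneg fun n _ => hp n) (hp N)).trans
      (add_le_add ih le_rfl)

end IE8

open IE8 in
theorem pr_E8 : S_E8 := by
  intro X _ μ _ α K hα hs
  refine ⟨fun k => ?_, ?_⟩
  · have h : (fun x => tr K (α x)) ⁻¹' {k} = α ⁻¹' {n | tr K n = k} := rfl
    rw [h]
    exact hα (MeasurableSet.of_discrete)
  unfold HF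
  rw [Fin.sum_univ_castSucc]
  have h1 : ∀ i : Fin K, μ.real ((fun x => tr K (α x)) ⁻¹' {Fin.castSucc i}) =
      (μ (α ⁻¹' {(i : ℕ)})).toReal := by
    intro i
    have h : (fun x => tr K (α x)) ⁻¹' {Fin.castSucc i} = α ⁻¹' {(i : ℕ)} := by
      ext x
      simp only [Set.mem_preimage, Set.mem_singleton_iff, tr, Fin.ext_iff, Fin.val_castSucc]
      have hi := i.2
      omega
    rw [h]
    rfl
  have h2 : μ.real ((fun x => tr K (α x)) ⁻¹' {Fin.last K}) =
      μ.real (⋃ n : ℕ, α ⁻¹' {n + K}) := by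
    congr 1
    ext x
    simp only [Set.mem_preimage, Set.mem_singleton_iff, tr, Fin.ext_iff, Fin.val_last,
      Set.mem_iUnion]
    constructor
    · intro h
      exact ⟨α x - K, by omega⟩
    · rintro ⟨n, h⟩
      omega
  have h3 : HasSum (fun n : ℕ => (μ (α ⁻¹' {n + K})).toReal)
      (μ.real (⋃ n : ℕ, α ⁻¹' {n + K})) := by
    have h4 : μ (⋃ n : ℕ, α ⁻¹' {n + K}) = ∑' n : ℕ, μ (α ⁻¹' {n + K}) := by
      refine measure_iUnion ?_ ?_
      · intro n n' hn
        refine Set.disjoint_left.2 fun x hx hx' => hn ?_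
        have h5 : α x = n + K := hx
        have h6 : α x = n' + K := hx'
        omega
      · exact fun n => hα (MeasurableSet.singleton _)
    unfold Measure.real
    rw [h4, ENNReal.tsum_toReal_eq (fun n => measure_ne_top μ _)]
    exact ENNReal.hasSum_toReal (h4 ▸ measure_ne_top μ _)
  have hnn : ∀ n : ℕ, 0 ≤ Real.negMulLog ((μ (α ⁻¹' {n})).toReal) := fun n =>
    Real.negMulLog_nonneg ENNReal.toReal_nonneg (by
      have h := prob_le_one (μ := μ) (s := α ⁻¹' {n})
      exact ENNReal.toReal_le_of_le_ofReal zero_le_one (by simpa using h))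
  have hs' : Summable fun n : ℕ => Real.negMulLog ((μ (α ⁻¹' {n + K})).toReal) :=
    (summable_nat_add_iff K).2 hs
  have h5 : Real.negMulLog (μ.real (⋃ n : ℕ, α ⁻¹' {n + K})) ≤
      ∑' n : ℕ, Real.negMulLog ((μ (α ⁻¹' {n + K})).toReal) := by
    have h6 := (Real.continuous_negMulLog.tendsto _).comp h3.tendsto_sum_nat
    refine le_of_tendsto' h6 fun N => ?_
    refine (nml_sum (fun n => (μ (α ⁻¹' {n + K})).toReal)
      (fun n => ENNReal.toReal_nonneg) N).trans ?_
    exact hs'.sum_le_tsum _ fun n _ => hnn (n + K)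
  rw [h2, ← hs.sum_add_tsum_nat_add K, Finset.sum_range]
  refine add_le_add (Finset.sum_le_sum fun i _ => ?_) h5
  rw [h1]

end Pool.Agent.Work.MP_574bbd_an.RK
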