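import Mathlib
import Pool.Agent.Work.MP_574bbd_an.RK.Stmts

/-!
# MP_574bbd_an, block RK, item E9 (helper12): the largest atom
-/

set_option autoImplicit false

namespace Pool.Agent.Work.MP_574bbd_an.RK

open MeasureTheory

namespace IE9

theorem sum_one {X K : Type} [MeasurableSpace X] [Fintype K] (μ : Measure X)
    [IsProbabilityMeasure μ] (f : X → K) (hf : LM f) : ∑ k, μ.real (f ⁻¹' {k}) = 1 := by
  have h := measureReal_biUnion_finset (μ := μ) (s := (Finset.univ : Finset K))
    (f := fun k => f ⁻¹' {k}) (by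
      intro a _ b _ hab
      refine Disjoint.preimage f ?_
      simpa using hab) (fun k _ => hf k)
  rw [← h]
  have hu : (⋃ b ∈ (Finset.univ : Finset K), f ⁻¹' {b}) = Set.univ := by
    ext x; simp
  rw [hu]
  exact probReal_univ

theorem nml {x : ℝ} (hx : 0 ≤ x) : x * (1 - x) ≤ Real.negMulLog x := by
  rcases hx.eq_or_lt with h | h
  · rw [← h]; simp
  · have := Real.log_le_sub_one_of_pos h
    unfold Real.negMulLog
    nlinarith

end IE9

theorem pr_E9 : S_E9 := by
  intro X K _ _ μ _ f hf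
  have h1 := IE9.sum_one μ f hf
  have hne : (Finset.univ : Finset K).Nonempty := by
    by_contra h
    rw [Finset.not_nonempty_iff_eq_empty] at h
    rw [h, Finset.sum_empty] at h1
    exact zero_ne_one h1
  obtain ⟨k₀, _, hk⟩ := Finset.exists_max_image Finset.univ (fun k => μ.real (f ⁻¹' {k})) hne
  refine ⟨k₀, ?_⟩
  have hc : {x | f x ≠ k₀} = (f ⁻¹' {k₀})ᶜ := by
    ext x; simp
  rw [hc, probReal_compl_eq_one_sub (hf k₀)]
  unfold HF
  calc 1 - μ.real (f ⁻¹' {k₀}) = ∑ k, μ.real (f ⁻¹' {k}) * (1 - μ.real (f ⁻¹' {k₀})) := by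
        rw [← Finset.sum_mul, h1, one_mul]
    _ ≤ ∑ k, Real.negMulLog (μ.real (f ⁻¹' {k})) := by
        refine Finset.sum_le_sum fun k _ => ?_
        refine le_trans ?_ (IE9.nml measureReal_nonneg)
        exact mul_le_mul_of_nonneg_left (by linarith [hk k (Finset.mem_univ k)])
          measureReal_nonneg

end Pool.Agent.Work.MP_574bbd_an.RK
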