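import Mathlib
import Pool.Agent.Work.MP_574bbd_an.RK.Stmts

/-!
# Block RK, item EG: Bernoulli shifts are ergodic
-/

set_option autoImplicit false

namespace Pool.Agent.Work.MP_574bbd_an.RK

open MeasureTheory ProbabilityTheory

namespace IEG

theorem numb (a c ε : ℝ) (ha0 : 0 ≤ a) (ha1 : a ≤ 1) (hc0 : 0 ≤ c) (hc1 : c ≤ 1)
    (h1 : |a - c| ≤ ε) (h2 : |a - c * c| ≤ 2 * ε) : |a - a * a| ≤ 4 * ε := by
  rw [abs_le] at *
  constructor
  · nlinarith
  · nlinarith

/-- the approximation -/
theorem appr {G L : Type} [Group G] [Infinite G] [Fintype L] [MeasurableSpace L]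
    [MeasurableSingletonClass L] (ν : Measure L) [IsProbabilityMeasure ν] (hA2 : S_A2)
    (s : Set (G → L)) (hs : MeasurableSet s)
    (hinv : ∀ g : G, (fun (x : G → L) (k : G) => x (k * g)) ⁻¹' s = s)
    (hmp : ∀ g : G, MeasurePreserving (fun (x : G → L) (k : G) => x (k * g))
      (Measure.infinitePi fun _ : G => ν) (Measure.infinitePi fun _ : G => ν))
    (ε : ℝ) (hε : 0 < ε) :
    |(Measure.infinitePi fun _ : G => ν).real s -
      (Measure.infinitePi fun _ : G => ν).real s * (Measure.infinitePi fun _ : G => ν).real s| ≤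
      4 * ε := by
  classical
  set μ := Measure.infinitePi fun _ : G => ν with hμ
  have hLM : LM (fun x : G → L => decide (x ∈ s)) := by
    intro k
    have h1 : (fun x : G → L => decide (x ∈ s)) ⁻¹' {true} = s := by
      ext x
      simp
    have h2 : (fun x : G → L => decide (x ∈ s)) ⁻¹' {false} = sᶜ := by
      ext x
      simp
    cases k with
    | true => rw [h1]; exact hs
    | false => rw [h2]; exact hs.compl
  obtain ⟨p, w, φ, hφ⟩ := hA2 G L Bool μ (fun x => decide (x ∈ s)) hLM ε hε
  obtain ⟨C, hC⟩ : ∃ C : Set (G → L), C = {x | φ (fun i => x (w i)) = true} := ⟨_, rfl⟩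
  have e1 : {x : G → L | decide (x ∈ s) ≠ φ (fun i => x (w i))} = symmDiff s C := by
    ext x
    rw [Set.mem_symmDiff, hC]
    change decide (x ∈ s) ≠ φ (fun i => x (w i)) ↔
      (x ∈ s ∧ ¬ φ (fun i => x (w i)) = true) ∨ (φ (fun i => x (w i)) = true ∧ ¬ x ∈ s)
    by_cases hx : x ∈ s
    · simp [hx]
    · simp [hx]
  rw [e1] at hφ
  obtain ⟨g, hg⟩ := Infinite.exists_notMem_finset
    (Finset.univ.image fun ij : Fin p × Fin p => (w ij.2)⁻¹ * w ij.1)
  have hne : ∀ i j, w i ≠ w j * g := by
    intro i j hij
    apply hg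
    rw [Finset.mem_image]
    exact ⟨(i, j), Finset.mem_univ _, by rw [hij]; simp⟩
  have hdisj : Disjoint (Finset.univ.image w) (Finset.univ.image fun i => w i * g) := by
    rw [Finset.disjoint_left]
    intro k h1 h2
    obtain ⟨i, _, hi⟩ := Finset.mem_image.1 h1
    obtain ⟨j, _, hj⟩ := Finset.mem_image.1 h2
    exact hne i j (hi.trans hj.symm)
  have hind0 : iIndepFun (fun (i : G) (x : G → L) => x i) μ :=
    iIndepFun_infinitePi (P := fun _ : G => ν) (X := fun _ (l : L) => l) (fun _ => measurable_id)
  have hind := hind0.indepFun_finset (Finset.univ.image w) (Finset.univ.image fun i => w i * g)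
    hdisj (fun i => measurable_pi_apply i)
  have hCm : MeasurableSet C := by
    have h1 : Measurable fun (x : G → L) (i : Fin p) => x (w i) :=
      measurable_pi_lambda _ fun i => measurable_pi_apply _
    have h2 : MeasurableSet {y : Fin p → L | φ y = true} := (Set.toFinite _).measurableSet
    rw [hC]
    exact h1 h2
  obtain ⟨C', hC'⟩ : ∃ C' : Set (G → L), C' = (fun (x : G → L) (k : G) => x (k * g)) ⁻¹' C :=
    ⟨_, rfl⟩
  have hprod : μ (C ∩ C') = μ C * μ C' := by
    have h1 := hind.measure_inter_preimage_eq_mul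
      {y | φ (fun i => y ⟨w i, Finset.mem_image_of_mem _ (Finset.mem_univ i)⟩) = true}
      {y | φ (fun i => y ⟨w i * g, Finset.mem_image_of_mem (fun i => w i * g)
        (Finset.mem_univ i)⟩) = true}
      (Set.toFinite _).measurableSet (Set.toFinite _).measurableSet
    have e2 : (fun (a : G → L) (i : (Finset.univ.image w : Finset G)) => a i) ⁻¹'
        {y | φ (fun i => y ⟨w i, Finset.mem_image_of_mem _ (Finset.mem_univ i)⟩) = true} = C := by
      rw [hC]; rfl
    have e3 : (fun (a : G → L) (i : (Finset.univ.image fun i => w i * g : Finset G)) => a i) ⁻¹'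
        {y | φ (fun i => y ⟨w i * g, Finset.mem_image_of_mem (fun i => w i * g)
          (Finset.mem_univ i)⟩) = true} = C' := by
      rw [hC', hC]; rfl
    rw [e2, e3] at h1
    exact h1
  have hC'm : MeasurableSet C' := by
    rw [hC']
    exact (hmp g).measurable hCm
  have hCC' : μ C' = μ C := by
    rw [hC']
    exact (hmp g).measure_preimage hCm.nullMeasurableSet
  have hr : μ.real (C ∩ C') = μ.real C * μ.real C := by
    unfold Measure.real
    rw [hprod, hCC', ENNReal.toReal_mul]
  -- the two differences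
  have hd : μ.real (symmDiff s C) ≤ ε := hφ
  have hd' : μ.real (symmDiff s C') ≤ ε := by
    have h1 : symmDiff s C' = (fun (x : G → L) (k : G) => x (k * g)) ⁻¹' (symmDiff s C) := by
      have h2 : (fun (x : G → L) (k : G) => x (k * g)) ⁻¹' (symmDiff s C) =
          symmDiff ((fun (x : G → L) (k : G) => x (k * g)) ⁻¹' s)
            ((fun (x : G → L) (k : G) => x (k * g)) ⁻¹' C) := rfl
      rw [h2, hinv g, hC']
    have h2 : μ ((fun (x : G → L) (k : G) => x (k * g)) ⁻¹' (symmDiff s C)) =
        μ (symmDiff s C) := (hmp g).measure_preimage (hs.symmDiff hCm).nullMeasurableSet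
    unfold Measure.real at hd ⊢
    rw [h1, h2]
    exact hd
  have a1 : |μ.real s - μ.real C| ≤ ε :=
    (abs_measureReal_sub_le_measureReal_symmDiff hs.nullMeasurableSet
      hCm.nullMeasurableSet).trans hd
  have a2 : |μ.real s - μ.real C * μ.real C| ≤ 2 * ε := by
    rw [← hr]
    refine (abs_measureReal_sub_le_measureReal_symmDiff hs.nullMeasurableSet
      (hCm.inter hC'm).nullMeasurableSet).trans ?_
    have h1 : symmDiff s (C ∩ C') ⊆ symmDiff s C ∪ symmDiff s C' := by
      intro x hx
      rw [Set.mem_union, Set.mem_symmDiff, Set.mem_symmDiff]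
      rw [Set.mem_symmDiff, Set.mem_inter_iff] at hx
      tauto
    have h2 : μ.real (symmDiff s (C ∩ C')) ≤ μ.real (symmDiff s C ∪ symmDiff s C') :=
      measureReal_mono h1
    have h3 := measureReal_union_le (μ := μ) (symmDiff s C) (symmDiff s C')
    linarith
  exact numb _ _ ε measureReal_nonneg measureReal_le_one measureReal_nonneg measureReal_le_one
    a1 a2

theorem main {G L : Type} [Group G] [Infinite G] [Fintype L] [MeasurableSpace L]
    [MeasurableSingletonClass L] (ν : Measure L) [IsProbabilityMeasure ν] (hA2 : S_A2)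
    (s : Set (G → L)) (hs : MeasurableSet s)
    (hinv : ∀ g : G, (fun (x : G → L) (k : G) => x (k * g)) ⁻¹' s = s)
    (hmp : ∀ g : G, MeasurePreserving (fun (x : G → L) (k : G) => x (k * g))
      (Measure.infinitePi fun _ : G => ν) (Measure.infinitePi fun _ : G => ν)) :
    (Measure.infinitePi fun _ : G => ν) s = 0 ∨ (Measure.infinitePi fun _ : G => ν) s = 1 := by
  set μ := Measure.infinitePi fun _ : G => ν with hμ
  have h0 : |μ.real s - μ.real s * μ.real s| ≤ 0 := by
    refine le_of_forall_pos_le_add fun ε hε => ?_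
    have := appr ν hA2 s hs hinv hmp (ε / 4) (by positivity)
    rw [← hμ] at this
    linarith
  have h1 : μ.real s * (1 - μ.real s) = 0 := by
    have := abs_nonpos_iff.1 h0
    linarith
  rcases mul_eq_zero.1 h1 with h2 | h2
  · left
    unfold Measure.real at h2
    rcases (ENNReal.toReal_eq_zero_iff _).1 h2 with h3 | h3
    · exact h3
    · exact absurd h3 (measure_ne_top μ s)
  · right
    have h3 : μ.real s = 1 := by linarith
    unfold Measure.real at h3
    exact (ENNReal.toReal_eq_one_iff _).1 h3

end IEG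

theorem pr_EG (h : S_A2) (h' : S_MP) : S_EG := by
  intro G L _ _ _ _ _ ν _ s hs hinv
  exact IEG.main ν h s hs hinv fun g => h' G L ν g

end Pool.Agent.Work.MP_574bbd_an.RK
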