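import Mathlib
import Pool.Agent.Work.MP_574bbd_an.RK.Stmts

/-!
# MP_574bbd_an, block RK, item FPG: a finitely presented group with the same coincidences
-/

set_option autoImplicit false

namespace Pool.Agent.Work.MP_574bbd_an.RK

namespace IFPG

/-- the words of the sites -/
def Wd (p q : ℕ) : Fin p ⊕ (Fin p × Fin q) ⊕ Unit → FreeGroup (Fin (p + q))
  | Sum.inl i => FreeGroup.of (Fin.castAdd q i)
  | Sum.inr (Sum.inl ij) => FreeGroup.of (Fin.castAdd q ij.1) * FreeGroup.of (Fin.natAdd p ij.2)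
  | Sum.inr (Sum.inr _) => 1

/-- the relators -/
def rl {G L : Type} [Group G] (c : Cd G L) : Set (FreeGroup (Fin (c.p + c.q))) :=
  {r | ∃ s s', sites c s = sites c s' ∧ r = Wd c.p c.q s * (Wd c.p c.q s')⁻¹}

theorem rl_finite {G L : Type} [Group G] (c : Cd G L) : (rl c).Finite := by
  refine (Set.finite_range (fun ss : (Fin c.p ⊕ (Fin c.p × Fin c.q) ⊕ Unit) ×
    (Fin c.p ⊕ (Fin c.p × Fin c.q) ⊕ Unit) => Wd c.p c.q ss.1 * (Wd c.p c.q ss.2)⁻¹)).subset ?_
  rintro r ⟨s, s', -, rfl⟩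
  exact ⟨(s, s'), rfl⟩

/-- the images of the generators in `G` -/
def gn {G L : Type} [Group G] (c : Cd G L) : Fin (c.p + c.q) → G := Fin.append c.w c.f

theorem lift_Wd {G L : Type} [Group G] (c : Cd G L) (s : Fin c.p ⊕ (Fin c.p × Fin c.q) ⊕ Unit) :
    FreeGroup.lift (gn c) (Wd c.p c.q s) = sites c s := by
  rcases s with i | ij | u
  · show FreeGroup.lift (gn c) (FreeGroup.of (Fin.castAdd c.q i)) = c.w i
    rw [FreeGroup.lift_apply_of]
    exact Fin.append_left c.w c.f i
  · show FreeGroup.lift (gn c) (FreeGroup.of (Fin.castAdd c.q ij.1) *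
      FreeGroup.of (Fin.natAdd c.p ij.2)) = c.w ij.1 * c.f ij.2
    rw [map_mul, FreeGroup.lift_apply_of, FreeGroup.lift_apply_of]
    exact congrArg₂ (· * ·) (Fin.append_left c.w c.f ij.1) (Fin.append_right c.w c.f ij.2)
  · exact map_one _

end IFPG

open IFPG in
theorem pr_FPG : S_FPG := by
  intro G L _ c
  refine ⟨c.p + c.q, rl c, fun i => PresentedGroup.mk (rl c) (FreeGroup.of (Fin.castAdd c.q i)),
    fun j => PresentedGroup.mk (rl c) (FreeGroup.of (Fin.natAdd c.p j)), rl_finite c, ?_⟩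
  have hs : ∀ s, sites (c.win (fun i => PresentedGroup.mk (rl c) (FreeGroup.of (Fin.castAdd c.q i)))
      (fun j => PresentedGroup.mk (rl c) (FreeGroup.of (Fin.natAdd c.p j)))) s =
      PresentedGroup.mk (rl c) (Wd c.p c.q s) := by
    intro s
    rcases s with i | ij | u
    · rfl
    · exact (map_mul (PresentedGroup.mk (rl c)) _ _).symm
    · exact (map_one (PresentedGroup.mk (rl c))).symm
  have hrel : ∀ r ∈ rl c, FreeGroup.lift (gn c) r = 1 := by
    rintro r ⟨s, s', h, rfl⟩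
    rw [map_mul, map_inv, lift_Wd, lift_Wd, h, mul_inv_cancel]
  intro i j
  rw [hs, hs]
  constructor
  · intro h
    exact PresentedGroup.mk_eq_mk_of_mul_inv_mem ⟨i, j, h, rfl⟩
  · intro h
    have h1 := congrArg (PresentedGroup.toGroup hrel) h
    have h2 : ∀ s, PresentedGroup.toGroup hrel (PresentedGroup.mk (rl c) (Wd c.p c.q s)) =
        sites c s := fun s => lift_Wd c s
    rw [h2, h2] at h1
    exact h1

end Pool.Agent.Work.MP_574bbd_an.RK
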