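import Mathlib
import Pool.Agent.Work.MP_574bbd_an.RK.Stmts

set_option autoImplicit false

namespace Pool.Agent.Work.MP_574bbd_an.RK

open MeasureTheory

namespace IFR

theorem coin_singleton (b : Bool) : coin {b} = 1 / 2 := by
  rw [coin, PMF.toMeasure_apply_singleton _ _ (MeasurableSet.singleton b),
    PMF.uniformOfFintype_apply]
  simp

theorem exists_seq (G : Type) [Group G] [Infinite G] (g : G) :
    ∃ h : ℕ → G, ∀ m n, m ≠ n → h m ≠ h n ∧ h m ≠ h n * g := by
  classical
  obtain ⟨f, -, hf⟩ := exists_seq_of_forall_finset_exists (fun _ : G => True)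
    (fun x y => y ≠ x ∧ y ≠ x * g ∧ y ≠ x * g⁻¹) (by
      intro s _
      obtain ⟨y, hy⟩ := Infinite.exists_notMem_finset
        (s ∪ s.image (fun x => x * g) ∪ s.image (fun x => x * g⁻¹))
      refine ⟨y, trivial, fun x hx => ⟨?_, ?_, ?_⟩⟩
      · rintro rfl; exact hy (by simp [hx])
      · rintro rfl
        exact hy (Finset.mem_union_left _ (Finset.mem_union_right _ (Finset.mem_image_of_mem _ hx)))
      · rintro rfl
        exact hy (Finset.mem_union_right _ (Finset.mem_image_of_mem _ hx)))
  refine ⟨f, fun m n hmn => ?_⟩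
  rcases lt_or_gt_of_ne hmn with h | h
  · obtain ⟨h1, h2, h3⟩ := hf m n h
    refine ⟨fun e => h1 e.symm, fun e => h3 ?_⟩
    rw [e]; group
  · obtain ⟨h1, h2, h3⟩ := hf n m h
    exact ⟨h1, h2⟩

theorem box {G : Type} [Group G] (g : G) (hg : g ≠ 1) (h : ℕ → G)
    (hh : ∀ m n, m ≠ n → h m ≠ h n ∧ h m ≠ h n * g) (n : ℕ) (u : Fin n → Bool) :
    bm G coin {x : Sh G Bool | ∀ i : Fin n, x.ev (h i) = u i ∧ x.ev (h i * g) = u i} ≤
      (1 / 2) ^ (2 * n) := by
  classical
  have hinj : Function.Injective (fun i : Fin n => h i) := by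
    intro i j hij
    by_contra hne
    exact (hh i j (fun e => hne (Fin.ext e))).1 hij
  have hinj2 : Function.Injective (fun i : Fin n => h i * g) := by
    intro i j hij
    exact hinj (mul_right_cancel hij)
  have hdis : ∀ i j : Fin n, h i ≠ h j * g := by
    intro i j
    by_cases hij : i = j
    · subst hij
      intro e
      exact hg (by simpa using e.symm)
    · exact (hh i j (fun e => hij (Fin.ext e))).2
  set S : Finset G := Finset.univ.image (fun i : Fin n => h i) ∪
    Finset.univ.image (fun i : Fin n => h i * g) with hS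
  set t : G → Set Bool := fun k => {b | ∀ i : Fin n, (k = h i ∨ k = h i * g) → b = u i} with ht
  have hD : Disjoint (Finset.univ.image (fun i : Fin n => h i))
      (Finset.univ.image (fun i : Fin n => h i * g)) := by
    rw [Finset.disjoint_left]
    intro a ha hb
    simp only [Finset.mem_image, Finset.mem_univ, true_and] at ha hb
    obtain ⟨i, rfl⟩ := ha
    obtain ⟨j, hj⟩ := hb
    exact hdis i j hj.symm
  have hsub : {x : Sh G Bool | ∀ i : Fin n, x.ev (h i) = u i ∧ x.ev (h i * g) = u i} ⊆
      ((S : Set G).pi t : Set (G → Bool)) := by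
    intro x hx k _ i hk
    rcases hk with rfl | rfl
    · exact (hx i).1
    · exact (hx i).2
  refine (measure_mono hsub).trans ?_
  have hm : (bm G coin) ((S : Set G).pi t : Set (G → Bool)) = ∏ k ∈ S, coin (t k) :=
    Measure.infinitePi_pi (μ := fun _ : G => coin) (fun i _ => (Set.toFinite _).measurableSet)
  rw [hm, hS, Finset.prod_union hD, Finset.prod_image hinj.injOn, Finset.prod_image hinj2.injOn]
  have h1 : ∀ i : Fin n, coin (t (h i)) ≤ 1 / 2 := by
    intro i
    rw [← coin_singleton (u i)]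
    exact measure_mono fun b hb => hb i (Or.inl rfl)
  have h2 : ∀ i : Fin n, coin (t (h i * g)) ≤ 1 / 2 := by
    intro i
    rw [← coin_singleton (u i)]
    exact measure_mono fun b hb => hb i (Or.inr rfl)
  calc (∏ i : Fin n, coin (t (h i))) * ∏ i : Fin n, coin (t (h i * g))
      ≤ (∏ _i : Fin n, (1 / 2)) * ∏ _i : Fin n, (1 / 2) :=
        mul_le_mul' (Finset.prod_le_prod' fun i _ => h1 i) (Finset.prod_le_prod' fun i _ => h2 i)
    _ = (1 / 2) ^ (2 * n) := by
        simp only [Finset.prod_const, Finset.card_univ, Fintype.card_fin]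
        rw [two_mul, pow_add]

end IFR

theorem pr_FR : S_FR := by
  intro G _ _ g hg
  obtain ⟨h, hh⟩ := IFR.exists_seq G g
  have hb : ∀ n : ℕ, bm G coin {x : Sh G Bool | g • x = x} ≤ (1 / 2) ^ n := by
    intro n
    have hsub : {x : Sh G Bool | g • x = x} ⊆ ⋃ u : Fin n → Bool,
        {x : Sh G Bool | ∀ i : Fin n, x.ev (h i) = u i ∧ x.ev (h i * g) = u i} := by
      intro x hx
      rw [Set.mem_iUnion]
      refine ⟨fun i => x.ev (h i), fun i => ⟨rfl, ?_⟩⟩
      have h1 : (g • x).ev (h i) = x.ev (h i) := by rw [show g • x = x from hx]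
      rw [ev_smul] at h1
      exact h1
    refine (measure_mono hsub).trans ((measure_iUnion_le _).trans ?_)
    rw [tsum_fintype]
    refine (Finset.sum_le_sum fun u _ => IFR.box g hg h hh n u).trans ?_
    rw [Finset.sum_const, Finset.card_univ, Fintype.card_fun, Fintype.card_bool, Fintype.card_fin,
      nsmul_eq_mul]
    have e : ((2 ^ n : ℕ) : ENNReal) * (1 / 2) ^ (2 * n) = (1 / 2) ^ n := by
      rw [two_mul, pow_add, ← mul_assoc]
      push_cast
      rw [← mul_pow, one_div, ENNReal.mul_inv_cancel (by norm_num) (by norm_num), one_pow, one_mul]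
    exact e.le
  have ht : Filter.Tendsto (fun n : ℕ => (1 / 2 : ENNReal) ^ n) Filter.atTop (nhds 0) :=
    ENNReal.tendsto_pow_atTop_nhds_zero_of_lt_one (by
      rw [one_div]; exact ENNReal.inv_lt_one.2 (by norm_num))
  exact nonpos_iff_eq_zero.1 (ge_of_tendsto' ht hb)

end Pool.Agent.Work.MP_574bbd_an.RK
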