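import Mathlib
import Pool.Agent.Work.MP_574bbd_an.RK.Stmts

/-!
# MP_574bbd_an, block RK, item GC: the code of a generating partition
-/

set_option autoImplicit false

namespace Pool.Agent.Work.MP_574bbd_an.RK

open MeasureTheory

namespace IGC

/-- The preimage under a measure preserving map is not larger, for every set. -/
theorem real_preimage_le {X : Type} [MeasurableSpace X] (μ : Measure X) [IsProbabilityMeasure μ]
    (T : X → X) (hT : MeasurePreserving T μ μ) (E : Set X) : μ.real (T ⁻¹' E) ≤ μ.real E := by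
  have h1 : μ (T ⁻¹' E) ≤ μ E := by
    calc μ (T ⁻¹' E) ≤ μ (T ⁻¹' (toMeasurable μ E)) :=
          measure_mono (Set.preimage_mono (subset_toMeasurable μ E))
      _ = μ (toMeasurable μ E) :=
          hT.measure_preimage (measurableSet_toMeasurable μ E).nullMeasurableSet
      _ = μ E := measure_toMeasurable E
  exact ENNReal.toReal_mono (measure_ne_top μ E) h1

/-- The level sets of two maps differ at most by the set where the maps differ. -/
theorem absle {X K : Type} [MeasurableSpace X] (μ : Measure X) [IsProbabilityMeasure μ]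
    (f g : X → K) (γ : ℝ) (h : μ.real {x | f x ≠ g x} ≤ γ) (k : K) :
    |μ.real (f ⁻¹' {k}) - μ.real (g ⁻¹' {k})| ≤ γ := by
  have key : ∀ u v : X → K, μ.real (u ⁻¹' {k}) ≤ μ.real (v ⁻¹' {k}) + μ.real {x | u x ≠ v x} := by
    intro u v
    refine le_trans (measureReal_mono ?_ (measure_ne_top μ _)) (measureReal_union_le _ _)
    intro x hx
    by_cases hxx : u x = v x
    · left
      rw [Set.mem_preimage, ← hxx]
      exact hx
    · right
      exact hxx
  have h1 := key f g
  have h2 := key g f
  have h3 : {x | g x ≠ f x} = {x | f x ≠ g x} := by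
    ext x
    exact ne_comm
  rw [h3] at h2
  rw [abs_le]
  constructor
  · linarith
  · linarith

end IGC

/-- GC: the code of a generating partition. -/
theorem pr_GC (h1 : S_GC1) (h2 : S_A2) (h3 : S_E5) (h4 : S_E8) (h5 : S_MP) : S_GC := by
  intro G L _ _ _ _ ν _ α h hα hgen hsum hle δ hδ
  obtain ⟨q, K, f, D, hD⟩ := h1 G L ν α hα hgen (δ / 2) (by linarith)
  obtain ⟨η, hη, hE5⟩ := h3 (Fin (K + 1)) δ hδ
  obtain ⟨hLM, hHF⟩ := h4 (Sh G L) (bm G ν) α K hα hsum
  have hq : (0 : ℝ) < 2 * ((q : ℝ) + 1) := by positivity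
  have hγ : 0 < min η (δ / (2 * ((q : ℝ) + 1))) := lt_min hη (div_pos hδ hq)
  obtain ⟨p, w, φ, hφ⟩ := h2 G L (Fin (K + 1)) (Measure.infinitePi fun _ : G => ν)
    (fun x => tr K (α x)) hLM (min η (δ / (2 * ((q : ℝ) + 1)))) hγ
  set c : Cd G L := ⟨p, q, K + 1, w, f, φ, D⟩ with hc
  set e : Sh G L → Fin (K + 1) := fun x => φ fun i => x.ev (w i) with he
  have henc : ∀ x : Sh G L, enc c (fun x : Sh G L => x.ev 1) x = e x := by
    intro x
    show φ (fun i => (w i • x).ev 1) = φ fun i => x.ev (w i)
    congr 1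
    funext i
    rw [ev_smul, one_mul]
  have hφ' : (bm G ν).real {x : Sh G L | tr K (α x) ≠ e x} ≤
      min η (δ / (2 * ((q : ℝ) + 1))) := hφ
  refine ⟨c, ?_, ?_⟩
  · have e1 : (enc c fun x : Sh G L => x.ev 1) = e := funext henc
    rw [e1]
    have h6 : HF (bm G ν) e ≤ HF (bm G ν) (fun x : Sh G L => tr K (α x)) + δ := by
      apply hE5 (Sh G L) (Sh G L) (bm G ν) (bm G ν) e (fun x => tr K (α x))
      intro k
      rw [abs_sub_comm]
      exact (IGC.absle (bm G ν) (fun x : Sh G L => tr K (α x)) e _ hφ' k).trans (min_le_left _ _)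
    linarith
  · have hsub : {x : Sh G L | dec c (fun x : Sh G L => x.ev 1) x ≠ x.ev 1} ⊆
        {x : Sh G L | D (fun j => tr K (α (f j • x))) ≠ x.ev 1} ∪
          ⋃ j, (fun x : Sh G L => f j • x) ⁻¹' {x : Sh G L | tr K (α x) ≠ e x} := by
      intro x hx
      by_contra hcon
      rw [Set.mem_union, not_or] at hcon
      obtain ⟨hc1, hc2⟩ := hcon
      apply hx
      have hd : dec c (fun x : Sh G L => x.ev 1) x = D fun j => e (f j • x) := by
        show D (fun j => enc c (fun x : Sh G L => x.ev 1) (f j • x)) = _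
        congr 1
        funext j
        exact henc _
      rw [hd]
      have h7 : (fun j => e (f j • x)) = fun j => tr K (α (f j • x)) := by
        funext j
        by_contra h8
        apply hc2
        rw [Set.mem_iUnion]
        exact ⟨j, fun h9 => h8 h9.symm⟩
      rw [h7]
      by_contra h8
      exact hc1 h8
    have hU : (bm G ν).real
        (⋃ j, (fun x : Sh G L => f j • x) ⁻¹' {x : Sh G L | tr K (α x) ≠ e x}) ≤
        (q : ℝ) * (δ / (2 * ((q : ℝ) + 1))) := by
      refine (measureReal_iUnion_fintype_le _).trans ?_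
      calc ∑ j : Fin q, (bm G ν).real
            ((fun x : Sh G L => f j • x) ⁻¹' {x : Sh G L | tr K (α x) ≠ e x}) ≤
            ∑ j : Fin q, δ / (2 * ((q : ℝ) + 1)) := by
            apply Finset.sum_le_sum
            intro j _
            exact ((IGC.real_preimage_le (bm G ν) _ (h5 G L ν (f j)) _).trans hφ').trans
              (min_le_right _ _)
        _ = (q : ℝ) * (δ / (2 * ((q : ℝ) + 1))) := by
            rw [Finset.sum_const, Finset.card_univ, Fintype.card_fin, nsmul_eq_mul]
    have hfin : (q : ℝ) * (δ / (2 * ((q : ℝ) + 1))) ≤ δ / 2 := by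
      rw [← mul_div_assoc, div_le_div_iff₀ hq (by norm_num)]
      nlinarith
    calc (bm G ν).real {x : Sh G L | dec c (fun x : Sh G L => x.ev 1) x ≠ x.ev 1} ≤ _ :=
          measureReal_mono hsub (measure_ne_top _ _)
      _ ≤ _ := measureReal_union_le _ _
      _ ≤ δ / 2 + δ / 2 := add_le_add hD (hU.trans hfin)
      _ = δ := by ring

end Pool.Agent.Work.MP_574bbd_an.RK
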