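import Mathlib
import Pool.Agent.Work.MP_574bbd_an.RK.Stmts

/-!
# MP_574bbd_an, block RK, item GC1 (helper30): decoder from a generating partition
-/

set_option autoImplicit false

namespace Pool.Agent.Work.MP_574bbd_an.RK

open MeasureTheory

namespace IGC1

theorem tr_tr (K K' n : ℕ) (h : K ≤ K') : tr K ((tr K' n : Fin (K' + 1)) : ℕ) = tr K n := by
  unfold tr
  apply Fin.ext
  simp only
  omega

theorem combine {X G L : Type} [Fintype L] [Nonempty L] (β : G → X → ℕ) (q K : L → ℕ)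
    (f : ∀ l, Fin (q l) → G) (D : ∀ l, (Fin (q l) → Fin (K l + 1)) → Bool) :
    ∃ (Q KK : ℕ) (F : Fin Q → G) (DD : (Fin Q → Fin (KK + 1)) → L), ∀ (x : X) (l₀ : L),
      (∀ l, D l (fun j => tr (K l) (β (f l j) x)) = true ↔ l = l₀) →
      DD (fun j => tr KK (β (F j) x)) = l₀ := by
  classical
  let e : (Σ l, Fin (q l)) ≃ Fin (Fintype.card (Σ l, Fin (q l))) := Fintype.equivFin _
  have hK : ∀ l, K l ≤ ∑ l, K l := fun l =>
    Finset.single_le_sum (f := K) (fun _ _ => Nat.zero_le _) (Finset.mem_univ l)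
  refine ⟨Fintype.card (Σ l, Fin (q l)), ∑ l, K l, fun j => f (e.symm j).1 (e.symm j).2,
    fun u => if h : ∃ l, ∀ l', D l' (fun j => tr (K l') (u (e ⟨l', j⟩) : ℕ)) = true ↔ l' = l
      then h.choose else Classical.arbitrary L, ?_⟩
  intro x l₀ hl
  have key : ∀ l' : L, (fun j : Fin (q l') =>
      tr (K l') ((tr (∑ l, K l) (β (f (e.symm (e ⟨l', j⟩)).1 (e.symm (e ⟨l', j⟩)).2) x) :
        Fin (∑ l, K l + 1)) : ℕ)) = fun j => tr (K l') (β (f l' j) x) := by
    intro l'
    funext j
    rw [Equiv.symm_apply_apply, tr_tr _ _ _ (hK l')]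
  have hex : ∃ l, ∀ l', D l' (fun j : Fin (q l') =>
      tr (K l') ((tr (∑ l, K l) (β (f (e.symm (e ⟨l', j⟩)).1 (e.symm (e ⟨l', j⟩)).2) x) :
        Fin (∑ l, K l + 1)) : ℕ)) = true ↔ l' = l := by
    refine ⟨l₀, fun l' => ?_⟩
    rw [key l']
    exact hl l'
  simp only
  rw [dif_pos hex]
  have h2 := hex.choose_spec l₀
  rw [key l₀] at h2
  exact (h2.1 ((hl l₀).2 rfl)).symm

end IGC1

open IGC1 in
theorem pr_GC1 (h : S_A1) (h' : S_MP) : S_GC1 := by
  intro G L _ _ _ _ ν _ α hα hgen δ hδ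
  have : Nonempty L := nonempty_of_isProbabilityMeasure ν
  have hc : (0 : ℝ) < Fintype.card L := by exact_mod_cast Fintype.card_pos
  have hev : Measurable (fun x : Sh G L => x.ev 1) := measurable_pi_apply (1 : G)
  have hB : ∀ l : L, MeasurableSet {x : Sh G L | x.ev 1 = l} := fun l =>
    hev (measurableSet_singleton l)
  choose A hA1 hA2 using fun l : L => hgen _ (hB l)
  choose q K f D hD using fun l : L =>
    h (Sh G L) G (bm G ν) (fun g x => α (g • x)) (fun g => hα.comp (h' G L ν g).measurable)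
      (A l) (hA1 l) (δ / Fintype.card L) (div_pos hδ hc)
  obtain ⟨Q, KK, F, DD, hDD⟩ := combine (fun (g : G) (x : Sh G L) => α (g • x)) q K f D
  refine ⟨Q, KK, F, DD, ?_⟩
  have hsub : {x : Sh G L | DD (fun j => tr KK (α (F j • x))) ≠ x.ev 1} ⊆
      ⋃ l : L, (symmDiff (A l) {x : Sh G L | D l (fun j => tr (K l) (α (f l j • x))) = true} ∪
        symmDiff (A l) {x : Sh G L | x.ev 1 = l}) := by
    intro x hx
    by_contra hcon
    apply hx
    apply hDD x (x.ev 1)
    intro l
    simp only [Set.mem_iUnion, Set.mem_union, not_exists, not_or, Set.mem_symmDiff,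
      Set.mem_setOf_eq] at hcon
    obtain ⟨h1, h2⟩ := hcon l
    have h3 : x.ev 1 = l ↔ l = x.ev 1 := eq_comm
    rw [← h3]
    tauto
  calc (bm G ν).real {x : Sh G L | DD (fun j => tr KK (α (F j • x))) ≠ x.ev 1}
      ≤ (bm G ν).real (⋃ l : L,
        (symmDiff (A l) {x : Sh G L | D l (fun j => tr (K l) (α (f l j • x))) = true} ∪
        symmDiff (A l) {x : Sh G L | x.ev 1 = l})) := measureReal_mono hsub
    _ ≤ ∑ l : L, (bm G ν).real
        (symmDiff (A l) {x : Sh G L | D l (fun j => tr (K l) (α (f l j • x))) = true} ∪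
        symmDiff (A l) {x : Sh G L | x.ev 1 = l}) := measureReal_iUnion_fintype_le _
    _ ≤ ∑ _l : L, δ / Fintype.card L := by
        apply Finset.sum_le_sum
        intro l _
        refine (measureReal_union_le _ _).trans ?_
        have h0 : (bm G ν).real (symmDiff (A l) {x : Sh G L | x.ev 1 = l}) = 0 := by
          rw [measureReal_def, hA2 l, ENNReal.toReal_zero]
        rw [h0, add_zero]
        exact hD l
    _ = δ := by
        rw [Finset.sum_const, Finset.card_univ, nsmul_eq_mul]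
        field_simp

end Pool.Agent.Work.MP_574bbd_an.RK
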