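import Mathlib
import Pool.Agent.Work.MP_574bbd_an.RK.Stmts

/-!
# Item GEN: a criterion for generating partitions
-/

set_option autoImplicit false

namespace Pool.Agent.Work.MP_574bbd_an.RK

open MeasureTheory

namespace IGEN

/-- The set of the points where a condition on finitely many values holds is measurable in the
supremum. -/
theorem meas {G X : Type} [Group G] [MulAction G X] (α : X → ℕ) (q : ℕ) (f : Fin q → G)
    (D : (Fin q → ℕ) → Bool) :
    MeasurableSet[⨆ g : G, MeasurableSpace.comap (fun x : X => α (g • x)) ⊤]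
      {x : X | D (fun j => α (f j • x)) = true} := by
  letI : MeasurableSpace X := ⨆ g : G, MeasurableSpace.comap (fun x : X => α (g • x)) ⊤
  have h1 : Measurable (fun x : X => fun j : Fin q => α (f j • x)) := by
    refine measurable_pi_iff.mpr fun j => ?_
    refine Measurable.of_comap_le ?_
    exact le_iSup (fun g : G => MeasurableSpace.comap (fun x : X => α (g • x)) ⊤) (f j)
  have h2 : MeasurableSet {u : Fin q → ℕ | D u = true} := (Set.to_countable _).measurableSet
  exact h1 h2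

theorem sub {X : Type} (A s : ℕ → Set X) :
    symmDiff (⋃ n, A n) (⋃ n, s n) ⊆ ⋃ n, symmDiff (A n) (s n) := by
  intro x hx
  rw [Set.mem_symmDiff] at hx
  rcases hx with ⟨h1, h2⟩ | ⟨h1, h2⟩
  · obtain ⟨n, hn⟩ := Set.mem_iUnion.mp h1
    exact Set.mem_iUnion.mpr ⟨n, Or.inl ⟨hn, fun h => h2 (Set.mem_iUnion.mpr ⟨n, h⟩)⟩⟩
  · obtain ⟨n, hn⟩ := Set.mem_iUnion.mp h1
    exact Set.mem_iUnion.mpr ⟨n, Or.inr ⟨hn, fun h => h2 (Set.mem_iUnion.mpr ⟨n, h⟩)⟩⟩

end IGEN

theorem pr_GEN : S_GEN := by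
  intro G X _ m _ μ _ α B _ _ hm hB s hs
  have hs' : MeasurableSet[MeasurableSpace.generateFrom (Set.range B)] s := by
    rw [← hm]
    exact hs
  refine MeasurableSpace.generateFrom_induction (Set.range B)
    (fun s _ => ∃ A : Set X,
      MeasurableSet[⨆ g : G, MeasurableSpace.comap (fun x : X => α (g • x)) ⊤] A ∧
        μ (symmDiff A s) = 0) ?_ ?_ ?_ ?_ s hs'
  · rintro t ⟨n, rfl⟩ _
    obtain ⟨q, f, D, h⟩ := hB n
    refine ⟨_, IGEN.meas α q f D, ?_⟩
    rw [ae_iff] at h
    refine measure_mono_null ?_ h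
    intro x hx hiff
    rw [Set.mem_symmDiff] at hx
    rcases hx with ⟨h1, h2⟩ | ⟨h1, h2⟩
    · exact h2 (hiff.mp h1)
    · exact h2 (hiff.mpr h1)
  · refine ⟨∅, @MeasurableSet.empty X (⨆ g : G, MeasurableSpace.comap (fun x : X => α (g • x)) ⊤), ?_⟩
    rw [symmDiff_self]
    exact measure_empty
  · rintro t _ ⟨A, hA, h0⟩
    refine ⟨Aᶜ, hA.compl, ?_⟩
    rw [compl_symmDiff_compl]
    exact h0
  · intro t _ ht
    choose A hA h0 using ht
    refine ⟨⋃ n, A n, MeasurableSet.iUnion hA, ?_⟩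
    exact measure_mono_null (IGEN.sub A t) (measure_iUnion_null h0)

end Pool.Agent.Work.MP_574bbd_an.RK
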