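import Mathlib
import Pool.Agent.Work.MP_574bbd_an.RK.Stmts

/-!
# RK, item INF: a group containing all finitely presented groups is infinite
-/

set_option autoImplicit false

namespace Pool.Agent.Work.MP_574bbd_an.RK

open MeasureTheory

/-- **INF.** -/
theorem pr_INF : S_INF := by
  intro U _ hU
  obtain ⟨f, hf⟩ := hU 1 ∅ Set.finite_empty
  have hT : ∀ r ∈ (∅ : Set (FreeGroup (Fin 1))),
      FreeGroup.lift (fun _ : Fin 1 => (Multiplicative.ofAdd (1 : ℤ))) r = 1 := by
    intro r hr
    exact absurd hr (Set.notMem_empty r)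
  refine Infinite.of_injective (fun n : ℕ => f (PresentedGroup.of (rels := ∅) (0 : Fin 1) ^ n)) ?_
  intro a b hab
  have h1 := hf hab
  have h2 := congrArg (PresentedGroup.toGroup hT) h1
  simp only [map_pow, PresentedGroup.toGroup.of] at h2
  have h3 := congrArg Multiplicative.toAdd h2
  simpa using h3

end Pool.Agent.Work.MP_574bbd_an.RK
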