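import Mathlib
import Pool.Agent.Work.MP_574bbd_an.RK.Stmts

set_option autoImplicit false

namespace Pool.Agent.Work.MP_574bbd_an.RK

open MeasureTheory

namespace ILAB

theorem lm_comp {X K K' : Type} [MeasurableSpace X] [Finite K] (g : K → K') (f : X → K)
    (hf : LM f) : LM (fun x => g (f x)) := by
  intro k
  have : (fun x => g (f x)) ⁻¹' {k} = ⋃ a ∈ {a | g a = k}, f ⁻¹' {a} := by
    ext x
    simp
  rw [this]
  exact MeasurableSet.biUnion (Set.to_countable _) fun a _ => hf a

theorem lm_smul {G X K : Type} [Group G] [MeasurableSpace X] [MulAction G X] (g : G)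
    (hg : Measurable fun x : X => g • x) (f : X → K) (hf : LM f) : LM (fun x => f (g • x)) :=
  fun k => hg (hf k)

end ILAB

theorem pr_LAB (h1 : S_SEP) (h2 : S_VAR) : S_LAB := by
  intro G X _ _ _ _ _ μ _ hF r e he ξ hξ γ hγ
  set η : ℝ := γ ^ 2 / (10 * 2 ^ r + 10) with hη
  have hη0 : 0 < η := by positivity
  obtain ⟨M, P, hP, hs1, hs2⟩ := h1 G X μ hF r e he η hη0
  have hm : ∀ g : G, Measurable fun x : X => g • x := fun g => (hF.1 g).measurable
  let T : (Fin r → Bool) × Bool → Fin r → X → Bool := fun c i x =>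
    xor (c.1 i) (c.2 && ξ (e i • x))
  have hT : ∀ c i, LM (T c i) := fun c i =>
    ILAB.lm_comp (fun b : Bool => xor (c.1 i) (c.2 && b)) _ (ILAB.lm_smul (e i) (hm _) ξ hξ)
  let S : (Fin r → Bool) × Bool → (Fin M → Bool) → ℝ := fun c b =>
    (μ.real {x | ∀ i, b (P (e i • x)) = T c i x} - (1 / 2) ^ r) ^ 2
  have hS : ∀ c, ∑ b, S c b ≤ 2 ^ M * (5 * η) := by
    intro c
    refine (h2 X μ M r (fun i x => P (e i • x)) (T c)
      (fun i => ILAB.lm_smul (e i) (hm _) P hP) (hT c)).trans ?_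
    refine mul_le_mul_of_nonneg_left ?_ (by positivity)
    linarith
  have hsum : ∑ b : Fin M → Bool, ∑ c, S c b ≤ ∑ _b : Fin M → Bool, γ ^ 2 := by
    rw [Finset.sum_comm]
    refine (Finset.sum_le_sum fun c _ => hS c).trans ?_
    simp only [Finset.sum_const, Finset.card_univ, Fintype.card_prod, Fintype.card_fun,
      Fintype.card_bool, Fintype.card_fin, nsmul_eq_mul]
    push_cast
    have h3 : 10 * 2 ^ r * η ≤ γ ^ 2 := by
      rw [hη, mul_div_assoc', div_le_iff₀ (by positivity)]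
      nlinarith [sq_nonneg γ]
    calc (2 ^ r * 2 : ℝ) * (2 ^ M * (5 * η)) = 2 ^ M * (10 * 2 ^ r * η) := by ring
      _ ≤ 2 ^ M * γ ^ 2 := mul_le_mul_of_nonneg_left h3 (by positivity)
  obtain ⟨b, -, hb⟩ := Finset.exists_le_of_sum_le Finset.univ_nonempty hsum
  have hc : ∀ c, |μ.real {x | ∀ i, b (P (e i • x)) = T c i x} - (1 / 2) ^ r| ≤ γ := by
    intro c
    refine abs_le_of_sq_le_sq ?_ hγ.le
    exact (Finset.single_le_sum (f := fun c => S c b) (fun c _ => sq_nonneg _)
      (Finset.mem_univ c)).trans hb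
  refine ⟨fun x => b (P x), ILAB.lm_comp b P hP, fun u => ?_, fun u => ?_⟩
  · have h := hc (u, false)
    simp only [T, Bool.false_and, Bool.xor_false] at h
    exact h
  · have h := hc (u, true)
    simp only [T, Bool.true_and] at h
    have hset : {x | ∀ i, xor (b (P (e i • x))) (ξ (e i • x)) = u i} =
        {x | ∀ i, b (P (e i • x)) = xor (u i) (ξ (e i • x))} := by
      ext x
      simp only [Set.mem_setOf_eq]
      refine forall_congr' fun i => ?_
      cases b (P (e i • x)) <;> cases ξ (e i • x) <;> cases u i <;> simp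
    show |μ.real {x | ∀ i, xor (b (P (e i • x))) (ξ (e i • x)) = u i} - (1 / 2) ^ r| ≤ γ
    rw [hset]
    exact h

end Pool.Agent.Work.MP_574bbd_an.RK
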