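import Mathlib
import Pool.Agent.Work.MP_574bbd_an.RK.Stmts

/-!
# MP_574bbd_an, block RK, item LAW: the joint law of finitely many coordinates

Author: helper81.
-/

set_option autoImplicit false

namespace Pool.Agent.Work.MP_574bbd_an.RK

open MeasureTheory

namespace ILAW

/-- The coordinates along an injective map are independent with the law `ν`. -/
theorem map_inj {Q S L : Type} [MeasurableSpace L] (ν : Measure L) [IsProbabilityMeasure ν]
    (j : Q ↪ S) :
    (Measure.infinitePi fun _ : S => ν).map (fun (x : S → L) (q : Q) => x (j q)) =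
      Measure.infinitePi fun _ : Q => ν := by
  classical
  refine Measure.eq_infinitePi _ fun t A hA => ?_
  have hm : Measurable (fun (x : S → L) (q : Q) => x (j q)) := by fun_prop
  rw [Measure.map_apply hm (MeasurableSet.pi (Finset.countable_toSet t) fun i _ => hA i)]
  have h1 : (fun (x : S → L) (q : Q) => x (j q)) ⁻¹' (Set.pi (t : Set Q) A) =
      Set.pi ((t.map j : Finset S) : Set S) (Function.extend j A fun _ => Set.univ) := by
    ext x
    simp only [Set.mem_preimage, Set.mem_pi, Finset.mem_coe, Finset.mem_map]
    constructor
    · rintro h _ ⟨q, hq, rfl⟩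
      rw [j.injective.extend_apply]
      exact h q hq
    · intro h q hq
      have := h (j q) ⟨q, hq, rfl⟩
      rwa [j.injective.extend_apply] at this
  rw [h1, Measure.infinitePi_pi, Finset.prod_map]
  · refine Finset.prod_congr rfl fun q _ => ?_
    rw [j.injective.extend_apply]
  · intro i hi
    obtain ⟨q, _, rfl⟩ := Finset.mem_map.1 hi
    rw [j.injective.extend_apply]
    exact hA q

/-- The law of `x ∘ s` through the quotient by the coincidences. -/
theorem law_quot {ι S L : Type} [Finite ι] [Fintype L] [MeasurableSpace L]
    [MeasurableSingletonClass L] (ν : Measure L) [IsProbabilityMeasure ν] (r : Setoid ι)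
    (s : ι → S) (hs : ∀ i j, r i j ↔ s i = s j) (Φ : Set (ι → L)) :
    (Measure.infinitePi fun _ : S => ν).real {x : S → L | (fun i => x (s i)) ∈ Φ} =
      (Measure.infinitePi fun _ : Quotient r => ν).real
        {y : Quotient r → L | (fun i => y (Quotient.mk r i)) ∈ Φ} := by
  let j : Quotient r ↪ S := ⟨Quotient.lift s fun a b h => (hs a b).1 h, by
    intro a b
    induction a using Quotient.inductionOn with
    | h a =>
    induction b using Quotient.inductionOn with
    | h b =>
    intro h
    exact Quotient.sound ((hs a b).2 h)⟩
  have hm : Measurable (fun (x : S → L) (q : Quotient r) => x (j q)) := by fun_prop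
  rw [← map_inj ν j, map_measureReal_apply hm]
  · rfl
  · exact (Set.toFinite _).measurableSet

end ILAW

theorem pr_LAW : S_LAW := by
  intro ι S S' L _ _ _ _ ν _ s s' hp Φ
  rw [ILAW.law_quot ν (Setoid.ker s) s (fun i j => Iff.rfl) Φ,
    ILAW.law_quot ν (Setoid.ker s) s' (fun i j => hp i j) Φ]

end Pool.Agent.Work.MP_574bbd_an.RK
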