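import Mathlib
import Pool.Agent.Work.MP_574bbd_an.RK.Stmts

/-!
# MP_574bbd_an, block RK, item LAW2 (helper58): the joint law for the shift with base `Fin m → L`
-/

set_option autoImplicit false

namespace Pool.Agent.Work.MP_574bbd_an.RK

open MeasureTheory

namespace ILAW2

theorem key {N L : Type} (m : ℕ) [MeasurableSpace L] (ν : Measure L) [IsProbabilityMeasure ν]
    (A : Set (N × Fin m → L)) :
    (Measure.infinitePi fun _ : N => Measure.pi fun _ : Fin m => ν).real
      {y : N → Fin m → L | (fun p : N × Fin m => y p.1 p.2) ∈ A} =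
    (Measure.infinitePi fun _ : N × Fin m => ν).real A := by
  have e : (Measure.infinitePi fun _ : Fin m => ν) = Measure.pi fun _ : Fin m => ν :=
    Measure.infinitePi_eq_pi _
  have h1 := Measure.infinitePi_map_curry_symm (ι := N) (κ := Fin m) (fun _ _ => ν)
  rw [← h1, measureReal_def, measureReal_def, MeasurableEquiv.map_apply]
  simp only [e]
  rfl

end ILAW2

open ILAW2 in
theorem pr_LAW2 (h : S_LAW) : S_LAW2 := by
  intro ι N S' L m _ _ _ _ _ ν _ s s' hp Φ
  rw [← h ι (N × Fin m) S' L ν s s' hp Φ]
  exact key m ν {x : N × Fin m → L | (fun i => x (s i)) ∈ Φ}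

end Pool.Agent.Work.MP_574bbd_an.RK
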