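import Mathlib
import Pool.Agent.Work.MP_574bbd_an.RK.Stmts

/-! Item MP of block RK: the shift preserves the Bernoulli measure. -/

set_option autoImplicit false

namespace Pool.Agent.Work.MP_574bbd_an.RK

open MeasureTheory

theorem pr_MP : S_MP := by
  intro G L _ _ ν _ g
  have h1 := Measure.infinitePi_map_piCongrLeft (μ := fun _ : G => ν) (Equiv.mulRight g).symm
  have h2 : (fun x : Sh G L => g • x) =
      (MeasurableEquiv.piCongrLeft (fun _ : G => L) (Equiv.mulRight g).symm :
        (G → L) → (G → L)) := by
    funext x
    funext h
    have h3 := MeasurableEquiv.piCongrLeft_apply_apply (β := fun _ : G => L)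
      (Equiv.mulRight g).symm (show G → L from x) (h * g)
    have h4 : (Equiv.mulRight g).symm (h * g) = h := by
      rw [Equiv.symm_apply_eq]
      rfl
    rw [h4] at h3
    exact h3.symm
  constructor
  · rw [h2]
    exact (MeasurableEquiv.piCongrLeft (fun _ : G => L) (Equiv.mulRight g).symm).measurable
  · rw [h2]
    exact h1

end Pool.Agent.Work.MP_574bbd_an.RK
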