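import Mathlib
import Pool.Agent.Work.MP_574bbd_an.RK.Stmts

/-!
# MP_574bbd_an, block RK, item NAT (helper58): no atoms
-/

set_option autoImplicit false

namespace Pool.Agent.Work.MP_574bbd_an.RK

open MeasureTheory

namespace INAT

theorem inj {G X : Type} [Group G] [MeasurableSpace X] [MulAction G X] {μ : Measure X}
    (h : FMP G μ) {x : X} (hx : μ {x} ≠ 0) : Function.Injective fun g : G => g • x := by
  intro g k hgk
  by_contra hne
  have h1 : k⁻¹ * g ≠ 1 := fun h2 => hne (inv_mul_eq_one.1 h2).symm
  have h2 : (k⁻¹ * g) • x = x := by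
    rw [mul_smul]
    have h3 : g • x = k • x := hgk
    rw [h3, inv_smul_smul]
  refine hx (measure_mono_null ?_ (h.2 _ h1))
  rintro y rfl
  exact h2

theorem val {G X : Type} [Group G] [MeasurableSpace X] [MeasurableSingletonClass X]
    [MulAction G X] {μ : Measure X} (h : FMP G μ) (x : X) (g : G) : μ {g • x} = μ {x} := by
  have h1 := (h.1 g).measure_preimage (measurableSet_singleton (g • x)).nullMeasurableSet
  rw [← h1]
  congr 1
  ext y
  simp

end INAT

open INAT in
theorem pr_NAT : S_NAT := by
  intro G X _ _ _ _ _ μ _ h x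
  by_contra hx
  have hi := inj h hx
  set f := Infinite.natEmbedding G
  have hd : Pairwise (Function.onFun Disjoint fun n : ℕ => ({f n • x} : Set X)) := by
    intro m n hmn
    rw [Function.onFun, Set.disjoint_singleton]
    exact fun h1 => hmn (f.injective (hi h1))
  have h1 := measure_iUnion (μ := μ) hd fun n => measurableSet_singleton (f n • x)
  have h2 : ∑' n : ℕ, μ {f n • x} = ⊤ := by
    have h3 : (fun n : ℕ => μ {f n • x}) = fun _ => μ {x} := funext fun n => val h x (f n)
    rw [h3]
    exact ENNReal.tsum_const_eq_top_of_ne_zero hx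
  rw [h2] at h1
  exact measure_ne_top μ _ h1

end Pool.Agent.Work.MP_574bbd_an.RK
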