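import Mathlib
import Pool.Agent.Work.MP_574bbd_an.RK.Stmts

/-!
# Item ONE of block RK: one set
-/

set_option autoImplicit false

namespace Pool.Agent.Work.MP_574bbd_an.RK

open MeasureTheory

namespace IONE

theorem LM_pair {X K K' : Type} [MeasurableSpace X] {f : X → K} {g : X → K'} (hf : LM f)
    (hg : LM g) : LM (fun x => (f x, g x)) := by
  rintro ⟨k, l⟩
  have h : (fun x => (f x, g x)) ⁻¹' {(k, l)} = f ⁻¹' {k} ∩ g ⁻¹' {l} := by
    ext x
    simp only [Set.mem_preimage, Set.mem_singleton_iff, Prod.mk.injEq, Set.mem_inter_iff]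
  rw [h]
  exact (hf k).inter (hg l)

theorem LM_fam {X K : Type} [MeasurableSpace X] {n : ℕ} {f : Fin n → X → K}
    (hf : ∀ i, LM (f i)) : LM (fun x i => f i x) := by
  intro u
  have h : (fun x i => f i x) ⁻¹' {u} = ⋂ i : Fin n, (f i) ⁻¹' {u i} := by
    ext x
    simp only [Set.mem_preimage, Set.mem_singleton_iff, Set.mem_iInter]
    exact ⟨fun h i => congrFun h i, fun h => funext h⟩
  rw [h]
  exact MeasurableSet.iInter fun i => hf i (u i)

theorem LM_comp {X K K' : Type} [MeasurableSpace X] [Finite K] {f : X → K} (F : K → K')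
    (hf : LM f) : LM (fun x => F (f x)) := by
  intro k'
  have h : (fun x => F (f x)) ⁻¹' {k'} = ⋃ k : K, ⋃ _ : F k = k', f ⁻¹' {k} := by
    ext x
    simp only [Set.mem_preimage, Set.mem_singleton_iff, Set.mem_iUnion, exists_prop]
    exact ⟨fun h => ⟨f x, h, rfl⟩, fun ⟨k, h1, h2⟩ => by rw [h2, h1]⟩
  rw [h]
  exact MeasurableSet.iUnion fun k => MeasurableSet.iUnion fun _ => hf k

theorem LM_smul {G X K : Type} [Group G] [MeasurableSpace X] [MulAction G X]
    (hmeas : ∀ g : G, Measurable fun x : X => g • x) {f : X → K} (hf : LM f) (g : G) :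
    LM (fun x => f (g • x)) := fun k => hmeas g (hf k)

theorem LM_enc {G X : Type} [Group G] [MeasurableSpace X] [MulAction G X]
    (hmeas : ∀ g : G, Measurable fun x : X => g • x) (c : Cd G Bool) {β : X → Bool}
    (hβ : LM β) : LM (enc c β) :=
  LM_comp c.φ (LM_fam fun i => LM_smul hmeas hβ (c.w i))

theorem LM_dec {G X : Type} [Group G] [MeasurableSpace X] [MulAction G X]
    (hmeas : ∀ g : G, Measurable fun x : X => g • x) (c : Cd G Bool) {β : X → Bool}
    (hβ : LM β) : LM (dec c β) :=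
  LM_comp c.D (LM_fam fun j => LM_smul hmeas (LM_enc hmeas c hβ) (c.f j))

theorem xor_ne (a b : Bool) : xor a b ≠ false ↔ a ≠ b := by
  cases a <;> cases b <;> simp

theorem xor_back (a b : Bool) : xor a (xor a b) = b := by
  cases a <;> cases b <;> rfl

end IONE

open IONE in
/-- ONE -/
theorem pr_ONE (h1 : S_APP) (h2 : S_LAB) (h3 : S_E1) (h4 : S_E2) (h5 : S_E6) : S_ONE := by
  intro G _ _ hcodes X _ _ _ μ _ hF ξ hξ κ hκ
  obtain ⟨δ₀, hδ₀, hE6⟩ := h5 Bool (κ / 8) (by positivity)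
  have hη : 0 < min (κ / 8) (δ₀ / 2) := lt_min (by positivity) (by positivity)
  have hη1 : min (κ / 8) (δ₀ / 2) ≤ κ / 8 := min_le_left _ _
  have hη2 : min (κ / 8) (δ₀ / 2) ≤ δ₀ / 2 := min_le_right _ _
  set η := min (κ / 8) (δ₀ / 2) with hηdef
  obtain ⟨c, hc⟩ := hcodes η hη
  obtain ⟨γ, r, e, hγ, he, hAPP⟩ := h1 G c η η hc η hη
  obtain ⟨β, hβ, hN1, hN2⟩ := h2 G X μ hF r e he ξ hξ γ hγ
  have hmeas : ∀ g : G, Measurable fun x : X => g • x := fun g => (hF.1 g).measurable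
  have hζ : LM (fun x => xor (β x) (ξ x)) :=
    LM_comp (fun p : Bool × Bool => xor p.1 p.2) (LM_pair hβ hξ)
  obtain ⟨a1, a2⟩ := hAPP X μ hmeas β hβ hN1
  obtain ⟨b1, b2⟩ := hAPP X μ hmeas (fun x => xor (β x) (ξ x)) hζ hN2
  set ζ : X → Bool := fun x => xor (β x) (ξ x) with hζdef
  have hl1 : LM (fun x => xor (dec c β x) (β x)) :=
    LM_comp (fun p : Bool × Bool => xor p.1 p.2) (LM_pair (LM_dec hmeas c hβ) hβ)
  have hl2 : LM (fun x => xor (dec c ζ x) (ζ x)) :=
    LM_comp (fun p : Bool × Bool => xor p.1 p.2) (LM_pair (LM_dec hmeas c hζ) hζ)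
  have hf1 : HF μ (fun x => xor (dec c β x) (β x)) ≤ κ / 8 := by
    refine hE6 X μ _ false hl1 ?_
    have hs : {x | xor (dec c β x) (β x) ≠ false} = {x | dec c β x ≠ β x} := by
      ext x
      exact xor_ne _ _
    rw [hs]
    linarith
  have hf2 : HF μ (fun x => xor (dec c ζ x) (ζ x)) ≤ κ / 8 := by
    refine hE6 X μ _ false hl2 ?_
    have hs : {x | xor (dec c ζ x) (ζ x) ≠ false} = {x | dec c ζ x ≠ ζ x} := by
      ext x
      exact xor_ne _ _
    rw [hs]
    linarith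
  have he1 : LM (enc c β) := LM_enc hmeas c hβ
  have he2 : LM (enc c ζ) := LM_enc hmeas c hζ
  have hp1 : LM (fun x => (enc c β x, enc c ζ x)) := LM_pair he1 he2
  have hp2 : LM (fun x => (xor (dec c β x) (β x), xor (dec c ζ x) (ζ x))) := LM_pair hl1 hl2
  have hs1 := h3 X (Fin c.k) (Fin c.k) μ (enc c β) (enc c ζ) he1 he2
  have hs2 := h3 X Bool Bool μ (fun x => xor (dec c β x) (β x))
    (fun x => xor (dec c ζ x) (ζ x)) hl1 hl2
  have hs3 := h3 X (Fin c.k × Fin c.k) (Bool × Bool) μ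
    (fun x => (enc c β x, enc c ζ x))
    (fun x => (xor (dec c β x) (β x), xor (dec c ζ x) (ζ x))) hp1 hp2
  set θ₀ : X → (Fin c.k × Fin c.k) × (Bool × Bool) := fun x =>
    ((enc c β x, enc c ζ x), (xor (dec c β x) (β x), xor (dec c ζ x) (ζ x))) with hθ₀
  have hLM0 : LM θ₀ := LM_pair hp1 hp2
  obtain ⟨k1, k2, -⟩ := h4 X ((Fin c.k × Fin c.k) × (Bool × Bool))
    (Fin (Fintype.card ((Fin c.k × Fin c.k) × (Bool × Bool)))) μ θ₀
    (Fintype.equivFin ((Fin c.k × Fin c.k) × (Bool × Bool))) hLM0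
  refine ⟨Fintype.card ((Fin c.k × Fin c.k) × (Bool × Bool)),
    fun x => Fintype.equivFin ((Fin c.k × Fin c.k) × (Bool × Bool)) (θ₀ x), k1, ?_, ?_⟩
  · refine k2.trans ?_
    have hs3' : HF μ θ₀ ≤ HF μ (fun x => (enc c β x, enc c ζ x)) +
        HF μ (fun x => (xor (dec c β x) (β x), xor (dec c ζ x) (ζ x))) := hs3
    linarith
  · refine ⟨c.q + 1, Fin.cons 1 c.f, fun v =>
      xor
        (xor (c.D fun j => ((Fintype.equivFin ((Fin c.k × Fin c.k) × (Bool × Bool))).symm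
          (v j.succ)).1.1)
          ((Fintype.equivFin ((Fin c.k × Fin c.k) × (Bool × Bool))).symm (v 0)).2.1)
        (xor (c.D fun j => ((Fintype.equivFin ((Fin c.k × Fin c.k) × (Bool × Bool))).symm
          (v j.succ)).1.2)
          ((Fintype.equivFin ((Fin c.k × Fin c.k) × (Bool × Bool))).symm (v 0)).2.2), ?_⟩
    intro x
    simp only [Fin.cons_succ, Fin.cons_zero, Equiv.symm_apply_apply, one_smul]
    have hd1 : (c.D fun j => (θ₀ (c.f j • x)).1.1) = dec c β x := rfl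
    have hd2 : (c.D fun j => (θ₀ (c.f j • x)).1.2) = dec c ζ x := rfl
    have hd3 : (θ₀ x).2.1 = xor (dec c β x) (β x) := rfl
    have hd4 : (θ₀ x).2.2 = xor (dec c ζ x) (ζ x) := rfl
    rw [hd1, hd2, hd3, hd4, xor_back, xor_back]
    exact xor_back (β x) (ξ x)

end Pool.Agent.Work.MP_574bbd_an.RK
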