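import Mathlib
import Pool.Agent.Work.MP_574bbd_an.RK.Stmts

/-!
# MP_574bbd_an, block RK, item PB: positive entropy from the Bernoulli shift
-/

set_option autoImplicit false

namespace Pool.Agent.Work.MP_574bbd_an.RK

open MeasureTheory

theorem pr_PB (h1 : S_MP) (h2 : S_FR) (h3 : S_EG) : S_PB := by
  intro G _ _ _ ε hε hLB
  exact ⟨Sh G Bool, inferInstance, inferInstanceAs (StandardBorelSpace (G → Bool)),
    bm G coin, inferInstance, inferInstance, fun g => h1 G Bool coin g, fun g hg => h2 G g hg,
    fun s hs hinv => h3 G Bool coin s hs hinv, ε, hε, hLB⟩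

end Pool.Agent.Work.MP_574bbd_an.RK
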