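import Mathlib
import Pool.Agent.Work.MP_574bbd_an.RK.Stmts

/-!
# MP_574bbd_an, block RK, item PIH: entropy of a power
-/

set_option autoImplicit false

namespace Pool.Agent.Work.MP_574bbd_an.RK

open MeasureTheory

namespace IPIH

/-- the power of a finite distribution -/
theorem sum_pow (L : Type) [Fintype L] (p : L → ℝ) (hp : ∑ l, p l = 1) (m : ℕ) :
    ∑ u : Fin m → L, ∏ i, p (u i) = 1 := by
  rw [← Fintype.sum_pow, hp, one_pow]

/-- the entropy of the power of a finite distribution -/
theorem ent_pow (L : Type) [Fintype L] (p : L → ℝ) (hp : ∑ l, p l = 1) (m : ℕ) :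
    ∑ u : Fin m → L, Real.negMulLog (∏ i, p (u i)) = m * ∑ l, Real.negMulLog (p l) := by
  induction m with
  | zero => simp
  | succ m ih =>
    rw [← (Fin.consEquiv fun _ : Fin (m + 1) => L).sum_comp, Fintype.sum_prod_type]
    have h1 : ∀ (l : L) (u : Fin m → L), Real.negMulLog (∏ i : Fin (m + 1),
        p (((Fin.consEquiv fun _ : Fin (m + 1) => L) (l, u)) i)) =
        (∏ i, p (u i)) * Real.negMulLog (p l) + p l * Real.negMulLog (∏ i, p (u i)) := by
      intro l u
      rw [Fin.prod_univ_succ, ← Real.negMulLog_mul]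
      rfl
    simp only [h1]
    have h2 : ∀ l, ∑ u : Fin m → L, ((∏ i, p (u i)) * Real.negMulLog (p l) +
        p l * Real.negMulLog (∏ i, p (u i))) =
        Real.negMulLog (p l) + p l * (m * ∑ l, Real.negMulLog (p l)) := by
      intro l
      rw [Finset.sum_add_distrib, ← Finset.sum_mul, ← Finset.mul_sum, ih, sum_pow L p hp m, one_mul]
    simp only [h2]
    rw [Finset.sum_add_distrib, ← Finset.sum_mul, hp]
    push_cast
    ring

end IPIH

theorem pr_PIH : S_PIH := by
  intro L _ _ _ ν _ m
  have hp : ∑ l, ν.real {l} = 1 := by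
    have := sum_measureReal_singleton (μ := ν) (Finset.univ : Finset L)
    rw [this]
    simp
  have h1 : ∀ u : Fin m → L, (Measure.pi fun _ : Fin m => ν).real
      ((fun u : Fin m → L => u) ⁻¹' {u}) = ∏ i, ν.real {u i} := by
    intro u
    show ((Measure.pi fun _ : Fin m => ν) {u}).toReal = _
    rw [Measure.pi_singleton, ENNReal.toReal_prod]
    rfl
  unfold HF
  simp only [h1]
  exact IPIH.ent_pow L (fun l => ν.real {l}) hp m

end Pool.Agent.Work.MP_574bbd_an.RK
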