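import Mathlib
import Pool.Agent.Work.MP_574bbd_an.RK.Stmts

/-!
# Block RK, item SEP: a separating partition
-/

set_option autoImplicit false

namespace Pool.Agent.Work.MP_574bbd_an.RK

open MeasureTheory Filter Topology

namespace ISEP

/-- The two digit sequences agree up to `n`. -/
def ag {Y : Type} (f g : Y → ℕ → Bool) (n : ℕ) : Set Y := {y | ∀ k < n, f y k = g y k}

theorem ag_meas {Y : Type} [MeasurableSpace Y] {f g : Y → ℕ → Bool} (hf : Measurable f)
    (hg : Measurable g) (n : ℕ) : MeasurableSet (ag f g n) := by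
  have h1 : ag f g n = ⋂ k ∈ Finset.range n, {y | f y k = g y k} := by
    ext y
    simp [ag]
  rw [h1]
  apply Finset.measurableSet_biInter
  intro k _
  have h2 : {y | f y k = g y k} = ⋃ b : Bool, {y | f y k = b} ∩ {y | g y k = b} := by
    ext y
    simp only [Set.mem_ofPred_eq, Set.mem_iUnion, Set.mem_inter_iff]
    exact ⟨fun h => ⟨g y k, h, rfl⟩, fun ⟨b, h1, h2⟩ => h1.trans h2.symm⟩
  rw [h2]
  apply MeasurableSet.iUnion
  intro b
  exact ((measurable_pi_iff.1 hf k) (measurableSet_singleton b)).inter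
    ((measurable_pi_iff.1 hg k) (measurableSet_singleton b))

theorem ag_inter {Y : Type} (f g : Y → ℕ → Bool) : ⋂ n, ag f g n = {y | f y = g y} := by
  ext y
  simp only [ag, Set.mem_iInter, Set.mem_ofPred_eq]
  constructor
  · intro h
    funext k
    exact h (k + 1) k (Nat.lt_succ_self k)
  · intro h n k _
    rw [h]

theorem eq_meas {Y : Type} [MeasurableSpace Y] {f g : Y → ℕ → Bool} (hf : Measurable f)
    (hg : Measurable g) : MeasurableSet {y | f y = g y} := by
  rw [← ag_inter]
  exact MeasurableSet.iInter fun n => ag_meas hf hg n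

theorem ag_tendsto {Y : Type} [MeasurableSpace Y] (ρ : Measure Y) [IsProbabilityMeasure ρ]
    {f g : Y → ℕ → Bool} (hf : Measurable f) (hg : Measurable g) (h : ρ {y | f y = g y} = 0) :
    Tendsto (fun n => ρ.real (ag f g n)) atTop (𝓝 0) := by
  have h1 := tendsto_measure_iInter_atTop (μ := ρ) (s := ag f g)
    (fun n => (ag_meas hf hg n).nullMeasurableSet)
    (fun m n hmn y hy k hk => hy k (hk.trans_le hmn)) ⟨0, measure_ne_top _ _⟩
  rw [ag_inter, h] at h1
  have h2 := (ENNReal.tendsto_toReal ENNReal.zero_ne_top).comp h1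
  exact h2

theorem union_tendsto {Y ι : Type} [Fintype ι] [MeasurableSpace Y] (ρ : Measure Y)
    [IsProbabilityMeasure ρ] (f g : ι → Y → ℕ → Bool) (hf : ∀ i, Measurable (f i))
    (hg : ∀ i, Measurable (g i)) (s : Finset ι) (h : ∀ i ∈ s, ρ {y | f i y = g i y} = 0) :
    Tendsto (fun n => ρ.real (⋃ i ∈ s, ag (f i) (g i) n)) atTop (𝓝 0) := by
  have h1 : Tendsto (fun n => ∑ i ∈ s, ρ.real (ag (f i) (g i) n)) atTop
      (𝓝 (∑ _i ∈ s, (0 : ℝ))) :=
    tendsto_finsetSum s fun i hi => ag_tendsto ρ (hf i) (hg i) (h i hi)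
  rw [Finset.sum_const_zero] at h1
  refine squeeze_zero (fun n => measureReal_nonneg) (fun n => ?_) h1
  exact measureReal_biUnion_finset_le s _

end ISEP

open ISEP in
/-- Item SEP. -/
theorem pr_SEP (h : S_NAT) : S_SEP := by
  classical
  intro G X _ _ _ _ _ μ _ hμ r e he η hη
  obtain ⟨ψ, hψ, hψi⟩ := MeasurableSpace.measurable_injection_nat_bool_of_countablySeparated X
  have hact : ∀ g : G, Measurable fun x : X => g • x := fun g => (hμ.1 g).measurable
  have h1 := union_tendsto μ (ι := Fin r × Fin r) (fun p x => ψ (e p.1 • x))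
    (fun p x => ψ (e p.2 • x)) (fun p => hψ.comp (hact _)) (fun p => hψ.comp (hact _))
    (Finset.univ.filter fun p => p.1 ≠ p.2) (by
      intro p hp
      have hne : (e p.2)⁻¹ * e p.1 ≠ 1 := by
        intro h1
        apply (Finset.mem_filter.1 hp).2
        apply he
        exact (inv_mul_eq_one.1 h1).symm
      refine measure_mono_null ?_ (hμ.2 _ hne)
      intro x hx
      have h2 : e p.1 • x = e p.2 • x := hψi hx
      show ((e p.2)⁻¹ * e p.1) • x = x
      rw [mul_smul, h2, inv_smul_smul])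
  have h2 := union_tendsto (μ.prod μ) (ι := Fin r × Fin r) (fun p z => ψ (e p.1 • z.1))
    (fun p z => ψ (e p.2 • z.2)) (fun p => hψ.comp ((hact _).comp measurable_fst))
    (fun p => hψ.comp ((hact _).comp measurable_snd)) Finset.univ (by
      intro p _
      have hm : MeasurableSet {z : X × X | ψ (e p.1 • z.1) = ψ (e p.2 • z.2)} :=
        eq_meas (hψ.comp ((hact _).comp measurable_fst)) (hψ.comp ((hact _).comp measurable_snd))
      refine (Measure.measure_prod_null hm).2 ?_
      refine Filter.Eventually.of_forall fun x => ?_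
      refine measure_mono_null (t := {(e p.2)⁻¹ • e p.1 • x}) ?_ (h G X μ hμ _)
      intro y hy
      have h3 : e p.1 • x = e p.2 • y := hψi hy
      rw [Set.mem_singleton_iff, h3, inv_smul_smul])
  obtain ⟨n, hn1, hn2⟩ := ((h1.eventually (gt_mem_nhds hη)).and
    (h2.eventually (gt_mem_nhds hη))).exists
  let E : (Fin n → Bool) ≃ Fin (Fintype.card (Fin n → Bool)) := Fintype.equivFin _
  have hP : ∀ x y : X, E (fun i : Fin n => ψ x i) = E (fun i : Fin n => ψ y i) →
      ∀ k < n, ψ x k = ψ y k := by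
    intro x y hxy k hk
    exact congrFun (E.injective hxy) ⟨k, hk⟩
  refine ⟨Fintype.card (Fin n → Bool), fun x => E fun i : Fin n => ψ x i, ?_, ?_, ?_⟩
  · intro k
    have h3 : (fun x => E fun i : Fin n => ψ x i) ⁻¹' {k} =
        ⋂ i : Fin n, {x | ψ x i = E.symm k i} := by
      ext x
      simp only [Set.mem_preimage, Set.mem_singleton_iff, Set.mem_iInter, Set.mem_ofPred_eq]
      rw [← Equiv.eq_symm_apply]
      exact funext_iff
    rw [h3]
    apply MeasurableSet.iInter
    intro i
    exact (measurable_pi_iff.1 hψ i) (measurableSet_singleton (E.symm k i))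
  · refine le_trans (measureReal_mono ?_ (measure_ne_top _ _)) hn1.le
    rintro x ⟨i, j, hij, hx⟩
    rw [Set.mem_iUnion₂]
    exact ⟨(i, j), Finset.mem_filter.2 ⟨Finset.mem_univ _, hij⟩, hP _ _ hx⟩
  · refine le_trans (measureReal_mono ?_ (measure_ne_top _ _)) hn2.le
    rintro z ⟨i, j, hz⟩
    rw [Set.mem_iUnion₂]
    exact ⟨(i, j), Finset.mem_univ _, hP _ _ hz⟩

end Pool.Agent.Work.MP_574bbd_an.RK
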