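import Mathlib
import Pool.Agent.Work.MP_574bbd_an.RK.Stmts

set_option autoImplicit false

namespace Pool.Agent.Work.MP_574bbd_an.RK

open MeasureTheory

theorem pr_UU (h1 : S_GC) (h2 : S_COD) (h3 : S_INF) (h4 : S_ZER) : S_UU := by
  intro U _ hU hpos
  by_contra hcon
  have hcode : ∀ ε : ℝ, 0 < ε → ∃ c : Cd U Bool, IsCd coin ε ε c := by
    intro ε hε
    have hG : ∃ (G : Type) (_ : Group G), ¬ LB G (bm G coin) (ε / 2) := by
      by_contra hno
      apply hcon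
      refine ⟨ε / 2, by linarith, fun G _ _ _ => ?_⟩
      by_contra hLB
      exact hno ⟨G, inferInstance, hLB⟩
    obtain ⟨G, _, hLB⟩ := hG
    unfold LB at hLB
    push Not at hLB
    obtain ⟨α, hα, hgen, hsum, hlt⟩ := hLB
    obtain ⟨c, hc⟩ := h1 G Bool coin α (ε / 2) hα hgen hsum hlt.le (ε / 2) (by linarith)
    obtain ⟨c', hc'⟩ := h2 U hU G Bool coin (ε / 2 + ε / 2) (ε / 2) c hc
    exact ⟨c', hc'.1.trans (by linarith), hc'.2.trans (by linarith)⟩
  have hinf : Infinite U := h3 U hU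
  obtain ⟨X, _, _, μ, _, _, hmp, hfree, -, ε, hε, hLB⟩ := hpos
  obtain ⟨α, hα, hgen, hsum, hle⟩ := h4 U hcode X μ ⟨hmp, hfree⟩ (ε / 2) (by linarith)
  have h5 := hLB α hα hgen hsum
  linarith

end Pool.Agent.Work.MP_574bbd_an.RK
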