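import Mathlib
import Pool.Agent.Work.MP_574bbd_an.RK.Stmts

/-!
# MP_574bbd_an, block RK, item VAR
-/

set_option autoImplicit false

namespace Pool.Agent.Work.MP_574bbd_an.RK

open MeasureTheory

namespace IVAR

open Classical in
/-- the indicator of a proposition -/
noncomputable def ind (p : Prop) : ℝ := if p then 1 else 0

theorem ind_pos {p : Prop} (h : p) : ind p = 1 := if_pos h

theorem ind_neg {p : Prop} (h : ¬ p) : ind p = 0 := if_neg h

theorem ind_nonneg (p : Prop) : 0 ≤ ind p := by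
  unfold ind
  split_ifs <;> norm_num

theorem ind_le (p : Prop) : ind p ≤ 1 := by
  unfold ind
  split_ifs <;> norm_num

open Classical in
theorem real_eq {X Ω : Type} [MeasurableSpace X] [Fintype Ω] (μ : Measure X)
    [IsProbabilityMeasure μ] (Φ : X → Ω) (hΦ : LM Φ) (Q : Ω → Prop) :
    μ.real {x | Q (Φ x)} = ∑ ω, μ.real (Φ ⁻¹' {ω}) * ind (Q ω) := by
  have h1 : {x | Q (Φ x)} = ⋃ ω ∈ Finset.univ.filter Q, Φ ⁻¹' {ω} := by
    ext x
    simp
  rw [h1, measureReal_biUnion_finset]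
  · rw [Finset.sum_filter]
    refine Finset.sum_congr rfl fun ω _ => ?_
    by_cases h : Q ω
    · rw [if_pos h, ind_pos h, mul_one]
    · rw [if_neg h, ind_neg h, mul_zero]
  · intro a _ b _ hab
    show Disjoint _ _
    rw [Set.disjoint_left]
    intro x hx hx'
    exact hab (hx.symm.trans hx')
  · intro a _
    exact hΦ a

section fin
variable {M r : ℕ}

/-- the condition -/
noncomputable def cnd (b : Fin M → Bool) (ω : Fin r → Fin M × Bool) : ℝ :=
  ind (∀ i, b (ω i).1 = (ω i).2)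

/-- bad -/
noncomputable def bd (ω : Fin r → Fin M × Bool) : ℝ := ind (∃ i j, i ≠ j ∧ (ω i).1 = (ω j).1)

/-- collision -/
noncomputable def cl (ω ω' : Fin r → Fin M × Bool) : ℝ := ind (∃ i j, (ω i).1 = (ω' j).1)

open Classical in
theorem sum_cnd (ω : Fin r → Fin M × Bool) : ∑ b : Fin M → Bool, cnd b ω =
    ((Finset.univ.filter fun b : Fin M → Bool => ∀ i, b (ω i).1 = (ω i).2).card : ℝ) := by
  rw [Finset.card_filter, Nat.cast_sum]
  refine Finset.sum_congr rfl fun b _ => ?_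
  by_cases a1 : ∀ i, b (ω i).1 = (ω i).2
  · rw [cnd, ind_pos a1, if_pos a1, Nat.cast_one]
  · rw [cnd, ind_neg a1, if_neg a1, Nat.cast_zero]

open Classical in
theorem N1_ge (h : S_CNT) (ω : Fin r → Fin M × Bool) :
    2 ^ M * ((1 / 2) ^ r - bd ω) ≤ ∑ b : Fin M → Bool, cnd b ω := by
  rw [sum_cnd]
  by_cases hb : ∃ i j, i ≠ j ∧ (ω i).1 = (ω j).1
  · rw [bd, ind_pos hb]
    have h1 : ((1 : ℝ) / 2) ^ r ≤ 1 := pow_le_one₀ (by norm_num) (by norm_num)
    have h2 : (0 : ℝ) ≤ 2 ^ M := by positivity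
    have h3 : (2 : ℝ) ^ M * ((1 / 2) ^ r - 1) ≤ 0 :=
      mul_nonpos_of_nonneg_of_nonpos h2 (by linarith)
    exact h3.trans (Nat.cast_nonneg _)
  · rw [bd, ind_neg hb]
    have hinj : Function.Injective fun i => (ω i).1 := by
      intro i j hij
      by_contra hne
      exact hb ⟨i, j, hne, hij⟩
    have h1 := h M r (fun i => (ω i).1) (fun i => (ω i).2) hinj
    have h2 : ((Finset.univ.filter fun b : Fin M → Bool => ∀ i, b (ω i).1 = (ω i).2).card : ℝ) *
        2 ^ r = 2 ^ M := by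
      exact_mod_cast h1
    rw [sub_zero, ← h2, mul_assoc, ← mul_pow]
    norm_num

open Classical in
theorem N2_le (h : S_CNT) (ω ω' : Fin r → Fin M × Bool) :
    ∑ b : Fin M → Bool, cnd b ω * cnd b ω' ≤
    2 ^ M * ((1 / 2) ^ r * (1 / 2) ^ r + bd ω + bd ω' + cl ω ω') := by
  have hle : ∑ b : Fin M → Bool, cnd b ω * cnd b ω' ≤ 2 ^ M := by
    calc _ ≤ ∑ b : Fin M → Bool, (1 : ℝ) := by
          refine Finset.sum_le_sum fun b _ => ?_
          exact mul_le_one₀ (ind_le _) (ind_nonneg _) (ind_le _)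
      _ = 2 ^ M := by simp
  have hp : (0 : ℝ) ≤ (1 / 2) ^ r * (1 / 2) ^ r := by positivity
  have h2 : (0 : ℝ) ≤ 2 ^ M := by positivity
  have a0 : 0 ≤ bd ω := ind_nonneg _
  have a0' : 0 ≤ bd ω' := ind_nonneg _
  have a0'' : 0 ≤ cl ω ω' := ind_nonneg _
  have key : ∀ a : ℝ, 1 ≤ a → ∑ b : Fin M → Bool, cnd b ω * cnd b ω' ≤ 2 ^ M * a := fun a ha =>
    hle.trans (le_mul_of_one_le_right h2 ha)
  by_cases h1 : ∃ i j, i ≠ j ∧ (ω i).1 = (ω j).1
  · have e1 : bd ω = 1 := ind_pos h1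
    exact key _ (by linarith)
  by_cases h1' : ∃ i j, i ≠ j ∧ (ω' i).1 = (ω' j).1
  · have e1 : bd ω' = 1 := ind_pos h1'
    exact key _ (by linarith)
  by_cases h1'' : ∃ i j, (ω i).1 = (ω' j).1
  · have e1 : cl ω ω' = 1 := ind_pos h1''
    exact key _ (by linarith)
  have hinj : Function.Injective (Fin.append (fun i => (ω i).1) (fun i => (ω' i).1)) := by
    intro i j
    refine Fin.addCases (fun i => ?_) (fun i => ?_) i <;>
      refine Fin.addCases (fun j => ?_) (fun j => ?_) j <;>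
      simp only [Fin.append_left, Fin.append_right]
    · intro hij
      congr 1
      by_contra hne
      exact h1 ⟨i, j, hne, hij⟩
    · intro hij
      exact absurd ⟨i, j, hij⟩ h1''
    · intro hij
      exact absurd ⟨j, i, hij.symm⟩ h1''
    · intro hij
      congr 1
      by_contra hne
      exact h1' ⟨i, j, hne, hij⟩
  have h3 := h M (r + r) _ (Fin.append (fun i => (ω i).2) (fun i => (ω' i).2)) hinj
  have h4 : (Finset.univ.filter fun b : Fin M → Bool => ∀ i,
      b (Fin.append (fun i => (ω i).1) (fun i => (ω' i).1) i) =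
        Fin.append (fun i => (ω i).2) (fun i => (ω' i).2) i) =
      Finset.univ.filter fun b : Fin M → Bool =>
        (∀ i, b (ω i).1 = (ω i).2) ∧ ∀ i, b (ω' i).1 = (ω' i).2 := by
    refine Finset.filter_congr fun b _ => ?_
    constructor
    · intro hb
      refine ⟨fun i => ?_, fun i => ?_⟩
      · have := hb (Fin.castAdd r i)
        rwa [Fin.append_left, Fin.append_left] at this
      · have := hb (Fin.natAdd r i)
        rwa [Fin.append_right, Fin.append_right] at this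
    · rintro ⟨hb, hb'⟩ i
      refine Fin.addCases (fun i => ?_) (fun i => ?_) i
      · rw [Fin.append_left, Fin.append_left]
        exact hb i
      · rw [Fin.append_right, Fin.append_right]
        exact hb' i
  rw [h4] at h3
  have h5 : ∑ b : Fin M → Bool, cnd b ω * cnd b ω' =
      ((Finset.univ.filter fun b : Fin M → Bool =>
        (∀ i, b (ω i).1 = (ω i).2) ∧ ∀ i, b (ω' i).1 = (ω' i).2).card : ℝ) := by
    rw [Finset.card_filter, Nat.cast_sum]
    refine Finset.sum_congr rfl fun b _ => ?_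
    unfold cnd
    by_cases a1 : ∀ i, b (ω i).1 = (ω i).2
    · by_cases a2 : ∀ i, b (ω' i).1 = (ω' i).2
      · rw [ind_pos a1, ind_pos a2, if_pos ⟨a1, a2⟩]
        norm_num
      · rw [ind_neg a2, if_neg fun hh => a2 hh.2]
        norm_num
    · rw [ind_neg a1, if_neg fun hh => a1 hh.1]
      norm_num
  rw [h5]
  have h6 : ((Finset.univ.filter fun b : Fin M → Bool =>
        (∀ i, b (ω i).1 = (ω i).2) ∧ ∀ i, b (ω' i).1 = (ω' i).2).card : ℝ) * 2 ^ (r + r) =
        2 ^ M := by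
    exact_mod_cast h3
  have e1 : bd ω = 0 := ind_neg h1
  have e2 : bd ω' = 0 := ind_neg h1'
  have e3 : cl ω ω' = 0 := ind_neg h1''
  rw [e1, e2, e3, ← h6, add_zero, add_zero, add_zero, ← pow_add, mul_assoc, ← mul_pow]
  norm_num

theorem fin_part (h : S_CNT) (p : (Fin r → Fin M × Bool) → ℝ) (hp : ∀ ω, 0 ≤ p ω)
    (hs : ∑ ω, p ω = 1) :
    ∑ b : Fin M → Bool, ((∑ ω, p ω * cnd b ω) - (1 / 2) ^ r) ^ 2 ≤
    2 ^ M * (4 * (∑ ω, p ω * bd ω) + ∑ ω, ∑ ω', p ω * p ω' * cl ω ω') := by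
  set bad := ∑ ω, p ω * bd ω with hbad
  set col := ∑ ω, ∑ ω', p ω * p ω' * cl ω ω' with hcol
  set S : (Fin M → Bool) → ℝ := fun b => ∑ ω, p ω * cnd b ω with hS
  set c : ℝ := (1 / 2) ^ r with hc
  have hc0 : 0 ≤ c := by positivity
  have hc1 : c ≤ 1 := pow_le_one₀ (by norm_num) (by norm_num)
  have hbad0 : 0 ≤ bad := Finset.sum_nonneg fun ω _ => mul_nonneg (hp ω) (ind_nonneg _)
  have h1 : 2 ^ M * (c - bad) ≤ ∑ b, S b := by
    have e1 : ∑ b, S b = ∑ ω, p ω * ∑ b : Fin M → Bool, cnd b ω := by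
      simp only [hS]
      rw [Finset.sum_comm]
      refine Finset.sum_congr rfl fun ω _ => ?_
      rw [Finset.mul_sum]
    rw [e1]
    calc 2 ^ M * (c - bad) = ∑ ω, p ω * (2 ^ M * (c - bd ω)) := by
          have : ∀ ω, p ω * (2 ^ M * (c - bd ω)) =
            2 ^ M * c * p ω - 2 ^ M * (p ω * bd ω) := fun ω => by ring
          rw [Finset.sum_congr rfl fun ω _ => this ω, Finset.sum_sub_distrib, ← Finset.mul_sum,
            ← Finset.mul_sum, hs]
          ring
      _ ≤ _ := Finset.sum_le_sum fun ω _ => mul_le_mul_of_nonneg_left (N1_ge h ω) (hp ω)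
  have h2 : ∑ b, S b * S b ≤ 2 ^ M * (c * c + 2 * bad + col) := by
    have e1 : ∑ b, S b * S b = ∑ ω, ∑ ω', p ω * p ω' *
        ∑ b : Fin M → Bool, cnd b ω * cnd b ω' := by
      simp only [hS]
      simp_rw [Finset.sum_mul_sum]
      rw [Finset.sum_comm]
      refine Finset.sum_congr rfl fun ω _ => ?_
      rw [Finset.sum_comm]
      refine Finset.sum_congr rfl fun ω' _ => ?_
      rw [Finset.mul_sum]
      refine Finset.sum_congr rfl fun b _ => ?_
      ring
    rw [e1]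
    calc _ ≤ ∑ ω, ∑ ω', p ω * p ω' * (2 ^ M * (c * c + bd ω + bd ω' + cl ω ω')) :=
          Finset.sum_le_sum fun ω _ => Finset.sum_le_sum fun ω' _ =>
            mul_le_mul_of_nonneg_left (N2_le h ω ω') (mul_nonneg (hp ω) (hp ω'))
      _ = 2 ^ M * (c * c + 2 * bad + col) := by
          have e2 : ∀ ω, ∑ ω', p ω * p ω' * (2 ^ M * (c * c + bd ω + bd ω' + cl ω ω')) =
              2 ^ M * ((c * c) * p ω + p ω * bd ω + p ω * bad + ∑ ω', p ω * p ω' * cl ω ω') := by
            intro ω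
            have : ∀ ω', p ω * p ω' * (2 ^ M * (c * c + bd ω + bd ω' + cl ω ω')) =
              (2 ^ M * ((c * c) * p ω + p ω * bd ω)) * p ω' + (2 ^ M * p ω) * (p ω' * bd ω') +
                2 ^ M * (p ω * p ω' * cl ω ω') := fun ω' => by ring
            rw [Finset.sum_congr rfl fun ω' _ => this ω', Finset.sum_add_distrib,
              Finset.sum_add_distrib, ← Finset.mul_sum, ← Finset.mul_sum, ← Finset.mul_sum, hs]
            ring
          rw [Finset.sum_congr rfl fun ω _ => e2 ω, ← Finset.mul_sum, Finset.sum_add_distrib,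
            Finset.sum_add_distrib, Finset.sum_add_distrib, ← Finset.mul_sum, ← Finset.sum_mul,
            hs, ← hbad, ← hcol]
          ring
  have h3 : ∑ b, (S b - c) ^ 2 = ∑ b, S b * S b - 2 * c * ∑ b, S b + 2 ^ M * (c * c) := by
    have : ∀ b, (S b - c) ^ 2 = S b * S b - 2 * c * S b + c * c := fun b => by ring
    rw [Finset.sum_congr rfl fun b _ => this b, Finset.sum_add_distrib, Finset.sum_sub_distrib,
      ← Finset.mul_sum]
    simp
  rw [h3]
  have hM : (0 : ℝ) ≤ 2 ^ M := by positivity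
  have h4 : 2 * c * (2 ^ M * (c - bad)) ≤ 2 * c * ∑ b, S b :=
    mul_le_mul_of_nonneg_left h1 (by positivity)
  have h5 : 0 ≤ 2 ^ M * bad * (1 - c) := mul_nonneg (mul_nonneg hM hbad0) (by linarith)
  nlinarith

end fin

end IVAR

open IVAR in
theorem pr_VAR (h : S_CNT) : S_VAR := by
  intro X _ μ _ M r P T hP hT
  set Φ : X → (Fin r → Fin M × Bool) := fun x i => (P i x, T i x) with hΦdef
  have hΦ : LM Φ := by
    intro ω
    have : Φ ⁻¹' {ω} = ⋂ i, (P i ⁻¹' {(ω i).1} ∩ T i ⁻¹' {(ω i).2}) := by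
      ext x
      simp only [Set.mem_preimage, Set.mem_singleton_iff, Set.mem_iInter, Set.mem_inter_iff, hΦdef]
      constructor
      · rintro rfl i
        exact ⟨rfl, rfl⟩
      · intro hx
        funext i
        exact Prod.ext (hx i).1 (hx i).2
    rw [this]
    exact MeasurableSet.iInter fun i => (hP i _).inter (hT i _)
  have hs : ∑ ω, μ.real (Φ ⁻¹' {ω}) = 1 := by
    have h1 := real_eq μ Φ hΦ (fun _ => True)
    have h2 : ind True = 1 := ind_pos trivial
    simp only [h2, mul_one, Set.setOf_true, probReal_univ] at h1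
    exact h1.symm
  have h1 := fin_part h (fun ω => μ.real (Φ ⁻¹' {ω})) (fun ω => measureReal_nonneg) hs
  have e1 : ∀ b : Fin M → Bool, μ.real {x | ∀ i, b (P i x) = T i x} =
      ∑ ω, μ.real (Φ ⁻¹' {ω}) * cnd b ω := fun b =>
    real_eq μ Φ hΦ (fun ω => ∀ i, b (ω i).1 = (ω i).2)
  have e2 : μ.real {x | ∃ i j, i ≠ j ∧ P i x = P j x} =
      ∑ ω, μ.real (Φ ⁻¹' {ω}) * bd ω :=
    real_eq μ Φ hΦ (fun ω => ∃ i j, i ≠ j ∧ (ω i).1 = (ω j).1)
  have e3 : (μ.prod μ).real {z : X × X | ∃ i j, P i z.1 = P j z.2} =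
      ∑ ω, ∑ ω', μ.real (Φ ⁻¹' {ω}) * μ.real (Φ ⁻¹' {ω'}) * cl ω ω' := by
    have hpre : ∀ ω ω', (fun z : X × X => (Φ z.1, Φ z.2)) ⁻¹' {(ω, ω')} =
        (Φ ⁻¹' {ω}) ×ˢ (Φ ⁻¹' {ω'}) := by
      intro ω ω'
      ext z
      simp
    have hLM : LM (fun z : X × X => (Φ z.1, Φ z.2)) := by
      rintro ⟨ω, ω'⟩
      rw [hpre]
      exact (hΦ ω).prod (hΦ ω')
    have := real_eq (μ.prod μ) (fun z : X × X => (Φ z.1, Φ z.2)) hLM
      (fun w => ∃ i j, (w.1 i).1 = (w.2 j).1)
    rw [show {z : X × X | ∃ i j, P i z.1 = P j z.2} = {z : X × X |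
      (fun w : (Fin r → Fin M × Bool) × (Fin r → Fin M × Bool) =>
        ∃ i j, (w.1 i).1 = (w.2 j).1) ((fun z : X × X => (Φ z.1, Φ z.2)) z)} from rfl, this,
      Fintype.sum_prod_type]
    refine Finset.sum_congr rfl fun ω _ => Finset.sum_congr rfl fun ω' _ => ?_
    rw [hpre, measureReal_prod_prod]
    rfl
  rw [e2, e3]
  simp_rw [e1]
  exact h1

end Pool.Agent.Work.MP_574bbd_an.RK
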