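import Mathlib
import Pool.Agent.Work.MP_574bbd_an.RK.Stmts

/-!
# MP_574bbd_an, block RK, item WG: the partition of the wreath code is generating

Author: helper81.
-/

set_option autoImplicit false

namespace Pool.Agent.Work.MP_574bbd_an.RK

open MeasureTheory

namespace IWG

variable {G N L : Type} [Group G] [Group N] {m : ℕ}

theorem bw_fst (cd : Cd G L) (σ : G → Fin m → Fin m) (c : G → Fin m → N)
    (y : Sh N (Fin m → L)) (v : Fin m) : (BW cd σ c y v).1 = encW cd σ c y v := rfl

theorem ev_iff (cd : Cd G L) (σ : G → Fin m → Fin m) (c : G → Fin m → N)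
    (y : Sh N (Fin m → L)) (v : Fin m) (l : L) :
    y.ev 1 v = l ↔ (BW cd σ c y v).2 = some l ∨
      ((BW cd σ c y v).2 = none ∧ decW cd σ c y v = l) := by
  classical
  by_cases h : decW cd σ c y v = y.ev 1 v
  · have h2 : (BW cd σ c y v).2 = none := by
      unfold BW
      simp only [if_pos h]
    rw [h2, h]
    simp
  · have h2 : (BW cd σ c y v).2 = some (y.ev 1 v) := by
      unfold BW
      simp only [if_neg h]
    rw [h2]
    simp

/-- If all the events of the `BW (g • F y)` are measurable then `F` is measurable. -/
theorem meas [Fintype L] [MeasurableSpace L] [MeasurableSingletonClass L] (cd : Cd G L)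
    (σ : G → Fin m → Fin m) (c : G → Fin m → N) {Y : Type} [MeasurableSpace Y]
    (F : Y → Sh N (Fin m → L))
    (h : ∀ (g : N) (P : (Fin m → Fin cd.k × Option L) → Prop),
      MeasurableSet {y : Y | P (BW cd σ c (g • F y))}) : Measurable F := by
  have henc : ∀ (g : N) (v : Fin m), Measurable fun y => encW cd σ c (g • F y) v := by
    intro g v
    refine measurable_to_countable' fun i => ?_
    exact h g fun b => (b v).1 = i
  have hdec : ∀ (g : N) (v : Fin m), Measurable fun y => decW cd σ c (g • F y) v := by
    intro g v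
    have h1 : Measurable fun (y : Y) (j : Fin cd.q) =>
        encW cd σ c ((c (cd.f j) v * g) • F y) (σ (cd.f j) v) :=
      measurable_pi_lambda _ fun j => henc _ _
    have h2 : Measurable cd.D := measurable_of_finite _
    have h3 : (fun y => decW cd σ c (g • F y) v) = fun y => cd.D fun j : Fin cd.q =>
        encW cd σ c ((c (cd.f j) v * g) • F y) (σ (cd.f j) v) := by
      funext y
      unfold decW
      simp only [mul_smul]
    rw [h3]
    exact h2.comp h1
  have hev : ∀ (g : N) (v : Fin m), Measurable fun y => (F y).ev g v := by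
    intro g v
    refine measurable_to_countable' fun l => ?_
    have h4 : (fun y => (F y).ev g v) ⁻¹' {l} =
        {y | (BW cd σ c (g • F y) v).2 = some l} ∪
          ({y | (BW cd σ c (g • F y) v).2 = none} ∩
            (fun y => decW cd σ c (g • F y) v) ⁻¹' {l}) := by
      ext y
      have h5 : (F y).ev g v = (g • F y).ev 1 v := by
        rw [ev_smul, one_mul]
      simp only [Set.mem_preimage, Set.mem_singleton_iff, Set.mem_union, Set.mem_inter_iff,
        Set.mem_setOf_eq]
      rw [h5]
      exact ev_iff cd σ c (g • F y) v l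
    rw [h4]
    refine (h g fun b => (b v).2 = some l).union ?_
    refine (h g fun b => (b v).2 = none).inter ?_
    exact hdec g v (measurableSet_singleton l)
  have h6 : Measurable fun (y : Y) (g : N) (v : Fin m) => (F y).ev g v :=
    measurable_pi_lambda _ fun g => measurable_pi_lambda _ fun v => hev g v
  exact h6

end IWG

theorem pr_WG : S_WG := by
  intro G N L _ _ _ _ _ m cd σ c μ e he B hB
  refine ⟨B, ?_, by simp⟩
  have key := @IWG.meas G N L _ _ m _ _ _ cd σ c (Sh N (Fin m → L))
    (⨆ g : N, MeasurableSpace.comap (fun x : Sh N (Fin m → L) => e (BW cd σ c (g • x))) ⊤)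
    id ?_
  · exact key hB
  · intro g P
    have h1 : MeasurableSpace.comap (fun x : Sh N (Fin m → L) => e (BW cd σ c (g • x))) ⊤ ≤
        ⨆ g : N, MeasurableSpace.comap (fun x : Sh N (Fin m → L) => e (BW cd σ c (g • x))) ⊤ :=
      le_iSup (fun g : N =>
        MeasurableSpace.comap (fun x : Sh N (Fin m → L) => e (BW cd σ c (g • x))) ⊤) g
    refine h1 _ ⟨e '' {b | P b}, trivial, ?_⟩
    ext y
    simp only [Set.mem_preimage, Set.mem_image, Set.mem_setOf_eq, id]
    constructor
    · rintro ⟨b, hb, hbe⟩
      rw [← he hbe]
      exact hb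
    · intro hb
      exact ⟨_, hb, rfl⟩

end Pool.Agent.Work.MP_574bbd_an.RK
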