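import Mathlib
import Pool.Agent.Work.MP_574bbd_an.RK.Stmts

/-!
# MP_574bbd_an, block RK, item WL: the law at a good point
-/

set_option autoImplicit false

namespace Pool.Agent.Work.MP_574bbd_an.RK

open MeasureTheory

namespace IWL

/-- the points of `N × Fin m` -/
def pts {G N L : Type} [Group G] {m : ℕ} (cd : Cd G L) (σ : G → Fin m → Fin m)
    (c : G → Fin m → N) (v : Fin m) (i : Fin cd.p ⊕ (Fin cd.p × Fin cd.q) ⊕ Unit) : N × Fin m :=
  (c (sites cd i) v, σ (sites cd i) v)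

theorem pat {G N L : Type} [Group G] [Group N] {m : ℕ} (cd : Cd G L) (σ : G → Fin m → Fin m)
    (c : G → Fin m → N) (E : Finset G) (v : Fin m) (hE : ∀ s, sites cd s ∈ E)
    (hg : Gd σ c E v) : Pat (pts cd σ c v) (sites cd) := by
  intro i j
  constructor
  · intro h
    by_contra hne
    have h1 := (Prod.ext_iff.1 h).1
    have h2 := (Prod.ext_iff.1 h).2
    rcases hg.2.2 _ (hE i) _ (hE j) hne with h3 | h3
    · exact h3 h2
    · exact h3 h1
  · intro h
    unfold pts
    rw [h]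

theorem enc_eq {G L : Type} [Group G] (cd : Cd G L) (x : Sh G L) :
    enc cd (fun x : Sh G L => x.ev 1) x =
      cd.φ fun i => x.ev (sites cd (Sum.inl i)) := by
  unfold enc
  congr 1
  funext i
  show (cd.w i • x).ev 1 = x.ev (cd.w i)
  rw [ev_smul, one_mul]

theorem dec_eq {G L : Type} [Group G] (cd : Cd G L) (x : Sh G L) :
    dec cd (fun x : Sh G L => x.ev 1) x = cd.D fun j => cd.φ fun i =>
      x.ev (sites cd (Sum.inr (Sum.inl (i, j)))) := by
  unfold dec enc
  congr 1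
  funext j
  congr 1
  funext i
  show (cd.w i • cd.f j • x).ev 1 = x.ev (cd.w i * cd.f j)
  rw [ev_smul, ev_smul, one_mul]

theorem encW_eq {G N L : Type} [Group G] [Group N] {m : ℕ} (cd : Cd G L)
    (σ : G → Fin m → Fin m) (c : G → Fin m → N) (y : Sh N (Fin m → L)) (v : Fin m) :
    encW cd σ c y v =
      cd.φ fun i => y.ev (pts cd σ c v (Sum.inl i)).1 (pts cd σ c v (Sum.inl i)).2 := rfl

theorem decW_eq {G N L : Type} [Group G] [Group N] {m : ℕ} (cd : Cd G L)
    (σ : G → Fin m → Fin m) (c : G → Fin m → N) (E : Finset G) (v : Fin m)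
    (hE : ∀ s, sites cd s ∈ E) (hf : ∀ j, cd.f j ∈ E) (hg : Gd σ c E v)
    (y : Sh N (Fin m → L)) :
    decW cd σ c y v = cd.D fun j => cd.φ fun i =>
      y.ev (pts cd σ c v (Sum.inr (Sum.inl (i, j)))).1
        (pts cd σ c v (Sum.inr (Sum.inl (i, j)))).2 := by
  unfold decW encW
  congr 1
  funext j
  congr 1
  funext i
  have h := hg.2.1 (cd.w i) (hE (Sum.inl i)) (cd.f j) (hf j)
  rw [ev_smul, ← h.2, ← h.1]
  rfl

theorem one_eq {G N L : Type} [Group G] [Group N] {m : ℕ} (cd : Cd G L)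
    (σ : G → Fin m → Fin m) (c : G → Fin m → N) (E : Finset G) (v : Fin m)
    (hg : Gd σ c E v) (y : Sh N (Fin m → L)) :
    y.ev 1 v = y.ev (pts cd σ c v (Sum.inr (Sum.inr ()))).1
        (pts cd σ c v (Sum.inr (Sum.inr ()))).2 := by
  show y.ev 1 v = y.ev (c 1 v) (σ 1 v)
  rw [hg.1.1, hg.1.2]

theorem none_iff {G N L : Type} [Group G] [Group N] {m : ℕ} (cd : Cd G L)
    (σ : G → Fin m → Fin m) (c : G → Fin m → N) (y : Sh N (Fin m → L)) (v : Fin m) :
    (BW cd σ c y v).2 ≠ none ↔ decW cd σ c y v ≠ y.ev 1 v := by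
  unfold BW
  by_cases h : decW cd σ c y v = y.ev 1 v
  · simp [h]
  · simp [h]

end IWL

theorem pr_WL (h : S_LAW2) : S_WL := by
  intro G N L _ _ _ _ _ ν _ m cd σ c E v hh δ hE hf hg hcd
  have hp := IWL.pat cd σ c E v hE hg
  have hlaw := h (Fin cd.p ⊕ (Fin cd.p × Fin cd.q) ⊕ Unit) N G L m ν
    (IWL.pts cd σ c v) (sites cd) hp
  constructor
  · refine le_trans (le_of_eq ?_) hcd.1
    unfold HF
    refine Finset.sum_congr rfl fun k _ => ?_
    congr 1
    have h1 := hlaw {z | cd.φ (fun i => z (Sum.inl i)) = k}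
    have h2 : (fun y : Sh N (Fin m → L) => encW cd σ c y v) ⁻¹' {k} =
        {y : Sh N (Fin m → L) |
          (fun i => y.ev (IWL.pts cd σ c v i).1 (IWL.pts cd σ c v i).2) ∈
            {z : (Fin cd.p ⊕ (Fin cd.p × Fin cd.q) ⊕ Unit) → L |
              cd.φ (fun i => z (Sum.inl i)) = k}} := rfl
    have h3 : (enc cd fun x : Sh G L => x.ev 1) ⁻¹' {k} =
        {x : G → L | (fun i => x (sites cd i)) ∈
            {z : (Fin cd.p ⊕ (Fin cd.p × Fin cd.q) ⊕ Unit) → L |
              cd.φ (fun i => z (Sum.inl i)) = k}} := by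
      ext x
      show enc cd (fun x : Sh G L => x.ev 1) x = k ↔ _
      rw [IWL.enc_eq]
      exact Iff.rfl
    rw [h2, h1, h3]
    rfl
  · refine le_trans (le_of_eq ?_) hcd.2
    have h1 := hlaw {z | cd.D (fun j => cd.φ fun i => z (Sum.inr (Sum.inl (i, j)))) ≠
      z (Sum.inr (Sum.inr ()))}
    have h2 : {y : Sh N (Fin m → L) | (BW cd σ c y v).2 ≠ none} =
        {y : Sh N (Fin m → L) |
          (fun i => y.ev (IWL.pts cd σ c v i).1 (IWL.pts cd σ c v i).2) ∈
            {z : (Fin cd.p ⊕ (Fin cd.p × Fin cd.q) ⊕ Unit) → L |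
              cd.D (fun j => cd.φ fun i => z (Sum.inr (Sum.inl (i, j)))) ≠
                z (Sum.inr (Sum.inr ()))}} := by
      ext y
      show (BW cd σ c y v).2 ≠ none ↔ _
      rw [IWL.none_iff, IWL.decW_eq cd σ c E v hE hf hg, IWL.one_eq cd σ c E v hg y]
      exact Iff.rfl
    have h3 : {x : Sh G L | dec cd (fun x : Sh G L => x.ev 1) x ≠ x.ev 1} =
        {x : G → L | (fun i => x (sites cd i)) ∈
            {z : (Fin cd.p ⊕ (Fin cd.p × Fin cd.q) ⊕ Unit) → L |
              cd.D (fun j => cd.φ fun i => z (Sum.inr (Sum.inl (i, j)))) ≠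
                z (Sum.inr (Sum.inr ()))}} := by
      ext x
      show dec cd (fun x : Sh G L => x.ev 1) x ≠ (show G → L from x) 1 ↔ _
      rw [IWL.dec_eq]
      exact Iff.rfl
    rw [h2, h1, h3]
    rfl

end Pool.Agent.Work.MP_574bbd_an.RK
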