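import Mathlib
import Pool.Agent.Work.MP_574bbd_an.RK.Stmts

/-!
# Block RK, item ZER: generating partitions of small entropy
-/

set_option autoImplicit false

namespace Pool.Agent.Work.MP_574bbd_an.RK

open MeasureTheory

namespace IZER

/-- the indicator of a set -/
noncomputable def ind {X : Type} (B : Set X) (x : X) : Bool := @decide (x ∈ B) (Classical.dec _)

theorem ind_true {X : Type} (B : Set X) (x : X) : ind B x = true ↔ x ∈ B := by
  unfold ind
  exact @decide_eq_true_iff (x ∈ B) (Classical.dec _)

theorem ind_LM {X : Type} [MeasurableSpace X] {B : Set X} (hB : MeasurableSet B) :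
    LM (ind B) := by
  intro k
  have h1 : ind B ⁻¹' {true} = B := by
    ext x
    exact ind_true B x
  cases k with
  | true =>
    rw [h1]
    exact hB
  | false =>
    have h2 : ind B ⁻¹' {false} = Bᶜ := by
      ext x
      change ind B x = false ↔ ¬ x ∈ B
      rw [← ind_true B x, Bool.not_eq_true]
    rw [h2]
    exact hB.compl

end IZER

theorem pr_ZER (h1 : S_ONE) (h2 : S_JOI) (h3 : S_GEN) : S_ZER := by
  intro G _ _ hcode X mX _ _ μ _ hF κ hκ
  have hB : ∀ n, MeasurableSet (MeasurableSpace.natGeneratingSequence X n) :=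
    MeasurableSpace.measurableSet_natGeneratingSequence
  have hex := fun n => h1 G hcode X μ hF (IZER.ind (MeasurableSpace.natGeneratingSequence X n))
    (IZER.ind_LM (hB n)) (κ / 2 ^ (n + 1)) (by positivity)
  choose k θ hθ hHF q f D hD using hex
  obtain ⟨α, hα, hsum, hle, hFn⟩ := h2 X μ k θ κ hκ hθ hHF
  refine ⟨α, hα, ?_, hsum, hle⟩
  refine h3 G X μ α (MeasurableSpace.natGeneratingSequence X) (fun g => (hF.1 g).measurable) hα
    (MeasurableSpace.generateFrom_natGeneratingSequence X).symm fun n => ?_
  obtain ⟨F, hFa⟩ := hFn n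
  refine ⟨q n, f n, fun y => D n fun j => F (y j), ?_⟩
  have hall : ∀ᵐ x ∂μ, ∀ j : Fin (q n), F (α (f n j • x)) = θ n (f n j • x) := by
    rw [ae_all_iff]
    intro j
    exact (hF.1 (f n j)).quasiMeasurePreserving.ae hFa
  filter_upwards [hall] with x hx
  have e : (fun j => F (α (f n j • x))) = fun j => θ n (f n j • x) := funext hx
  change D n (fun j => F (α (f n j • x))) = true ↔ _
  rw [e, hD n x]
  exact IZER.ind_true _ _

end Pool.Agent.Work.MP_574bbd_an.RK
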