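import Pool.Agent.Work.MP_574bbd_an.RK.I_A1
import Pool.Agent.Work.MP_574bbd_an.RK.I_A2
import Pool.Agent.Work.MP_574bbd_an.RK.I_APP
import Pool.Agent.Work.MP_574bbd_an.RK.I_CNT
import Pool.Agent.Work.MP_574bbd_an.RK.I_COD
import Pool.Agent.Work.MP_574bbd_an.RK.I_E1
import Pool.Agent.Work.MP_574bbd_an.RK.I_E2
import Pool.Agent.Work.MP_574bbd_an.RK.I_E3
import Pool.Agent.Work.MP_574bbd_an.RK.I_E4
import Pool.Agent.Work.MP_574bbd_an.RK.I_E5
import Pool.Agent.Work.MP_574bbd_an.RK.I_E6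
import Pool.Agent.Work.MP_574bbd_an.RK.I_E7
import Pool.Agent.Work.MP_574bbd_an.RK.I_E8
import Pool.Agent.Work.MP_574bbd_an.RK.I_E9
import Pool.Agent.Work.MP_574bbd_an.RK.I_EG
import Pool.Agent.Work.MP_574bbd_an.RK.I_FPG
import Pool.Agent.Work.MP_574bbd_an.RK.I_FR
import Pool.Agent.Work.MP_574bbd_an.RK.I_GC
import Pool.Agent.Work.MP_574bbd_an.RK.I_GC1
import Pool.Agent.Work.MP_574bbd_an.RK.I_GEN
import Pool.Agent.Work.MP_574bbd_an.RK.I_INF
import Pool.Agent.Work.MP_574bbd_an.RK.I_JOI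
import Pool.Agent.Work.MP_574bbd_an.RK.I_LAB
import Pool.Agent.Work.MP_574bbd_an.RK.I_LAW
import Pool.Agent.Work.MP_574bbd_an.RK.I_LAW2
import Pool.Agent.Work.MP_574bbd_an.RK.I_MP
import Pool.Agent.Work.MP_574bbd_an.RK.I_NAT
import Pool.Agent.Work.MP_574bbd_an.RK.I_ONE
import Pool.Agent.Work.MP_574bbd_an.RK.I_PB
import Pool.Agent.Work.MP_574bbd_an.RK.I_PIH
import Pool.Agent.Work.MP_574bbd_an.RK.I_SEP
import Pool.Agent.Work.MP_574bbd_an.RK.I_TRF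
import Pool.Agent.Work.MP_574bbd_an.RK.I_UU
import Pool.Agent.Work.MP_574bbd_an.RK.I_VAR
import Pool.Agent.Work.MP_574bbd_an.RK.I_W
import Pool.Agent.Work.MP_574bbd_an.RK.I_WG
import Pool.Agent.Work.MP_574bbd_an.RK.I_WH
import Pool.Agent.Work.MP_574bbd_an.RK.I_WL
import Pool.Agent.Work.MP_574bbd_an.RK.I_ZER

/-!
# MP_574bbd_an, block RK: theorems U and W
-/

set_option autoImplicit false

namespace Pool.Agent.Work.MP_574bbd_an.RK

open MeasureTheory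

theorem all_E3 : S_E3 := pr_E3 pr_E1 pr_E2
theorem all_E6 : S_E6 := pr_E6 pr_E5
theorem all_A2 : S_A2 := pr_A2 pr_A1
theorem all_LAW2 : S_LAW2 := pr_LAW2 pr_LAW
theorem all_EG : S_EG := pr_EG all_A2 pr_MP
theorem all_GC1 : S_GC1 := pr_GC1 pr_A1 pr_MP
theorem all_GC : S_GC := pr_GC all_GC1 all_A2 pr_E5 pr_E8 pr_MP
theorem all_TRF : S_TRF := pr_TRF pr_LAW
theorem all_COD : S_COD := pr_COD all_TRF pr_FPG
theorem all_SEP : S_SEP := pr_SEP pr_NAT
theorem all_VAR : S_VAR := pr_VAR pr_CNT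
theorem all_LAB : S_LAB := pr_LAB all_SEP all_VAR
theorem all_APP : S_APP := pr_APP pr_E5
theorem all_ONE : S_ONE := pr_ONE all_APP all_LAB pr_E1 pr_E2 all_E6
theorem all_JOI : S_JOI := pr_JOI pr_E9 all_E3
theorem all_ZER : S_ZER := pr_ZER all_ONE all_JOI pr_GEN
theorem all_PB : S_PB := pr_PB pr_MP pr_FR all_EG
theorem all_UU : S_UU := pr_UU all_GC all_COD pr_INF all_ZER
theorem all_WL : S_WL := pr_WL all_LAW2
theorem all_WH : S_WH := pr_WH all_E3 pr_E1 all_WL pr_E4 pr_WG pr_E7 pr_PIH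

/-- THEOREM W -/
theorem all_W : S_W := pr_W all_GC all_WH all_E6

/-- THEOREM U -/
theorem all_U : S_U := by
  intro U _ _ hU
  have h1 : Q1 → Pos U := fun h => by
    haveI := pr_INF U hU
    exact h U
  have h2 : Pos U → Unif := all_UU U hU
  have h3 : Unif → Q1 := by
    rintro ⟨ε, hε, h⟩ G _ _ _
    exact all_PB G ε hε (h G)
  tfae_have 1 → 2 := h1
  tfae_have 2 → 3 := h2
  tfae_have 3 → 1 := h3
  tfae_finish

end Pool.Agent.Work.MP_574bbd_an.RK
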