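import Mathlib

/-!
# MP_574bbd_an, block RK (Rokhlin entropy of Bernoulli shifts, all groups): definitions
-/

set_option autoImplicit false

namespace Pool.Agent.Work.MP_574bbd_an.RK

open MeasureTheory

/-- the partition of `X` into the level sets of `α` is generating (as in the frozen statement) -/
def Gen (G : Type) [Group G] {X : Type} [MeasurableSpace X] [MulAction G X] (μ : Measure X)
    (α : X → ℕ) : Prop :=
  ∀ B : Set X, MeasurableSet B → ∃ A : Set X,
    MeasurableSet[⨆ g : G, MeasurableSpace.comap (fun x : X => α (g • x)) ⊤] A ∧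
      μ (symmDiff A B) = 0

/-- every countable generating partition has entropy at least `ε` -/
def LB (G : Type) [Group G] {X : Type} [MeasurableSpace X] [MulAction G X] (μ : Measure X)
    (ε : ℝ) : Prop :=
  ∀ α : X → ℕ, Measurable α → Gen G μ α →
    Summable (fun n : ℕ => Real.negMulLog ((μ (α ⁻¹' {n})).toReal)) →
    ε ≤ ∑' n : ℕ, Real.negMulLog ((μ (α ⁻¹' {n})).toReal)

/-- `G` has a free ergodic probability measure preserving action with positive Rokhlin entropy (the
formula of the frozen statement) -/
def Pos (G : Type) [Group G] : Prop :=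
  ∃ (X : Type) (_ : MeasurableSpace X) (_ : StandardBorelSpace X) (μ : Measure X)
    (_ : IsProbabilityMeasure μ) (_ : MulAction G X),
    (∀ g : G, MeasurePreserving (fun x : X => g • x) μ μ) ∧
    (∀ g : G, g ≠ 1 → μ {x : X | g • x = x} = 0) ∧
    (∀ s : Set X, MeasurableSet s → (∀ g : G, (fun x : X => g • x) ⁻¹' s = s) →
      μ s = 0 ∨ μ s = 1) ∧
    ∃ ε : ℝ, 0 < ε ∧ LB G μ ε

/-- the full shift over `G` with the alphabet `L` -/
def Sh (G L : Type) : Type := G → L

/-- the value at `g` -/
def Sh.ev {G L : Type} (x : Sh G L) (g : G) : L := (show G → L from x) g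

instance {G L : Type} [MeasurableSpace L] : MeasurableSpace (Sh G L) :=
  inferInstanceAs (MeasurableSpace (G → L))

instance {G L : Type} [Group G] : MulAction G (Sh G L) where
  smul g x := fun h => (show G → L from x) (h * g)
  one_smul x := funext fun h => congrArg (show G → L from x) (mul_one h)
  mul_smul g g' x := funext fun h => congrArg (show G → L from x) (mul_assoc h g g').symm

theorem ev_smul {G L : Type} [Group G] (g h : G) (x : Sh G L) : (g • x).ev h = x.ev (h * g) :=
  rfl

/-- the Bernoulli measure -/
noncomputable def bm (G : Type) {L : Type} [MeasurableSpace L] (ν : Measure L) :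
    Measure (Sh G L) :=
  Measure.infinitePi fun _ : G => ν

instance {G L : Type} [MeasurableSpace L] (ν : Measure L) [IsProbabilityMeasure ν] :
    IsProbabilityMeasure (bm G ν) :=
  inferInstanceAs (IsProbabilityMeasure (Measure.infinitePi fun _ : G => ν))

/-- the fair coin -/
noncomputable def coin : Measure Bool := (PMF.uniformOfFintype Bool).toMeasure

instance : IsProbabilityMeasure coin :=
  inferInstanceAs (IsProbabilityMeasure (PMF.uniformOfFintype Bool).toMeasure)

/-- the Shannon entropy of a map with finitely many values -/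
noncomputable def HF {X K : Type} [MeasurableSpace X] [Fintype K] (μ : Measure X) (f : X → K) :
    ℝ := ∑ k, Real.negMulLog (μ.real (f ⁻¹' {k}))

/-- the level sets are measurable -/
def LM {X K : Type} [MeasurableSpace X] (f : X → K) : Prop := ∀ k, MeasurableSet (f ⁻¹' {k})

/-- all Bernoulli shifts over `G` with a finite base have full Rokhlin entropy: every generating
partition has entropy at least the entropy of the base -/
def Full (G : Type) [Group G] : Prop :=
  ∀ (L : Type) [Fintype L] [MeasurableSpace L] [MeasurableSingletonClass L] (ν : Measure L)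
    [IsProbabilityMeasure ν], LB G (bm G ν) (HF ν (fun l : L => l))

/-- a finite code: encoder `φ` with the window `w`, decoder `D` with the window `f` -/
structure Cd (G L : Type) where
  /-- size of the window of the encoder -/
  p : ℕ
  /-- size of the window of the decoder -/
  q : ℕ
  /-- number of letters -/
  k : ℕ
  /-- window of the encoder -/
  w : Fin p → G
  /-- window of the decoder -/
  f : Fin q → G
  /-- encoder -/
  φ : (Fin p → L) → Fin k
  /-- decoder -/
  D : (Fin q → Fin k) → L

section
variable {G L X : Type} [Group G] [MulAction G X]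

/-- the encoded labelling -/
def enc (c : Cd G L) (β : X → L) (x : X) : Fin c.k := c.φ fun i => β (c.w i • x)

/-- the decoded labelling -/
def dec (c : Cd G L) (β : X → L) (x : X) : L := c.D fun j => enc c β (c.f j • x)

end

/-- the code `c` has entropy at most `h` and error probability at most `δ` on the Bernoulli
shift -/
def IsCd {G L : Type} [Group G] [MeasurableSpace L] (ν : Measure L) (h δ : ℝ) (c : Cd G L) :
    Prop :=
  HF (bm G ν) (enc c fun x : Sh G L => x.ev 1) ≤ h ∧
    (bm G ν).real {x : Sh G L | dec c (fun x : Sh G L => x.ev 1) x ≠ x.ev 1} ≤ δ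

/-- truncation -/
def tr (K n : ℕ) : Fin (K + 1) := ⟨min n K, Nat.lt_succ_of_le (min_le_right n K)⟩

/-- two families of points have the same coincidences -/
def Pat {ι S S' : Type} (s : ι → S) (s' : ι → S') : Prop := ∀ i j, s i = s j ↔ s' i = s' j

/-- the sites of the code: the window, the products, the unit element -/
def sites {G L : Type} [Group G] (c : Cd G L) : Fin c.p ⊕ (Fin c.p × Fin c.q) ⊕ Unit → G
  | Sum.inl i => c.w i
  | Sum.inr (Sum.inl ij) => c.w ij.1 * c.f ij.2
  | Sum.inr (Sum.inr _) => 1

/-- the code with other windows -/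
def Cd.win {G L : Type} (c : Cd G L) {G' : Type} (w' : Fin c.p → G') (f' : Fin c.q → G') :
    Cd G' L := ⟨c.p, c.q, c.k, w', f', c.φ, c.D⟩

/-- `U` contains all finitely presented groups -/
def AllFp (U : Type) [Group U] : Prop :=
  ∀ (n : ℕ) (rels : Set (FreeGroup (Fin n))), rels.Finite →
    ∃ f : PresentedGroup rels →* U, Function.Injective f

/-- the action is free and measure preserving -/
def FMP (G : Type) [Group G] {X : Type} [MeasurableSpace X] [MulAction G X] (μ : Measure X) :
    Prop :=
  (∀ g : G, MeasurePreserving (fun x : X => g • x) μ μ) ∧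
    ∀ g : G, g ≠ 1 → μ {x : X | g • x = x} = 0

/-- the labelling `β` has nearly independent fair values at the points `e i • x` -/
def Near {G X : Type} [Group G] [MulAction G X] [MeasurableSpace X] (μ : Measure X) {r : ℕ}
    (e : Fin r → G) (γ : ℝ) (β : X → Bool) : Prop :=
  ∀ u : Fin r → Bool, |μ.real {x : X | ∀ i, β (e i • x) = u i} - (1 / 2) ^ r| ≤ γ

/-- a wreath approximation of `G` over `N`: `σ`, `c` define maps of `N × Fin m`,
`g (n, v) = (c g v * n, σ g v)`; the point `v` is good for `E` -/
def Gd {G N : Type} [Group G] [Group N] {m : ℕ} (σ : G → Fin m → Fin m) (c : G → Fin m → N)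
    (E : Finset G) (v : Fin m) : Prop :=
  (σ 1 v = v ∧ c 1 v = 1) ∧
  (∀ g ∈ E, ∀ h ∈ E, σ (g * h) v = σ g (σ h v) ∧ c (g * h) v = c g (σ h v) * c h v) ∧
  ∀ g ∈ E, ∀ h ∈ E, g ≠ h → σ g v ≠ σ h v ∨ c g v ≠ c h v

open Classical in
/-- `G` is approximable by wreath products `N ≀ Sym(m)` with `N` full -/
def Wra (G : Type) [Group G] : Prop :=
  ∀ (E : Finset G) (ε : ℝ), 0 < ε → ∃ (N : Type) (_ : Group N) (_ : Countable N) (m : ℕ)
    (σ : G → Fin m → Fin m) (c : G → Fin m → N), Full N ∧ 0 < m ∧
    (1 - ε) * (m : ℝ) ≤ ((Finset.univ.filter fun v => Gd σ c E v).card : ℝ)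

section
variable {G N L : Type} [Group G] [Group N] {m : ℕ}

/-- the encoder at the point `v`, transported to the shift over `N` with the base `Fin m → L`; at the
point `(n, v)` it is `encW cd σ c (n • y) v` -/
def encW (cd : Cd G L) (σ : G → Fin m → Fin m) (c : G → Fin m → N) (y : Sh N (Fin m → L))
    (v : Fin m) : Fin cd.k := cd.φ fun i => y.ev (c (cd.w i) v) (σ (cd.w i) v)

/-- the decoder at the point `v` -/
def decW (cd : Cd G L) (σ : G → Fin m → Fin m) (c : G → Fin m → N) (y : Sh N (Fin m → L))
    (v : Fin m) : L := cd.D fun j => encW cd σ c (c (cd.f j) v • y) (σ (cd.f j) v)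

open Classical in
/-- the partition: the code and the corrections -/
noncomputable def BW (cd : Cd G L) (σ : G → Fin m → Fin m) (c : G → Fin m → N)
    (y : Sh N (Fin m → L)) (v : Fin m) : Fin cd.k × Option L :=
  (encW cd σ c y v, if decW cd σ c y v = y.ev 1 v then none else some (y.ev 1 v))

end

/-- every countably infinite group has a free ergodic action with positive Rokhlin entropy -/
def Q1 : Prop := ∀ (G : Type) [Group G] [Countable G] [Infinite G], Pos G

/-- one positive lower bound for the Bernoulli shifts over all groups -/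
def Unif : Prop :=
  ∃ ε : ℝ, 0 < ε ∧ ∀ (G : Type) [Group G] [Countable G] [Infinite G], LB G (bm G coin) ε

end Pool.Agent.Work.MP_574bbd_an.RK
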