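import Mathlib
import Pool.Agent.Work.MP_574bbd_an.RK.Stmts

/-!
# MP_574bbd_an, block RK, item A1
-/

set_option autoImplicit false

namespace Pool.Agent.Work.MP_574bbd_an.RK

open MeasureTheory

namespace IA1

theorem tr_tr (K K' n : ℕ) (h : K ≤ K') : tr K (tr K' n : ℕ) = tr K n := by
  apply Fin.ext
  show min (min n K') K = min n K
  omega

/-- the sets given by a finite window -/
def W {X ι : Type} (β : ι → X → ℕ) (C : Set X) : Prop :=
  ∃ (q K : ℕ) (f : Fin q → ι) (D : (Fin q → Fin (K + 1)) → Bool),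
    C = {x | D (fun j => tr K (β (f j) x)) = true}

theorem W_empty {X ι : Type} (β : ι → X → ℕ) : W β (∅ : Set X) := by
  refine ⟨0, 0, Fin.elim0, fun _ => false, ?_⟩
  ext x
  simp

theorem W_compl {X ι : Type} (β : ι → X → ℕ) {C : Set X} (h : W β C) : W β Cᶜ := by
  obtain ⟨q, K, f, D, rfl⟩ := h
  refine ⟨q, K, f, fun u => !(D u), ?_⟩
  ext x
  simp

theorem W_union {X ι : Type} (β : ι → X → ℕ) {C C' : Set X} (h : W β C) (h' : W β C') :
    W β (C ∪ C') := by
  obtain ⟨q, K, f, D, rfl⟩ := h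
  obtain ⟨q', K', f', D', rfl⟩ := h'
  refine ⟨q + q', max K K', Fin.append f f', fun u =>
    D (fun j => tr K (u (Fin.castAdd q' j) : ℕ)) || D' (fun j => tr K' (u (Fin.natAdd q j) : ℕ)), ?_⟩
  ext x
  simp only [Set.mem_union, Set.mem_setOf_eq, Bool.or_eq_true, Fin.append_left, Fin.append_right]
  rw [show (fun j => tr K ((tr (max K K') (β (f j) x) : Fin _) : ℕ)) = fun j => tr K (β (f j) x) from
    funext fun j => tr_tr _ _ _ (le_max_left _ _),
    show (fun j => tr K' ((tr (max K K') (β (f' j) x) : Fin _) : ℕ)) = fun j => tr K' (β (f' j) x) from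
    funext fun j => tr_tr _ _ _ (le_max_right _ _)]

/-- approximable sets -/
def Ap {X ι : Type} [MeasurableSpace X] (μ : Measure X) (β : ι → X → ℕ) (A : Set X) : Prop :=
  MeasurableSet A ∧ ∀ ε : ℝ, 0 < ε → ∃ C : Set X, W β C ∧ μ.real (symmDiff A C) ≤ ε

variable {X ι : Type} [MeasurableSpace X] (μ : Measure X) [IsProbabilityMeasure μ]
  (β : ι → X → ℕ)

theorem Ap_empty : Ap μ β (∅ : Set X) :=
  ⟨MeasurableSet.empty, fun ε hε => ⟨∅, W_empty β, by simpa using hε.le⟩⟩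

theorem Ap_compl {A : Set X} (h : Ap μ β A) : Ap μ β Aᶜ := by
  refine ⟨h.1.compl, fun ε hε => ?_⟩
  obtain ⟨C, hC, hm⟩ := h.2 ε hε
  refine ⟨Cᶜ, W_compl β hC, ?_⟩
  have : symmDiff Aᶜ Cᶜ = symmDiff A C := by
    ext x
    simp only [Set.mem_symmDiff, Set.mem_compl_iff]
    tauto
  rw [this]
  exact hm

theorem Ap_union {A A' : Set X} (h : Ap μ β A) (h' : Ap μ β A') : Ap μ β (A ∪ A') := by
  refine ⟨h.1.union h'.1, fun ε hε => ?_⟩
  obtain ⟨C, hC, hm⟩ := h.2 (ε / 2) (by positivity)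
  obtain ⟨C', hC', hm'⟩ := h'.2 (ε / 2) (by positivity)
  refine ⟨C ∪ C', W_union β hC hC', ?_⟩
  have hsub : symmDiff (A ∪ A') (C ∪ C') ⊆ symmDiff A C ∪ symmDiff A' C' := by
    intro x hx
    simp only [Set.mem_symmDiff, Set.mem_union] at hx ⊢
    tauto
  calc μ.real (symmDiff (A ∪ A') (C ∪ C')) ≤ μ.real (symmDiff A C ∪ symmDiff A' C') :=
        measureReal_mono hsub
    _ ≤ μ.real (symmDiff A C) + μ.real (symmDiff A' C') := measureReal_union_le _ _
    _ ≤ ε / 2 + ε / 2 := add_le_add hm hm'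
    _ = ε := by ring

theorem Ap_fin (A : ℕ → Set X) (h : ∀ n, Ap μ β (A n)) (N : ℕ) : Ap μ β (⋃ n < N, A n) := by
  induction N with
  | zero =>
      have : (⋃ n < 0, A n) = ∅ := by simp
      rw [this]
      exact Ap_empty μ β
  | succ N ih =>
      have : (⋃ n < N + 1, A n) = (⋃ n < N, A n) ∪ A N := by
        ext x
        simp only [Set.mem_iUnion, Set.mem_union, exists_prop]
        constructor
        · rintro ⟨n, hn, hx⟩
          rcases Nat.lt_succ_iff_lt_or_eq.1 hn with h1 | h1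
          · exact Or.inl ⟨n, h1, hx⟩
          · exact Or.inr (h1 ▸ hx)
        · rintro (⟨n, hn, hx⟩ | hx)
          · exact ⟨n, by omega, hx⟩
          · exact ⟨N, by omega, hx⟩
      rw [this]
      exact Ap_union μ β ih (h N)

theorem Ap_iUnion (A : ℕ → Set X) (h : ∀ n, Ap μ β (A n)) : Ap μ β (⋃ n, A n) := by
  refine ⟨MeasurableSet.iUnion fun n => (h n).1, fun ε hε => ?_⟩
  have hmeas : ∀ N, MeasurableSet (⋃ n < N, A n) := fun N => (Ap_fin μ β A h N).1
  have ht : Filter.Tendsto (fun N => μ ((⋃ n, A n) \ (⋃ n < N, A n))) Filter.atTop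
      (nhds (μ (⋂ N : ℕ, (⋃ n, A n) \ (⋃ n < N, A n)))) := by
    apply tendsto_measure_iInter_atTop
    · intro N
      exact ((MeasurableSet.iUnion fun n => (h n).1).diff (hmeas N)).nullMeasurableSet
    · intro N N' hN x hx
      refine ⟨hx.1, fun hx' => hx.2 ?_⟩
      simp only [Set.mem_iUnion, exists_prop] at hx' ⊢
      obtain ⟨n, hn, hx'⟩ := hx'
      exact ⟨n, lt_of_lt_of_le hn hN, hx'⟩
    · exact ⟨0, measure_ne_top _ _⟩
  have he : (⋂ N : ℕ, (⋃ n, A n) \ (⋃ n < N, A n)) = ∅ := by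
    ext x
    simp only [Set.mem_iInter, Set.mem_diff, Set.mem_iUnion, exists_prop, Set.mem_empty_iff_false,
      iff_false]
    intro hx
    obtain ⟨n, hn⟩ := (hx 0).1
    exact (hx (n + 1)).2 ⟨n, by omega, hn⟩
  rw [he, measure_empty] at ht
  have hev : ∀ᶠ N in Filter.atTop, μ ((⋃ n, A n) \ (⋃ n < N, A n)) < ENNReal.ofReal (ε / 2) :=
    ht.eventually_lt_const (by positivity)
  obtain ⟨N, hN⟩ := hev.exists
  obtain ⟨C, hC, hm⟩ := (Ap_fin μ β A h N).2 (ε / 2) (by positivity)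
  refine ⟨C, hC, ?_⟩
  have hsub : symmDiff (⋃ n, A n) C ⊆ ((⋃ n, A n) \ (⋃ n < N, A n)) ∪
      symmDiff (⋃ n < N, A n) C := by
    intro x hx
    have hle : (⋃ n < N, A n) ⊆ ⋃ n, A n := Set.iUnion₂_subset fun n _ => Set.subset_iUnion A n
    have hlex := @hle x
    simp only [Set.mem_symmDiff, Set.mem_union, Set.mem_diff] at hx ⊢
    tauto
  have h1 : μ.real ((⋃ n, A n) \ (⋃ n < N, A n)) ≤ ε / 2 := by
    have := ENNReal.toReal_mono ENNReal.ofReal_ne_top hN.le
    rwa [ENNReal.toReal_ofReal (by positivity)] at this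
  calc μ.real (symmDiff (⋃ n, A n) C) ≤ _ := measureReal_mono hsub
    _ ≤ _ := measureReal_union_le _ _
    _ ≤ ε / 2 + ε / 2 := add_le_add h1 hm
    _ = ε := by ring

open Classical in
theorem Ap_gen (hβ : ∀ i, Measurable (β i)) (i : ι) (T : Set ℕ) : Ap μ β (β i ⁻¹' T) := by
  refine ⟨hβ i (MeasurableSet.of_discrete), fun ε hε => ?_⟩
  have ht : Filter.Tendsto (fun K : ℕ => μ {x | K ≤ β i x}) Filter.atTop
      (nhds (μ (⋂ K : ℕ, {x | K ≤ β i x}))) := by
    apply tendsto_measure_iInter_atTop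
    · intro K
      exact (hβ i (MeasurableSet.of_discrete (s := {n | K ≤ n}))).nullMeasurableSet
    · intro K K' hK x hx
      exact le_trans hK hx
    · exact ⟨0, measure_ne_top _ _⟩
  have he : (⋂ K : ℕ, {x | K ≤ β i x}) = ∅ := by
    ext x
    simp only [Set.mem_iInter, Set.mem_setOf_eq, Set.mem_empty_iff_false, iff_false]
    intro hx
    have := hx (β i x + 1)
    omega
  rw [he, measure_empty] at ht
  have hev : ∀ᶠ K in Filter.atTop, μ {x | K ≤ β i x} < ENNReal.ofReal ε :=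
    ht.eventually_lt_const (by positivity)
  obtain ⟨K, hK⟩ := hev.exists
  refine ⟨_, ⟨1, K, fun _ => i, fun u => decide ((u 0 : ℕ) < K ∧ (u 0 : ℕ) ∈ T), rfl⟩, ?_⟩
  have hsub : symmDiff (β i ⁻¹' T) {x | (decide (((tr K (β i x) : Fin _) : ℕ) < K ∧
      ((tr K (β i x) : Fin _) : ℕ) ∈ T)) = true} ⊆ {x | K ≤ β i x} := by
    intro x hx
    by_contra hc
    simp only [Set.mem_setOf_eq, not_le] at hc
    have h1 : ((tr K (β i x) : Fin _) : ℕ) = β i x := by
      show min _ _ = _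
      omega
    simp only [Set.mem_symmDiff, Set.mem_preimage, Set.mem_setOf_eq, decide_eq_true_eq, h1] at hx
    tauto
  have h1 : μ.real {x | K ≤ β i x} ≤ ε := by
    have := ENNReal.toReal_mono ENNReal.ofReal_ne_top hK.le
    rwa [ENNReal.toReal_ofReal hε.le] at this
  exact (measureReal_mono hsub).trans h1

/-- the sigma-algebra of the approximable sets -/
def ms : MeasurableSpace X where
  MeasurableSet' := Ap μ β
  measurableSet_empty := Ap_empty μ β
  measurableSet_compl _ h := Ap_compl μ β h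
  measurableSet_iUnion A h := Ap_iUnion μ β A h

end IA1

open IA1 in
theorem pr_A1 : S_A1 := by
  intro X ι _ μ _ β hβ A hA ε hε
  have hle : (⨆ i, MeasurableSpace.comap (β i) ⊤) ≤ ms μ β := by
    refine iSup_le fun i => ?_
    rintro s ⟨T, -, rfl⟩
    exact Ap_gen μ β hβ i T
  have h1 : Ap μ β A := hle A hA
  obtain ⟨C, ⟨q, K, f, D, rfl⟩, hm⟩ := h1.2 ε hε
  exact ⟨q, K, f, D, hm⟩

end Pool.Agent.Work.MP_574bbd_an.RK
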