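import Mathlib
import Pool.Agent.Work.MP_574bbd_an.RK.Stmts

/-!
# MP_574bbd_an, block RK, item E6: nearly constant maps (helper37)
-/

set_option autoImplicit false

namespace Pool.Agent.Work.MP_574bbd_an.RK

open MeasureTheory

namespace IE6

theorem pre_eq {X K : Type} {k₀ k : K} (h : k = k₀) :
    (fun _ : X => k₀) ⁻¹' {k} = Set.univ := by
  ext x
  simp [h]

theorem pre_ne {X K : Type} {k₀ k : K} (h : k ≠ k₀) :
    (fun _ : X => k₀) ⁻¹' {k} = ∅ := by
  ext x
  simp [Ne.symm h]

theorem const {X K : Type} [MeasurableSpace X] [Fintype K] (μ : Measure X)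
    [IsProbabilityMeasure μ] (k₀ : K) : HF μ (fun _ : X => k₀) = 0 := by
  unfold HF
  apply Finset.sum_eq_zero
  intro k _
  by_cases h : k = k₀
  · rw [pre_eq h, probReal_univ, Real.negMulLog_one]
  · rw [pre_ne h, measureReal_empty, Real.negMulLog_zero]

theorem bound {X K : Type} [MeasurableSpace X] (μ : Measure X)
    [IsProbabilityMeasure μ] (f : X → K) (k₀ : K) (hf : LM f) (k : K) :
    |μ.real (f ⁻¹' {k}) - μ.real ((fun _ : X => k₀) ⁻¹' {k})| ≤ μ.real {x | f x ≠ k₀} := by
  by_cases h : k = k₀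
  · subst h
    have h1 : {x | f x ≠ k} = (f ⁻¹' {k})ᶜ := by
      ext x
      simp
    rw [pre_eq rfl, probReal_univ, h1, probReal_compl_eq_one_sub (hf k), abs_sub_comm,
      abs_of_nonneg]
    exact sub_nonneg.2 measureReal_le_one
  · rw [pre_ne h, measureReal_empty, sub_zero, abs_of_nonneg measureReal_nonneg]
    refine measureReal_mono (fun x hx => ?_) (measure_ne_top μ _)
    rw [Set.mem_preimage, Set.mem_singleton_iff] at hx
    show f x ≠ k₀
    rw [hx]
    exact h

end IE6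

theorem pr_E6 (h : S_E5) : S_E6 := by
  intro K _ ε hε
  obtain ⟨δ, hδ, h1⟩ := h K ε hε
  refine ⟨δ, hδ, ?_⟩
  intro X _ μ _ f k₀ hf hk
  have h2 := h1 X X μ μ f (fun _ => k₀) (fun k => (IE6.bound μ f k₀ hf k).trans hk)
  rwa [IE6.const, zero_add] at h2

end Pool.Agent.Work.MP_574bbd_an.RK
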