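import Mathlib
import Pool.Agent.Work.MP_574bbd_an.RK.Stmts

/-!
# MP_574bbd_an, block RK, item JOI: countable joins
-/

set_option autoImplicit false

namespace Pool.Agent.Work.MP_574bbd_an.RK

open MeasureTheory Filter Topology

namespace IJOI

section
variable {X : Type} [MeasurableSpace X] {k : ℕ → ℕ}

/-- the level set of a sequence -/
def ls (θ : ∀ n, X → Fin (k n)) (d : ∀ n, Fin (k n)) : Set X := {x | ∀ n, θ n x = d n}

/-- the level set of an initial segment -/
def lsN (θ : ∀ n, X → Fin (k n)) (d : ∀ n, Fin (k n)) (N : ℕ) : Set X :=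
  {x | ∀ n, n < N → θ n x = d n}

theorem meas_ls (θ : ∀ n, X → Fin (k n)) (hθ : ∀ n, LM (θ n)) (d : ∀ n, Fin (k n)) :
    MeasurableSet (ls θ d) := by
  have e : ls θ d = ⋂ n, (θ n) ⁻¹' {d n} := by
    ext x
    simp [ls]
  rw [e]
  exact MeasurableSet.iInter fun n => hθ n (d n)

theorem meas_lsN (θ : ∀ n, X → Fin (k n)) (hθ : ∀ n, LM (θ n)) (d : ∀ n, Fin (k n)) (N : ℕ) :
    MeasurableSet (lsN θ d N) := by
  have e : lsN θ d N = ⋂ n, ⋂ (_ : n < N), (θ n) ⁻¹' {d n} := by
    ext x
    simp [lsN]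
  rw [e]
  exact MeasurableSet.iInter fun n => MeasurableSet.iInter fun _ => hθ n (d n)

theorem nml_nonneg (μ : Measure X) [IsProbabilityMeasure μ] (s : Set X) :
    0 ≤ Real.negMulLog (μ.real s) :=
  Real.negMulLog_nonneg measureReal_nonneg measureReal_le_one

theorem lim (μ : Measure X) [IsProbabilityMeasure μ] (θ : ∀ n, X → Fin (k n))
    (hθ : ∀ n, LM (θ n)) (d : ∀ n, Fin (k n)) :
    Tendsto (fun N => μ.real (lsN θ d N)) atTop (𝓝 (μ.real (ls θ d))) := by
  have hanti : Antitone (lsN θ d) := by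
    intro N M hNM x hx n hn
    exact hx n (lt_of_lt_of_le hn hNM)
  have h1 := tendsto_measure_iInter_atTop (μ := μ) (s := lsN θ d)
    (fun N => (meas_lsN θ hθ d N).nullMeasurableSet) hanti ⟨0, measure_ne_top _ _⟩
  have e : ⋂ N, lsN θ d N = ls θ d := by
    ext x
    simp only [Set.mem_iInter, lsN, ls, Set.mem_setOf_eq]
    constructor
    · intro h n
      exact h (n + 1) n (Nat.lt_succ_self n)
    · intro h N n _
      exact h n
  rw [e] at h1
  exact (ENNReal.tendsto_toReal (measure_ne_top _ _)).comp h1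

theorem geo (κ : ℝ) (N : ℕ) : ∑ i ∈ Finset.range N, κ / 2 ^ (i + 1) = κ - κ / 2 ^ N := by
  induction N with
  | zero => simp
  | succ N ih =>
    rw [Finset.sum_range_succ, ih, pow_succ]
    field_simp
    ring

theorem bound (h2 : S_E3) (μ : Measure X) [IsProbabilityMeasure μ] (θ : ∀ n, X → Fin (k n))
    (hθ : ∀ n, LM (θ n)) (κ : ℝ) (hκ : 0 < κ) (hH : ∀ n, HF μ (θ n) ≤ κ / 2 ^ (n + 1))
    (T : Finset (∀ n, Fin (k n))) (a : ∀ n, Fin (k n)) (N₀ : ℕ)
    (hT : ∀ d ∈ T, ∀ n, N₀ ≤ n → d n = a n) (N : ℕ) (hN : N₀ ≤ N) :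
    ∑ d ∈ T, Real.negMulLog (μ.real (lsN θ d N)) ≤ κ := by
  classical
  have hinj : Set.InjOn (fun (d : ∀ n, Fin (k n)) (i : Fin N) => d i) (T : Set (∀ n, Fin (k n))) := by
    intro d hd d' hd' h
    funext n
    by_cases hn : n < N
    · exact congrFun h ⟨n, hn⟩
    · rw [hT d hd n (by omega), hT d' hd' n (by omega)]
  have hE3 := h2 X μ N (fun i => Fin (k i)) (fun i => θ i) (fun i => hθ i)
  have h3 : ∀ d : ∀ n, Fin (k n), lsN θ d N =
      (fun (x : X) (i : Fin N) => θ i x) ⁻¹' {fun i : Fin N => d i} := by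
    intro d
    ext x
    simp only [lsN, Set.mem_setOf_eq, Set.mem_preimage, Set.mem_singleton_iff]
    constructor
    · intro h
      funext i
      exact h i i.2
    · intro h n hn
      exact congrFun h ⟨n, hn⟩
  calc ∑ d ∈ T, Real.negMulLog (μ.real (lsN θ d N))
      = ∑ d ∈ T, Real.negMulLog (μ.real ((fun (x : X) (i : Fin N) => θ i x) ⁻¹'
          {(fun (d : ∀ n, Fin (k n)) (i : Fin N) => d i) d})) := by
        refine Finset.sum_congr rfl fun d _ => ?_
        rw [h3 d]
    _ = ∑ e ∈ T.image (fun (d : ∀ n, Fin (k n)) (i : Fin N) => d i),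
          Real.negMulLog (μ.real ((fun (x : X) (i : Fin N) => θ i x) ⁻¹' {e})) :=
        (Finset.sum_image (f := fun e : (∀ i : Fin N, Fin (k i)) =>
          Real.negMulLog (μ.real ((fun (x : X) (i : Fin N) => θ i x) ⁻¹' {e}))) hinj).symm
    _ ≤ ∑ e : (∀ i : Fin N, Fin (k i)),
          Real.negMulLog (μ.real ((fun (x : X) (i : Fin N) => θ i x) ⁻¹' {e})) :=
        Finset.sum_le_sum_of_subset_of_nonneg (Finset.subset_univ _)
          fun e _ _ => nml_nonneg μ _
    _ ≤ ∑ i : Fin N, HF μ (θ i) := hE3.2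
    _ ≤ ∑ i : Fin N, κ / 2 ^ ((i : ℕ) + 1) := Finset.sum_le_sum fun i _ => hH i
    _ = ∑ i ∈ Finset.range N, κ / 2 ^ (i + 1) :=
        Fin.sum_univ_eq_sum_range (fun i => κ / 2 ^ (i + 1)) N
    _ ≤ κ := by
        rw [geo]
        have : 0 < κ / 2 ^ N := by positivity
        linarith

theorem bound' (h2 : S_E3) (μ : Measure X) [IsProbabilityMeasure μ] (θ : ∀ n, X → Fin (k n))
    (hθ : ∀ n, LM (θ n)) (κ : ℝ) (hκ : 0 < κ) (hH : ∀ n, HF μ (θ n) ≤ κ / 2 ^ (n + 1))
    (T : Finset (∀ n, Fin (k n))) (a : ∀ n, Fin (k n))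
    (hT : ∀ d ∈ T, ∃ N, ∀ n, N ≤ n → d n = a n) :
    ∑ d ∈ T, Real.negMulLog (μ.real (ls θ d)) ≤ κ := by
  classical
  obtain ⟨N₀, hN₀⟩ : ∃ N₀, ∀ d ∈ T, ∀ n, N₀ ≤ n → d n = a n := by
    choose! N hN using hT
    refine ⟨T.sup N, fun d hd n hn => hN d hd n ((Finset.le_sup (f := N) hd).trans hn)⟩
  have h1 : Tendsto (fun M => ∑ d ∈ T, Real.negMulLog (μ.real (lsN θ d M))) atTop
      (𝓝 (∑ d ∈ T, Real.negMulLog (μ.real (ls θ d)))) := by
    refine tendsto_finset_sum _ fun d _ => ?_
    exact (Real.continuous_negMulLog.tendsto _).comp (lim μ θ hθ d)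
  refine le_of_tendsto h1 ?_
  filter_upwards [eventually_ge_atTop N₀] with M hM
  exact bound h2 μ θ hθ κ hκ hH T a N₀ hN₀ M hM

end

theorem cble (k : ℕ → ℕ) (a : ∀ n, Fin (k n)) :
    {d : ∀ n, Fin (k n) | ∃ N, ∀ n, N ≤ n → d n = a n}.Countable := by
  have e : {d : ∀ n, Fin (k n) | ∃ N, ∀ n, N ≤ n → d n = a n} =
      ⋃ N, {d : ∀ n, Fin (k n) | ∀ n, N ≤ n → d n = a n} := by
    ext d
    simp
  rw [e]
  refine Set.countable_iUnion fun N => ?_
  have hinj : Set.InjOn (fun (d : ∀ n, Fin (k n)) (i : Fin N) => d i)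
      {d : ∀ n, Fin (k n) | ∀ n, N ≤ n → d n = a n} := by
    intro d hd d' hd' h
    funext n
    by_cases hn : n < N
    · exact congrFun h ⟨n, hn⟩
    · rw [hd n (by omega), hd' n (by omega)]
  exact Set.countable_of_injective_of_countable_image hinj (Set.to_countable _)

end IJOI

open IJOI in
theorem pr_JOI (h1 : S_E9) (h2 : S_E3) : S_JOI := by
  intro X _ μ _ k θ κ hκ hθ hH
  classical
  have ha : ∀ n, ∃ a : Fin (k n), μ.real {x | θ n x ≠ a} ≤ HF μ (θ n) := fun n =>
    h1 X (Fin (k n)) μ (θ n) (hθ n)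
  choose a ha using ha
  obtain ⟨D, hD⟩ : ∃ D : Set (∀ n, Fin (k n)), D = {d | ∃ N, ∀ n, N ≤ n → d n = a n} :=
    ⟨_, rfl⟩
  have hDc : D.Countable := by rw [hD]; exact cble k a
  have hDm : ∀ d, d ∈ D → ∃ N, ∀ n, N ≤ n → d n = a n := by
    intro d hd
    rw [hD] at hd
    exact hd
  have haD : a ∈ D := by rw [hD]; exact ⟨0, fun n _ => rfl⟩
  -- almost every sequence is in `D`
  have hae : ∀ᵐ x ∂μ, (fun n => θ n x) ∈ D := by
    have hs : Summable (fun n : ℕ => κ / 2 ^ (n + 1)) := by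
      have h3 : Summable (fun n : ℕ => (κ / 2) * (1 / 2 : ℝ) ^ n) :=
        (summable_geometric_of_lt_one (by norm_num) (by norm_num)).mul_left _
      refine h3.congr fun n => ?_
      rw [pow_succ, one_div, inv_pow]
      field_simp
    have hs2 : Summable (fun n : ℕ => μ.real {x | θ n x ≠ a n}) :=
      Summable.of_nonneg_of_le (fun n => measureReal_nonneg) (fun n => (ha n).trans (hH n)) hs
    have h4 : ∑' n, μ {x | θ n x ≠ a n} ≠ ⊤ := by
      have h5 := hs2.tsum_ofReal_ne_top
      have h6 : ∀ i, ENNReal.ofReal (μ.real {x | θ i x ≠ a i}) = μ {x | θ i x ≠ a i} :=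
        fun i => ENNReal.ofReal_toReal (measure_ne_top _ _)
      rw [tsum_congr h6] at h5
      exact h5
    have h6 := ae_eventually_notMem h4
    filter_upwards [h6] with x hx
    rw [hD]
    obtain ⟨N, hN⟩ := eventually_atTop.1 hx
    refine ⟨N, fun n hn => ?_⟩
    have := hN n hn
    simpa using this
  have hcD : Countable D := hDc.to_subtype
  obtain ⟨code, hcode⟩ := exists_injective_nat D
  obtain ⟨E, hE⟩ : ∃ E : Set X, E = {x | (fun n => θ n x) ∈ D} := ⟨_, rfl⟩
  have hEm : MeasurableSet E := by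
    have e : E = ⋃ d ∈ D, ls θ d := by
      ext x
      rw [hE, Set.mem_iUnion₂]
      constructor
      · intro hx
        exact ⟨_, hx, fun n => rfl⟩
      · rintro ⟨d, hd, hx⟩
        have : (fun n => θ n x) = d := funext hx
        show (fun n => θ n x) ∈ D
        rw [this]
        exact hd
    rw [e]
    exact MeasurableSet.biUnion hDc fun d _ => meas_ls θ hθ d
  obtain ⟨α, hα⟩ : ∃ α : X → ℕ, α = fun x => if h : (fun n => θ n x) ∈ D then
    code ⟨fun n => θ n x, h⟩ else code ⟨a, haD⟩ := ⟨_, rfl⟩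
  have hα1 : ∀ x (h : (fun n => θ n x) ∈ D), α x = code ⟨fun n => θ n x, h⟩ := by
    intro x h
    rw [hα]
    exact dif_pos h
  have hα2 : ∀ x, (fun n => θ n x) ∉ D → α x = code ⟨a, haD⟩ := by
    intro x h
    rw [hα]
    exact dif_neg h
  have hpre : ∀ d : D, α ⁻¹' {code d} = ls θ d.1 ∪ (Eᶜ ∩ {_x | a = d.1}) := by
    intro d
    ext x
    simp only [Set.mem_preimage, Set.mem_singleton_iff, Set.mem_union, Set.mem_inter_iff,
      Set.mem_compl_iff, Set.mem_setOf_eq, hE]
    by_cases hx : (fun n => θ n x) ∈ D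
    · rw [hα1 x hx]
      constructor
      · intro h
        left
        have h3 := hcode h
        intro n
        exact congrFun (congrArg Subtype.val h3) n
      · rintro (h | h)
        · congr 1
          exact Subtype.ext (funext h)
        · exact absurd hx h.1
    · rw [hα2 x hx]
      constructor
      · intro h
        right
        exact ⟨hx, congrArg Subtype.val (hcode h)⟩
      · rintro (h | h)
        · have h4 : (fun n => θ n x) = d.1 := funext h
          exact absurd (h4 ▸ d.2) hx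
        · congr 1
          exact Subtype.ext h.2
  have hout : ∀ m, (∀ d : D, code d ≠ m) → α ⁻¹' {m} = ∅ := by
    intro m hm
    ext x
    simp only [Set.mem_preimage, Set.mem_singleton_iff, Set.mem_empty_iff_false, iff_false]
    by_cases hx : (fun n => θ n x) ∈ D
    · rw [hα1 x hx]
      exact hm _
    · rw [hα2 x hx]
      exact hm _
  have hmeas : Measurable α := by
    refine measurable_to_countable' fun m => ?_
    by_cases hm : ∃ d : D, code d = m
    · obtain ⟨d, rfl⟩ := hm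
      rw [hpre d]
      exact (meas_ls θ hθ d.1).union (hEm.compl.inter (MeasurableSet.const _))
    · push Not at hm
      rw [hout m hm]
      exact MeasurableSet.empty
  have hval : ∀ d : D, μ.real (α ⁻¹' {code d}) = μ.real (ls θ d.1) := by
    intro d
    refine measureReal_congr ?_
    filter_upwards [hae] with x hx
    refine propext ?_
    show α x = code d ↔ ∀ n, θ n x = d.1 n
    rw [hα1 x hx]
    constructor
    · intro h n
      exact congrFun (congrArg Subtype.val (hcode h)) n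
    · intro h
      congr 1
      exact Subtype.ext (funext h)
  have hnn : ∀ m : ℕ, 0 ≤ Real.negMulLog ((μ (α ⁻¹' {m})).toReal) := fun m => nml_nonneg μ _
  have hsum : ∀ s : Finset ℕ, ∑ m ∈ s, Real.negMulLog ((μ (α ⁻¹' {m})).toReal) ≤ κ := by
    intro s
    rw [← Finset.sum_preimage code s hcode.injOn]
    · have h3 := bound' h2 μ θ hθ κ hκ hH ((s.preimage code hcode.injOn).map
        (Function.Embedding.subtype _)) a (by
          intro d hd
          rw [Finset.mem_map] at hd
          obtain ⟨d', _, rfl⟩ := hd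
          exact hDm d'.1 d'.2)
      rw [Finset.sum_map] at h3
      refine le_trans (le_of_eq (Finset.sum_congr rfl fun d _ => ?_)) h3
      have := hval d
      unfold Measure.real at this ⊢
      rw [this]
      rfl
    · intro m _ hm
      rw [hout m (fun d hd => hm ⟨d, hd⟩)]
      simp
  refine ⟨α, hmeas, summable_of_sum_le hnn hsum, Real.tsum_le_of_sum_le hnn hsum, fun n => ?_⟩
  refine ⟨fun m => if h : ∃ d : D, code d = m then h.choose.1 n else a n, ?_⟩
  filter_upwards [hae] with x hx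
  have h3 : ∃ d : D, code d = α x := ⟨_, (hα1 x hx).symm⟩
  simp only [dif_pos h3]
  have h4 := h3.choose_spec.trans (hα1 x hx)
  exact congrFun (congrArg Subtype.val (hcode h4)) n

end Pool.Agent.Work.MP_574bbd_an.RK
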