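import Mathlib
import Pool.Agent.Work.MP_574bbd_an.RK.Stmts

/-!
# MP_574bbd_an, block RK, item TRF: codes depend only on the coincidences of the sites
-/

set_option autoImplicit false

namespace Pool.Agent.Work.MP_574bbd_an.RK

open MeasureTheory

namespace ITRF

theorem enc_eq {G L : Type} [Group G] (c : Cd G L) (x : Sh G L) :
    enc c (fun x : Sh G L => x.ev 1) x = c.φ (fun i => x.ev (c.w i)) :=
  congrArg c.φ (funext fun i => by
    show (c.w i • x).ev 1 = x.ev (c.w i)
    rw [ev_smul, one_mul])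

theorem dec_eq {G L : Type} [Group G] (c : Cd G L) (x : Sh G L) :
    dec c (fun x : Sh G L => x.ev 1) x =
      c.D (fun j => c.φ (fun i => x.ev (c.w i * c.f j))) :=
  congrArg c.D (funext fun j => by
    rw [enc_eq]
    exact congrArg c.φ (funext fun i => ev_smul (c.f j) (c.w i) x))

theorem law {ι G G' L : Type} [Finite ι] [Fintype L] [MeasurableSpace L]
    [MeasurableSingletonClass L] (h : S_LAW) (ν : Measure L) [IsProbabilityMeasure ν]
    (s : ι → G) (s' : ι → G') (hP : Pat s s') (Φ : Set (ι → L)) :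
    (bm G ν).real {x : Sh G L | (fun i => x.ev (s i)) ∈ Φ} =
      (bm G' ν).real {x : Sh G' L | (fun i => x.ev (s' i)) ∈ Φ} :=
  h ι G G' L ν s s' hP Φ

end ITRF

theorem pr_TRF (hL : S_LAW) : S_TRF := by
  intro G G' L _ _ _ _ _ ν _ h δ c w' f' hP hc
  obtain ⟨h1, h2⟩ := hc
  have e1 : ∀ k : Fin c.k,
      (bm G ν).real ((enc c fun x : Sh G L => x.ev 1) ⁻¹' {k}) =
      (bm G' ν).real ((enc (c.win w' f') fun x : Sh G' L => x.ev 1) ⁻¹' {k}) := by
    intro k
    have a1 : ((enc c fun x : Sh G L => x.ev 1) ⁻¹' {k}) =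
        {x : Sh G L | (fun i => x.ev (sites c i)) ∈
          {u : Fin c.p ⊕ (Fin c.p × Fin c.q) ⊕ Unit → L | c.φ (fun i => u (Sum.inl i)) = k}} := by
      ext x
      show enc c (fun x : Sh G L => x.ev 1) x = k ↔ c.φ (fun i => x.ev (c.w i)) = k
      rw [ITRF.enc_eq]
    have a2 : ((enc (c.win w' f') fun x : Sh G' L => x.ev 1) ⁻¹' {k}) =
        {x : Sh G' L | (fun i => x.ev (sites (c.win w' f') i)) ∈
          {u : Fin c.p ⊕ (Fin c.p × Fin c.q) ⊕ Unit → L | c.φ (fun i => u (Sum.inl i)) = k}} := by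
      ext x
      show enc (c.win w' f') (fun x : Sh G' L => x.ev 1) x = k ↔
        c.φ (fun i => x.ev (w' i)) = k
      rw [ITRF.enc_eq]
      exact Iff.rfl
    rw [a1, a2]
    exact ITRF.law hL ν _ _ hP _
  have e2 : (bm G ν).real {x : Sh G L | dec c (fun x : Sh G L => x.ev 1) x ≠ x.ev 1} =
      (bm G' ν).real {x : Sh G' L |
        dec (c.win w' f') (fun x : Sh G' L => x.ev 1) x ≠ x.ev 1} := by
    have a1 : {x : Sh G L | dec c (fun x : Sh G L => x.ev 1) x ≠ x.ev 1} =
        {x : Sh G L | (fun i => x.ev (sites c i)) ∈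
          {u : Fin c.p ⊕ (Fin c.p × Fin c.q) ⊕ Unit → L |
            c.D (fun j => c.φ (fun i => u (Sum.inr (Sum.inl (i, j))))) ≠
              u (Sum.inr (Sum.inr ()))}} := by
      ext x
      show dec c (fun x : Sh G L => x.ev 1) x ≠ x.ev 1 ↔
        c.D (fun j => c.φ (fun i => x.ev (c.w i * c.f j))) ≠ x.ev 1
      rw [ITRF.dec_eq]
    have a2 : {x : Sh G' L | dec (c.win w' f') (fun x : Sh G' L => x.ev 1) x ≠ x.ev 1} =
        {x : Sh G' L | (fun i => x.ev (sites (c.win w' f') i)) ∈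
          {u : Fin c.p ⊕ (Fin c.p × Fin c.q) ⊕ Unit → L |
            c.D (fun j => c.φ (fun i => u (Sum.inr (Sum.inl (i, j))))) ≠
              u (Sum.inr (Sum.inr ()))}} := by
      ext x
      show dec (c.win w' f') (fun x : Sh G' L => x.ev 1) x ≠ x.ev 1 ↔
        c.D (fun j => c.φ (fun i => x.ev (w' i * f' j))) ≠ x.ev 1
      rw [ITRF.dec_eq]
      exact Iff.rfl
    rw [a1, a2]
    exact ITRF.law hL ν _ _ hP _
  refine ⟨?_, ?_⟩
  · have e3 : HF (bm G' ν) (enc (c.win w' f') fun x : Sh G' L => x.ev 1) =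
        HF (bm G ν) (enc c fun x : Sh G L => x.ev 1) := by
      unfold HF
      exact Finset.sum_congr rfl fun k _ => congrArg Real.negMulLog (e1 k).symm
    rw [e3]
    exact h1
  · rw [← e2]
    exact h2

end Pool.Agent.Work.MP_574bbd_an.RK
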